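import Mathlib

/-!
Two commuting elements of a Banach algebra and analytic relations between them: local solutions of
`(z r - l) ψ = r ^ d` modulo the relation.
-/

set_option autoImplicit false

open Filter Topology Metric Set WeakDual

namespace Pool.Agent.J6H99.CS

/-- Linear powers are dominated by a larger geometric sequence. -/
theorem nat_mul_pow_le {q : ℝ} (h0 : 0 ≤ q) (h1 : q < 1) : ∃ B : ℝ, 0 ≤ B ∧ ∀ n : ℕ, n * q ^ n ≤ B := by
  have h2 := tendsto_self_mul_const_pow_of_lt_one h0 h1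
  obtain ⟨B, hB⟩ := h2.bddAbove_range
  refine ⟨B, ?_, fun n => hB ⟨n, rfl⟩⟩
  have := hB ⟨0, rfl⟩
  simpa using this

section comm

variable {𝔄 : Type*} [NormedCommRing 𝔄] [NormedAlgebra ℂ 𝔄] [CompleteSpace 𝔄]

theorem bezout (f g : 𝔄) (h : ∀ χ : characterSpace ℂ 𝔄, χ f = 0 → χ g = 0 → False) :
    ∃ a b : 𝔄, a * f + b * g = 1 := by
  by_contra hcon
  have hI : Ideal.span {f, g} ≠ (⊤ : Ideal 𝔄) := by
    intro hI
    apply hcon
    have h1 : (1 : 𝔄) ∈ Ideal.span {f, g} := hI ▸ Submodule.mem_top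
    exact Ideal.mem_span_pair.1 h1
  obtain ⟨M, hM, hIM⟩ := Ideal.exists_le_maximal _ hI
  exact h M.toCharacterSpace
    (Ideal.toCharacterSpace_apply_eq_zero_of_mem M (hIM (Ideal.subset_span (by simp))))
    (Ideal.toCharacterSpace_apply_eq_zero_of_mem M (hIM (Ideal.subset_span (by simp))))

/-- The blow-up of the relation. -/
theorem local_solution {l r : 𝔄} {C σ ρ : ℝ} (hC : 0 ≤ C) (hσ : 0 < σ) (hσρ : σ < ρ)
    (hl : ∀ n, ‖l ^ n‖ ≤ C * σ ^ n) (hr : ∀ n, ‖r ^ n‖ ≤ C * σ ^ n) {c : ℕ × ℕ → ℂ}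
    (hc : Summable fun e : ℕ × ℕ => ‖c e‖ * ρ ^ (e.1 + e.2)) {d : ℕ}
    (hd : ∀ e : ℕ × ℕ, e.1 + e.2 < d → c e = 0) {z₀ : ℂ} (hz₀ : ‖z₀‖ = 1)
    (hχ : ∀ χ : characterSpace ℂ 𝔄, χ l = z₀ * χ r →
      ∑' e : ℕ × ℕ, c e * (z₀ ^ e.1 * (χ r) ^ (e.1 + e.2 - d)) ≠ 0) :
    ∃ ψ α : ℂ → 𝔄, ∀ᶠ z in 𝓝 z₀, DifferentiableAt ℂ ψ z ∧
      (z • r - l) * ψ z = r ^ d - α z * ∑' e : ℕ × ℕ, c e • (l ^ e.1 * r ^ e.2) := by
  set τ : ℝ := (σ + ρ) / (2 * σ) with hτ
  have hτ1 : 1 < τ := by rw [hτ, lt_div_iff₀ (by positivity)]; linarith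
  have hστ : σ * τ = (σ + ρ) / 2 := by rw [hτ]; field_simp
  have hτ0 : 0 < τ := by linarith
  have hρ0 : 0 < ρ := hσ.trans hσρ
  set q : ℝ := σ * τ / ρ with hq
  have hq0 : 0 ≤ q := by positivity
  have hq1 : q < 1 := by rw [hq, div_lt_one hρ0, hστ]; linarith
  have hqρ : σ * τ = q * ρ := by rw [hq]; field_simp
  have hq1' : q ≤ 1 := hq1.le
  obtain ⟨B, hB0, hB⟩ := nat_mul_pow_le hq0 hq1
  -- the three families
  let Ft : ℕ × ℕ → 𝔄 := fun e => c e • (l ^ e.1 * r ^ e.2)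
  let Gt : ℕ × ℕ → ℂ → 𝔄 := fun e z => c e • (z ^ e.1 • r ^ (e.1 + e.2 - d))
  let Pt : ℕ × ℕ → ℂ → 𝔄 := fun e z =>
    c e • ((∑ k ∈ Finset.range e.1, l ^ k * (z • r) ^ (e.1 - 1 - k)) * r ^ e.2)
  let w : ℕ × ℕ → ℝ := fun e => ‖c e‖ * ρ ^ (e.1 + e.2)
  have hw : Summable w := hc
  have hw0 : ∀ e, 0 ≤ w e := fun e => by positivity
  have hFb : ∀ e, ‖Ft e‖ ≤ C ^ 2 * w e := by
    intro e
    calc ‖Ft e‖ ≤ ‖c e‖ * (‖l ^ e.1‖ * ‖r ^ e.2‖) := by
          simp only [Ft]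
          rw [norm_smul]
          gcongr
          exact norm_mul_le _ _
      _ ≤ ‖c e‖ * ((C * σ ^ e.1) * (C * σ ^ e.2)) := by
          gcongr
          · exact hl _
          · exact hr _
      _ = C ^ 2 * (‖c e‖ * σ ^ (e.1 + e.2)) := by ring
      _ ≤ C ^ 2 * w e := by
          simp only [w]
          gcongr
  have hGb : ∀ e, ∀ z ∈ ball (0 : ℂ) τ, ‖Gt e z‖ ≤ (C / σ ^ d) * w e := by
    intro e z hz
    rw [mem_ball_zero_iff] at hz
    by_cases hed : e.1 + e.2 < d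
    · simp only [Gt]
      rw [hd e hed, zero_smul, norm_zero]
      have := hw0 e
      positivity
    · push Not at hed
      calc ‖Gt e z‖ = ‖c e‖ * (‖z‖ ^ e.1 * ‖r ^ (e.1 + e.2 - d)‖) := by
            simp only [Gt]
            rw [norm_smul, norm_smul, norm_pow]
        _ ≤ ‖c e‖ * (τ ^ (e.1 + e.2) * (C * σ ^ (e.1 + e.2 - d))) := by
            gcongr
            · calc ‖z‖ ^ e.1 ≤ τ ^ e.1 := by gcongr
                _ ≤ τ ^ (e.1 + e.2) := pow_le_pow_right₀ hτ1.le (by omega)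
            · exact hr _
        _ = (C / σ ^ d) * (‖c e‖ * (σ * τ) ^ (e.1 + e.2)) := by
            have h1 : σ ^ (e.1 + e.2) = σ ^ (e.1 + e.2 - d) * σ ^ d := by
              rw [← pow_add]; congr 1; omega
            rw [mul_pow, h1]
            field_simp
        _ ≤ (C / σ ^ d) * w e := by
            simp only [w]
            gcongr
            rw [hστ]; linarith
  have hPb : ∀ e, ∀ z ∈ ball (0 : ℂ) τ, ‖Pt e z‖ ≤ (C ^ 2 / σ * B) * w e := by
    intro e z hz
    rw [mem_ball_zero_iff] at hz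
    have hsum : ‖(∑ k ∈ Finset.range e.1, l ^ k * (z • r) ^ (e.1 - 1 - k)) * r ^ e.2‖ ≤
        e.1 * (C ^ 2 / σ * (σ * τ) ^ (e.1 + e.2)) := by
      rw [Finset.sum_mul]
      refine (norm_sum_le _ _).trans ?_
      have h1 : ∀ k ∈ Finset.range e.1, ‖l ^ k * (z • r) ^ (e.1 - 1 - k) * r ^ e.2‖ ≤
          C ^ 2 / σ * (σ * τ) ^ (e.1 + e.2) := by
        intro k hk
        rw [Finset.mem_range] at hk
        have h2 : l ^ k * (z • r) ^ (e.1 - 1 - k) * r ^ e.2 =
            z ^ (e.1 - 1 - k) • (l ^ k * r ^ (e.1 - 1 - k + e.2)) := by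
          rw [smul_pow, mul_smul_comm, smul_mul_assoc, mul_assoc, ← pow_add]
        rw [h2, norm_smul, norm_pow]
        calc ‖z‖ ^ (e.1 - 1 - k) * ‖l ^ k * r ^ (e.1 - 1 - k + e.2)‖
            ≤ τ ^ (e.1 + e.2) * ((C * σ ^ k) * (C * σ ^ (e.1 - 1 - k + e.2))) := by
              gcongr
              · calc ‖z‖ ^ (e.1 - 1 - k) ≤ τ ^ (e.1 - 1 - k) := by gcongr
                  _ ≤ τ ^ (e.1 + e.2) := pow_le_pow_right₀ hτ1.le (by omega)
              · refine (norm_mul_le _ _).trans ?_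
                gcongr
                · exact hl _
                · exact hr _
          _ = C ^ 2 / σ * (σ * τ) ^ (e.1 + e.2) := by
              have h3 : σ ^ (e.1 + e.2) = σ ^ k * σ ^ (e.1 - 1 - k + e.2) * σ := by
                rw [← pow_add, ← pow_succ]; congr 1; omega
              rw [mul_pow, h3]
              field_simp
      refine (Finset.sum_le_sum h1).trans ?_
      rw [Finset.sum_const, Finset.card_range, nsmul_eq_mul]
    have h4 : (e.1 : ℝ) * q ^ (e.1 + e.2) ≤ B := by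
      refine le_trans ?_ (hB (e.1 + e.2))
      gcongr
      omega
    calc ‖Pt e z‖ ≤ ‖c e‖ * (e.1 * (C ^ 2 / σ * (σ * τ) ^ (e.1 + e.2))) := by
          simp only [Pt]
          rw [norm_smul]
          gcongr
      _ = (C ^ 2 / σ * (e.1 * q ^ (e.1 + e.2))) * (‖c e‖ * ρ ^ (e.1 + e.2)) := by
          rw [hqρ, mul_pow]; ring
      _ ≤ (C ^ 2 / σ * B) * w e := by
          simp only [w]
          gcongr
  have hFs : Summable Ft := (hw.mul_left (C ^ 2)).of_norm_bounded hFb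
  have hGs : ∀ z ∈ ball (0 : ℂ) τ, Summable fun e => Gt e z := fun z hz =>
    (hw.mul_left (C / σ ^ d)).of_norm_bounded fun e => hGb e z hz
  have hPs : ∀ z ∈ ball (0 : ℂ) τ, Summable fun e => Pt e z := fun z hz =>
    (hw.mul_left (C ^ 2 / σ * B)).of_norm_bounded fun e => hPb e z hz
  let F : 𝔄 := ∑' e, Ft e
  let G : ℂ → 𝔄 := fun z => ∑' e, Gt e z
  let H : ℂ → 𝔄 := fun z => ∑' e, Pt e z
  have hGd : DifferentiableOn ℂ G (ball 0 τ) := by
    refine Complex.differentiableOn_tsum_of_summable_norm (hw.mul_left (C / σ ^ d)) ?_ isOpen_ball hGb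
    intro e
    refine Differentiable.differentiableOn ?_
    show Differentiable ℂ fun z : ℂ => c e • (z ^ e.1 • r ^ (e.1 + e.2 - d))
    fun_prop
  have hHd : DifferentiableOn ℂ H (ball 0 τ) := by
    refine Complex.differentiableOn_tsum_of_summable_norm (hw.mul_left (C ^ 2 / σ * B)) ?_
      isOpen_ball hPb
    intro e
    refine Differentiable.differentiableOn ?_
    show Differentiable ℂ fun z : ℂ =>
      c e • ((∑ k ∈ Finset.range e.1, l ^ k * (z • r) ^ (e.1 - 1 - k)) * r ^ e.2)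
    fun_prop
  have hid : ∀ z ∈ ball (0 : ℂ) τ, F = r ^ d * G z + H z * (l - z • r) := by
    intro z hz
    have h1 : HasSum (fun e => r ^ d * Gt e z + Pt e z * (l - z • r))
        (r ^ d * G z + H z * (l - z • r)) :=
      ((hGs z hz).hasSum.mul_left _).add ((hPs z hz).hasSum.mul_right _)
    refine hFs.hasSum.unique ?_
    convert h1 using 1
    ext e
    by_cases hed : e.1 + e.2 < d
    · simp only [Ft, Gt, Pt]
      rw [hd e hed]
      simp
    · push Not at hed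
      simp only [Ft, Gt, Pt]
      have h2 : (∑ k ∈ Finset.range e.1, l ^ k * (z • r) ^ (e.1 - 1 - k)) * (l - z • r) =
          l ^ e.1 - (z • r) ^ e.1 := (Commute.all l (z • r)).geom_sum₂_mul e.1
      have h3 : r ^ d * r ^ (e.1 + e.2 - d) = r ^ (e.1 + e.2) := by
        rw [← pow_add]; congr 1; omega
      calc c e • (l ^ e.1 * r ^ e.2)
          = c e • (z ^ e.1 • r ^ (e.1 + e.2) + (l ^ e.1 - (z • r) ^ e.1) * r ^ e.2) := by
            congr 1
            rw [sub_mul, smul_pow, smul_mul_assoc, ← pow_add]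
            abel
        _ = r ^ d * (c e • (z ^ e.1 • r ^ (e.1 + e.2 - d))) +
            c e • ((∑ k ∈ Finset.range e.1, l ^ k * (z • r) ^ (e.1 - 1 - k)) * r ^ e.2) *
              (l - z • r) := by
            rw [mul_smul_comm, mul_smul_comm, h3, smul_mul_assoc, mul_right_comm, h2, ← smul_add]
  have hz₀b : z₀ ∈ ball (0 : ℂ) τ := by rw [mem_ball_zero_iff, hz₀]; exact hτ1
  obtain ⟨a, b, hab⟩ : ∃ a b : 𝔄, a * G z₀ + b * (z₀ • r - l) = 1 := by
    refine bezout _ _ fun χ h1 h2 => ?_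
    have h3 : χ l = z₀ * χ r := by
      rw [map_sub, map_smul, sub_eq_zero] at h2
      rw [← h2, smul_eq_mul]
    apply hχ χ h3
    have h4 : HasSum (fun e => (CharacterSpace.toCLM χ) (Gt e z₀)) ((CharacterSpace.toCLM χ) (G z₀)) :=
      (hGs z₀ hz₀b).hasSum.mapL _
    have h5 : (CharacterSpace.toCLM χ) (G z₀) = 0 := h1
    rw [h5] at h4
    rw [← h4.tsum_eq]
    refine tsum_congr fun e => ?_
    show _ = χ (c e • (z₀ ^ e.1 • r ^ (e.1 + e.2 - d)))
    rw [map_smul, map_smul, map_pow, smul_eq_mul, smul_eq_mul]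
  let u : ℂ → 𝔄 := fun z => a * G z + b * (z • r - l)
  have hu1 : u z₀ = 1 := hab
  have hnhds : ball (0 : ℂ) τ ∈ 𝓝 z₀ := isOpen_ball.mem_nhds hz₀b
  have hud : ∀ z ∈ ball (0 : ℂ) τ, DifferentiableAt ℂ u z := by
    intro z hz
    have h1 := (hGd z hz).differentiableAt (isOpen_ball.mem_nhds hz)
    have h2 : DifferentiableAt ℂ (fun z : ℂ => b * (z • r - l)) z := by fun_prop
    exact (h1.const_mul a).add h2
  have hunit : ∀ᶠ z in 𝓝 z₀, IsUnit (u z) := by
    have h1 : ContinuousAt u z₀ := (hud z₀ hz₀b).continuousAt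
    have h2 : {x : 𝔄 | IsUnit x} ∈ 𝓝 (u z₀) :=
      Units.isOpen.mem_nhds (by rw [hu1]; exact isUnit_one)
    exact h1 h2
  refine ⟨fun z => Ring.inverse (u z) * (a * H z + b * r ^ d), fun z => Ring.inverse (u z) * a, ?_⟩
  filter_upwards [hunit, hnhds] with z hz hzb
  constructor
  · have h1 : DifferentiableAt ℂ (fun z => Ring.inverse (u z)) z :=
      (differentiableAt_inverse hz).comp z (hud z hzb)
    have h2 : DifferentiableAt ℂ H z := (hHd z hzb).differentiableAt (isOpen_ball.mem_nhds hzb)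
    exact h1.mul ((h2.const_mul a).add_const _)
  · have h1 := hid z hzb
    have h2 : u z * r ^ d = a * F + (a * H z + b * r ^ d) * (z • r - l) := by
      simp only [u]
      rw [h1]
      ring
    have h3 : Ring.inverse (u z) * u z = 1 := Ring.inverse_mul_cancel _ hz
    calc (z • r - l) * (Ring.inverse (u z) * (a * H z + b * r ^ d))
        = Ring.inverse (u z) * ((a * H z + b * r ^ d) * (z • r - l)) := by ring
      _ = Ring.inverse (u z) * (u z * r ^ d - a * F) := by rw [h2]; ring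
      _ = (Ring.inverse (u z) * u z) * r ^ d - Ring.inverse (u z) * a * F := by ring
      _ = r ^ d - Ring.inverse (u z) * a * F := by rw [h3, one_mul]

end comm

end Pool.Agent.J6H99.CS
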