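import Mathlib

/-!
The double commutant of two commuting elements of a Banach algebra as a commutative Banach algebra,
and Laurent coefficients of solutions of `(z R - L) κ = k₀` on the unit circle.
-/

set_option autoImplicit false

open Filter Topology Metric Set

namespace Pool.Agent.J6H99.CS

theorem exists_comm_alg.{u} {B : Type u} [NormedRing B] [NormedAlgebra ℂ B] [CompleteSpace B] (l r : B)
    (hlr : l * r = r * l) : ∃ (𝔄 : Type u) (_ : NormedCommRing 𝔄) (_ : NormedAlgebra ℂ 𝔄)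
      (_ : CompleteSpace 𝔄) (ι : 𝔄 →ₐ[ℂ] B) (l' r' : 𝔄), (∀ x, ‖ι x‖ = ‖x‖) ∧ ι l' = l ∧ ι r' = r ∧
      ∀ x : 𝔄, IsUnit (ι x) → IsUnit x := by
  let 𝒵 : Subalgebra ℂ B := Subalgebra.centralizer ℂ (Set.centralizer {l, r})
  have hcomm : ∀ x ∈ 𝒵, ∀ y ∈ 𝒵, x * y = y * x := by
    refine Set.centralizer_centralizer_comm_of_comm (S := {l, r}) ?_
    rintro x (rfl | rfl) y (rfl | rfl)
    · rfl
    · exact hlr
    · exact hlr.symm
    · rfl
  let inst : NormedCommRing 𝒵 :=
    { (inferInstance : NormedRing 𝒵) with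
      mul_comm := fun x y => Subtype.ext (hcomm x x.2 y y.2) }
  have hcl : IsClosed (𝒵 : Set B) := Set.isClosed_centralizer _
  have hcomp : CompleteSpace 𝒵 := hcl.completeSpace_coe
  have hl : l ∈ 𝒵 := Set.subset_centralizer_centralizer (by simp)
  have hr : r ∈ 𝒵 := Set.subset_centralizer_centralizer (by simp)
  refine ⟨𝒵, inst, Subalgebra.toNormedAlgebra 𝒵, hcomp, 𝒵.val, ⟨l, hl⟩, ⟨r, hr⟩, fun x => rfl, rfl, rfl,
    ?_⟩
  intro x hx
  have hx' : IsUnit (x : B) := hx
  obtain ⟨u, hu⟩ := hx'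
  have hinv : ((u⁻¹ : Bˣ) : B) ∈ 𝒵 := by
    show ((u⁻¹ : Bˣ) : B) ∈ Set.centralizer (Set.centralizer {l, r})
    intro y hy
    have h1 : y * (u : B) = u * y := by rw [hu]; exact x.2 y hy
    exact (Commute.units_inv_right (show Commute y (u : B) from h1)).eq
  refine IsUnit.of_mul_eq_one (⟨((u⁻¹ : Bˣ) : B), hinv⟩ : 𝒵) (Subtype.ext ?_)
  show (x : B) * ((u⁻¹ : Bˣ) : B) = 1
  rw [← hu, Units.mul_inv]

section laurent

variable {E : Type*} [NormedAddCommGroup E] [NormedSpace ℂ E] [CompleteSpace E]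

theorem map_circleIntegral (T : E →L[ℂ] E) {f : ℂ → E} {c : ℂ} {R : ℝ} (hf : CircleIntegrable f c R) :
    T (∮ z in C(c, R), f z) = ∮ z in C(c, R), T (f z) := by
  unfold circleIntegral
  rw [← T.intervalIntegral_comp_comm hf.out]
  refine intervalIntegral.integral_congr fun θ _ => ?_
  exact T.map_smul _ _

theorem laurent (L R : E →L[ℂ] E) (k₀ : E) (κ : ℂ → E) {δ : ℝ} (hδ : 0 < δ) (hδ1 : δ < 1)
    (h : ∀ z : ℂ, |‖z‖ - 1| < δ → DifferentiableAt ℂ κ z ∧ z • R (κ z) - L (κ z) = k₀) :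
    ∃ p m : ℕ → E, Tendsto p atTop (𝓝 0) ∧ Tendsto m atTop (𝓝 0) ∧ R (m 0) - L (p 0) = k₀ ∧
      (∀ n, L (p (n + 1)) = R (p n)) ∧ (∀ n, L (m n) = R (m (n + 1))) := by
  let coef : ℤ → E := fun k =>
    (2 * Real.pi * Complex.I : ℂ)⁻¹ • ∮ z in C(0, 1), z ^ (-k - 1) • κ z
  have hne : ∀ z : ℂ, |‖z‖ - 1| < δ → z ≠ 0 := by
    rintro z hz rfl
    rw [norm_zero] at hz
    norm_num at hz
    linarith
  have hdiff : ∀ (j : ℤ) (z : ℂ), |‖z‖ - 1| < δ → DifferentiableAt ℂ (fun z : ℂ => z ^ j • κ z) z :=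
    fun j z hz => (differentiableAt_zpow.2 (Or.inl (hne z hz))).smul (h z hz).1
  have hs1 : ∀ z ∈ sphere (0 : ℂ) 1, |‖z‖ - 1| < δ := by
    intro z hz
    rw [mem_sphere_zero_iff_norm] at hz
    rw [hz, sub_self, abs_zero]
    exact hδ
  have hint : ∀ j : ℤ, CircleIntegrable (fun z : ℂ => z ^ j • κ z) 0 1 := fun j =>
    ContinuousOn.circleIntegrable zero_le_one fun z hz =>
      (hdiff j z (hs1 z hz)).continuousAt.continuousWithinAt
  have hintz : ∀ j : ℤ, CircleIntegrable (fun z : ℂ => z ^ j • k₀) 0 1 := fun j =>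
    ContinuousOn.circleIntegrable zero_le_one fun z hz =>
      ((differentiableAt_zpow.2 (Or.inl (hne z (hs1 z hz)))).smul_const k₀).continuousAt.continuousWithinAt
  have hpi : (2 * Real.pi * Complex.I : ℂ) ≠ 0 := Complex.two_pi_I_ne_zero
  -- the recursion
  have hrec : ∀ k : ℤ, R (coef (k - 1)) - L (coef k) =
      (2 * Real.pi * Complex.I : ℂ)⁻¹ • ((∮ z in C(0, 1), z ^ (-k - 1)) • k₀) := by
    intro k
    simp only [coef]
    rw [map_smul, map_smul, ← smul_sub, map_circleIntegral R (hint _), map_circleIntegral L (hint _),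
      ← circleIntegral.integral_smul_const, ← circleIntegral.integral_sub]
    · congr 1
      refine circleIntegral.integral_congr zero_le_one fun z hz => ?_
      have h1 := h z (hs1 z hz)
      have h2 := hne z (hs1 z hz)
      show R (z ^ (-(k - 1) - 1) • κ z) - L (z ^ (-k - 1) • κ z) = z ^ (-k - 1) • k₀
      rw [← h1.2, map_smul, map_smul, smul_sub, smul_smul, ← zpow_add_one₀ h2]
      congr 3
      ring
    · exact ContinuousOn.circleIntegrable zero_le_one fun z hz =>
        (R.continuous.continuousAt.comp (hdiff _ z (hs1 z hz)).continuousAt).continuousWithinAt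
    · exact ContinuousOn.circleIntegrable zero_le_one fun z hz =>
        (L.continuous.continuousAt.comp (hdiff _ z (hs1 z hz)).continuousAt).continuousWithinAt
  have hrec0 : ∀ k : ℤ, k ≠ 0 → R (coef (k - 1)) - L (coef k) = 0 := by
    intro k hk
    rw [hrec k]
    have h1 := circleIntegral.integral_sub_zpow_of_ne (n := -k - 1) (by omega) 0 0 1
    simp only [sub_zero] at h1
    rw [h1, zero_smul, smul_zero]
  have hrec1 : R (coef (-1)) - L (coef 0) = k₀ := by
    have h1 := hrec 0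
    have h2 := circleIntegral.integral_sub_center_inv 0 (R := 1) one_ne_zero
    simp only [sub_zero] at h2
    have h3 : (∮ z in C(0, 1), z ^ (-(0 : ℤ) - 1)) = 2 * Real.pi * Complex.I := by
      rw [← h2]
      refine circleIntegral.integral_congr zero_le_one fun z _ => ?_
      show z ^ (-(0 : ℤ) - 1) = z⁻¹
      rw [neg_zero, zero_sub, zpow_neg_one]
    rw [h3, smul_smul, inv_mul_cancel₀ hpi, one_smul] at h1
    have h4 : (0 : ℤ) - 1 = -1 := by norm_num
    rw [h4] at h1
    exact h1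
  -- moving the circle
  have hann : ∀ (j : ℤ) (r s : ℝ), 0 < r → r ≤ s → 1 - δ < r → s < 1 + δ →
      (∮ z in C(0, s), z ^ j • κ z) = ∮ z in C(0, r), z ^ j • κ z := by
    intro j r s hr hrs h1 h2
    refine Complex.circleIntegral_eq_of_differentiable_on_annulus_off_countable hr hrs
      Set.countable_empty ?_ ?_
    · intro z hz
      have hz1 : ‖z‖ ≤ s := mem_closedBall_zero_iff.1 hz.1
      have hz2 : r ≤ ‖z‖ := by
        have := hz.2
        rw [mem_ball_zero_iff] at this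
        linarith
      exact (hdiff j z (abs_lt.2 ⟨by linarith, by linarith⟩)).continuousAt.continuousWithinAt
    · intro z hz
      have hz1 : ‖z‖ < s := mem_ball_zero_iff.1 hz.1.1
      have hz2 : r < ‖z‖ := by
        have := hz.1.2
        rw [mem_closedBall_zero_iff] at this
        linarith
      exact hdiff j z (abs_lt.2 ⟨by linarith, by linarith⟩)
  have hcont : ∀ r : ℝ, 1 - δ < r → r < 1 + δ → 0 < r → ∃ B : ℝ, 0 ≤ B ∧
      ∀ z ∈ sphere (0 : ℂ) r, ‖κ z‖ ≤ B := by
    intro r h1 h2 hr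
    have h3 : ContinuousOn κ (sphere (0 : ℂ) r) := by
      intro z hz
      rw [mem_sphere_zero_iff_norm] at hz
      exact (h z (by rw [hz]; exact abs_lt.2 ⟨by linarith, by linarith⟩)).1.continuousAt.continuousWithinAt
    obtain ⟨B, hB⟩ := (isCompact_sphere (0 : ℂ) r).exists_bound_of_continuousOn h3
    exact ⟨max B 0, le_max_right _ _, fun z hz => (hB z hz).trans (le_max_left _ _)⟩
  have hbound : ∀ (j : ℤ) (r B : ℝ), 0 < r → 0 ≤ B → (∀ z ∈ sphere (0 : ℂ) r, ‖κ z‖ ≤ B) →
      ‖(2 * Real.pi * Complex.I : ℂ)⁻¹ • ∮ z in C(0, r), z ^ j • κ z‖ ≤ r * (r ^ j * B) := by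
    intro j r B hr hB0 hB
    refine circleIntegral.norm_two_pi_i_inv_smul_integral_le_of_norm_le_const hr.le fun z hz => ?_
    have hz1 := hB z hz
    rw [mem_sphere_zero_iff_norm] at hz
    rw [norm_smul, norm_zpow, hz]
    gcongr
  refine ⟨fun n => coef n, fun n => coef (-1 - n), ?_, ?_, ?_, ?_, ?_⟩
  · set r : ℝ := 1 + δ / 2 with hr
    obtain ⟨B, hB0, hB⟩ := hcont r (by linarith) (by linarith) (by linarith)
    have h1 : ∀ n : ℕ, ‖coef n‖ ≤ B * (r⁻¹) ^ n := by
      intro n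
      have h2 := hann (-(n : ℤ) - 1) 1 r one_pos (by linarith) (by linarith) (by linarith)
      simp only [coef]
      rw [← h2]
      refine (hbound _ r B (by linarith) hB0 hB).trans (le_of_eq ?_)
      have hr0 : r ≠ 0 := by positivity
      rw [zpow_sub₀ hr0, zpow_neg, zpow_natCast, zpow_one, inv_pow]
      field_simp
    refine squeeze_zero_norm h1 ?_
    have h3 : Tendsto (fun n : ℕ => (r⁻¹) ^ n) atTop (𝓝 0) :=
      tendsto_pow_atTop_nhds_zero_of_lt_one (by positivity) (inv_lt_one_of_one_lt₀ (by linarith))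
    simpa using h3.const_mul B
  · set r : ℝ := 1 - δ / 2 with hr
    obtain ⟨B, hB0, hB⟩ := hcont r (by linarith) (by linarith) (by linarith)
    have hr0 : 0 < r := by linarith
    have h1 : ∀ n : ℕ, ‖coef (-1 - n)‖ ≤ (r * B) * r ^ n := by
      intro n
      have h4 : -(-1 - (n : ℤ)) - 1 = n := by ring
      have h2 := hann n r 1 hr0 (by linarith) (by linarith) (by linarith)
      simp only [coef]
      rw [h4, h2]
      refine (hbound _ r B hr0 hB0 hB).trans (le_of_eq ?_)
      rw [zpow_natCast]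
      ring
    refine squeeze_zero_norm h1 ?_
    have h3 : Tendsto (fun n : ℕ => r ^ n) atTop (𝓝 0) :=
      tendsto_pow_atTop_nhds_zero_of_lt_one hr0.le (by linarith)
    simpa using h3.const_mul (r * B)
  · show R (coef (-1 - ((0 : ℕ) : ℤ))) - L (coef ((0 : ℕ) : ℤ)) = k₀
    rw [Nat.cast_zero, sub_zero]
    exact hrec1
  · intro n
    have h1 := hrec0 (n + 1) (by omega)
    rw [add_sub_cancel_right, sub_eq_zero] at h1
    show L (coef ((n + 1 : ℕ) : ℤ)) = R (coef n)
    rw [h1]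
    push_cast
    rfl
  · intro n
    have h1 := hrec0 (-1 - n) (by omega)
    rw [sub_eq_zero] at h1
    show L (coef (-1 - n)) = R (coef (-1 - ((n + 1 : ℕ) : ℤ)))
    rw [← h1]
    push_cast
    congr 2
    ring

end laurent

end Pool.Agent.J6H99.CS
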