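import Mathlib
import Pool.Agent.W143.DQ.Schauder

/-!
Lomonosov's lemma: an algebra of operators on a complex Banach space without nontrivial closed
invariant subspaces and a nonzero compact operator `K` have `S (K v) = v` for some `S` in the algebra
and some `v ≠ 0`.
-/

set_option autoImplicit false

open Filter Topology Metric Set

namespace Pool.Agent.J6H99.CS

variable {X : Type*} [NormedAddCommGroup X] [NormedSpace ℂ X]

/-- The algebra `A` has no closed invariant subspaces except `0` and the whole space. -/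
def Trans (A : Subalgebra ℂ (X →L[ℂ] X)) : Prop :=
  ∀ V : Submodule ℂ X, IsClosed (V : Set X) → (∀ S ∈ A, ∀ x ∈ V, S x ∈ V) → V = ⊥ ∨ V = ⊤

theorem Trans.dense {A : Subalgebra ℂ (X →L[ℂ] X)} (hA : Trans A) {y : X} (hy : y ≠ 0) (x : X)
    {ε : ℝ} (hε : 0 < ε) : ∃ S ∈ A, ‖S y - x‖ < ε := by
  let ev : (X →L[ℂ] X) →ₗ[ℂ] X :=
    { toFun := fun S => S y
      map_add' := fun S T => rfl
      map_smul' := fun c S => rfl }
  let V : Submodule ℂ X := (A.toSubmodule.map ev).topologicalClosure
  have hVc : IsClosed (V : Set X) := Submodule.isClosed_topologicalClosure _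
  have hVi : ∀ S ∈ A, ∀ z ∈ V, S z ∈ V := by
    intro S hS z hz
    have hz' : z ∈ closure ((A.toSubmodule.map ev : Submodule ℂ X) : Set X) := hz
    have hm := map_mem_closure S.continuous hz' (t := ((A.toSubmodule.map ev : Submodule ℂ X) : Set X))
      (by
        rintro _ ⟨T, hT, rfl⟩
        exact ⟨S * T, A.mul_mem hS hT, rfl⟩)
    exact hm
  have hyV : y ∈ V := by
    refine Submodule.le_topologicalClosure _ ?_
    exact ⟨1, A.one_mem, rfl⟩
  rcases hA V hVc hVi with h | h
  · exact absurd ((Submodule.mem_bot ℂ).1 (h ▸ hyV)) hy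
  · have hx : x ∈ closure ((A.toSubmodule.map ev : Submodule ℂ X) : Set X) := by
      have : x ∈ V := h ▸ Submodule.mem_top
      exact this
    obtain ⟨_, ⟨S, hS, rfl⟩, hd⟩ := Metric.mem_closure_iff.1 hx ε hε
    refine ⟨S, hS, ?_⟩
    rw [dist_comm, dist_eq_norm] at hd
    exact hd

/-- **Lomonosov's lemma.** -/
theorem lomonosov {A : Subalgebra ℂ (X →L[ℂ] X)} (hA : Trans A) {K : X →L[ℂ] X}
    (hK : IsCompactOperator K) (hK0 : K ≠ 0) : ∃ S ∈ A, ∃ v : X, v ≠ 0 ∧ S (K v) = v := by
  classical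
  obtain ⟨x0, hx0⟩ : ∃ x0, ‖K‖ < ‖K x0‖ := by
    obtain ⟨x, hx⟩ : ∃ x, K x ≠ 0 := by
      by_contra hcon
      push Not at hcon
      exact hK0 (ContinuousLinearMap.ext hcon)
    have hpos : 0 < ‖K x‖ := norm_pos_iff.2 hx
    refine ⟨(((‖K‖ + 1) / ‖K x‖ : ℝ) : ℂ) • x, ?_⟩
    rw [map_smul, norm_smul, Complex.norm_real, Real.norm_of_nonneg (by positivity),
      div_mul_cancel₀ _ hpos.ne']
    linarith
  let Q : Set X := closure (K '' closedBall x0 1)
  have hQc : IsCompact Q := by
    have h1 := hK.isCompact_closure_image_closedBall (‖x0‖ + 1)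
    refine h1.of_isClosed_subset isClosed_closure (closure_mono (image_mono ?_))
    intro x hx
    rw [mem_closedBall, dist_eq_norm] at hx
    rw [mem_closedBall, dist_eq_norm, sub_zero]
    have := norm_add_le (x - x0) x0
    rw [sub_add_cancel] at this
    linarith
  have hQ0 : ∀ y ∈ Q, y ≠ 0 := by
    intro y hy h0
    have h1 : Q ⊆ closedBall (K x0) ‖K‖ := by
      refine closure_minimal ?_ isClosed_closedBall
      rintro _ ⟨x, hx, rfl⟩
      rw [mem_closedBall, dist_eq_norm, ← map_sub]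
      rw [mem_closedBall, dist_eq_norm] at hx
      refine (K.le_opNorm _).trans ?_
      nlinarith [norm_nonneg K]
    have h2 := h1 hy
    rw [h0, mem_closedBall, dist_eq_norm, zero_sub, norm_neg] at h2
    linarith
  have hQv : Convex ℝ Q := by
    refine Convex.closure ?_
    have := (convex_closedBall x0 1).is_linear_image (f := K) ?_
    · exact this
    · exact (K.restrictScalars ℝ).toLinearMap.isLinear
  have hQn : Q.Nonempty := ⟨K x0, subset_closure ⟨x0, mem_closedBall_self zero_le_one, rfl⟩⟩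
  obtain ⟨t, ht⟩ := hQc.elim_finite_subcover (fun S : A => {y : X | ‖(S : X →L[ℂ] X) y - x0‖ < 1})
    (fun S => by
      refine isOpen_lt ?_ continuous_const
      exact ((S : X →L[ℂ] X).continuous.sub continuous_const).norm)
    (fun y hy => by
      obtain ⟨S, hS, hSy⟩ := hA.dense (hQ0 y hy) x0 one_pos
      rw [mem_iUnion]
      exact ⟨⟨S, hS⟩, hSy⟩)
  let α : A → X → ℝ := fun S y => max 0 (1 - ‖(S : X →L[ℂ] X) y - x0‖)
  have hα0 : ∀ S y, 0 ≤ α S y := fun S y => le_max_left _ _
  have hαc : ∀ S, Continuous (α S) := by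
    intro S
    refine continuous_const.max (continuous_const.sub ?_)
    exact ((S : X →L[ℂ] X).continuous.sub continuous_const).norm
  let σ : X → ℝ := fun y => ∑ S ∈ t, α S y
  have hσc : Continuous σ := continuous_finsetSum _ fun S _ => hαc S
  have hσ : ∀ y ∈ Q, 0 < σ y := by
    intro y hy
    have := ht hy
    simp only [mem_iUnion] at this
    obtain ⟨S, hSt, hS⟩ := this
    refine Finset.sum_pos' (fun S _ => hα0 S y) ⟨S, hSt, ?_⟩
    have hS' : ‖(S : X →L[ℂ] X) y - x0‖ < 1 := hS
    exact lt_max_of_lt_right (by linarith)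
  let Φ : X → X := fun y => ∑ S ∈ t, (α S y / σ y) • (S : X →L[ℂ] X) y
  have hΦc : ContinuousOn Φ Q := by
    refine continuousOn_finsetSum _ fun S _ => ?_
    have hw : ContinuousOn (fun y => α S y / σ y) Q :=
      (hαc S).continuousOn.div hσc.continuousOn fun y hy => (hσ y hy).ne'
    exact hw.smul (S : X →L[ℂ] X).continuous.continuousOn
  have hΦB : ∀ y ∈ Q, Φ y ∈ closedBall x0 1 := by
    intro y hy
    have hs1 : ∑ S ∈ t, α S y / σ y = 1 := by
      rw [← Finset.sum_div]
      exact div_self (hσ y hy).ne'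
    have key : Φ y - x0 = ∑ S ∈ t, (α S y / σ y) • ((S : X →L[ℂ] X) y - x0) := by
      simp only [Φ, smul_sub, Finset.sum_sub_distrib]
      rw [← Finset.sum_smul, hs1, one_smul]
    rw [mem_closedBall, dist_eq_norm, key]
    calc ‖∑ S ∈ t, (α S y / σ y) • ((S : X →L[ℂ] X) y - x0)‖
        ≤ ∑ S ∈ t, ‖(α S y / σ y) • ((S : X →L[ℂ] X) y - x0)‖ := norm_sum_le _ _
      _ ≤ ∑ S ∈ t, α S y / σ y := by
          refine Finset.sum_le_sum fun S _ => ?_
          have hw : 0 ≤ α S y / σ y := div_nonneg (hα0 S y) (hσ y hy).le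
          rw [norm_smul, Real.norm_of_nonneg hw]
          rcases lt_or_ge ‖(S : X →L[ℂ] X) y - x0‖ 1 with h | h
          · nlinarith
          · have : α S y = 0 := max_eq_left (by linarith)
            rw [this]
            simp
      _ = 1 := hs1
  obtain ⟨y, hy, hfix⟩ := Pool.Agent.W143.DQ.schauder hQc hQv hQn (fun y => K (Φ y))
    (K.continuous.comp_continuousOn hΦc) (fun y hy => subset_closure ⟨Φ y, hΦB y hy, rfl⟩)
  let S0 : X →L[ℂ] X := ∑ S ∈ t, ((α S y / σ y : ℝ) : ℂ) • (S : X →L[ℂ] X)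
  have hS0 : S0 ∈ A := A.sum_mem fun S _ => A.smul_mem S.2 _
  have hS0y : S0 y = Φ y := by
    simp only [S0, Φ, sum_apply, smul_apply]
    refine Finset.sum_congr rfl fun S _ => ?_
    rw [Complex.coe_smul]
  have hfix' : K (Φ y) = y := hfix
  refine ⟨S0, hS0, Φ y, ?_, ?_⟩
  · intro h0
    rw [h0, map_zero] at hfix'
    exact hQ0 y hy hfix'.symm
  · rw [hfix', hS0y]

end Pool.Agent.J6H99.CS
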