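import Mathlib

/-!
The Riesz decomposition of a compact operator with an eigenvalue of modulus at least one.
-/

set_option autoImplicit false

open Filter Topology Metric Set Module.End

namespace Pool.Agent.J6H99.CS

/-- Powers and the spectral radius. -/
theorem pow_bound {B : Type*} [NormedRing B] [NormedAlgebra ℂ B] [CompleteSpace B] [Nontrivial B]
    (a : B) {r : ℝ} (hr : 0 < r) (h : ∀ c ∈ spectrum ℂ a, ‖c‖ < r) :
    ∃ C : ℝ, 0 < C ∧ ∀ n : ℕ, ‖a ^ n‖ ≤ C * r ^ n := by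
  have h1 : spectralRadius ℂ a < ENNReal.ofReal r := by
    obtain ⟨k, hk, hk'⟩ := spectrum.exists_nnnorm_eq_spectralRadius a
    rw [← hk']
    have := h k hk
    rw [ENNReal.lt_ofReal_iff_toReal_lt ENNReal.coe_ne_top]
    simpa using this
  have h2 := (spectrum.pow_nnnorm_pow_one_div_tendsto_nhds_spectralRadius a).eventually_lt_const h1
  obtain ⟨N, hN⟩ := eventually_atTop.1 h2
  have h3 : ∀ n, N + 1 ≤ n → ‖a ^ n‖ ≤ r ^ n := by
    intro n hn
    have hn0 : n ≠ 0 := by omega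
    have h4 := (hN n (by omega)).le
    have h5 : (‖a ^ n‖₊ : ENNReal) ≤ (ENNReal.ofReal r) ^ n := by
      have h6 := ENNReal.rpow_le_rpow h4 (z := (n : ℝ)) (by positivity)
      rw [← ENNReal.rpow_mul, one_div, inv_mul_cancel₀ (by exact_mod_cast hn0), ENNReal.rpow_one,
        ENNReal.rpow_natCast] at h6
      exact h6
    rw [← ENNReal.ofReal_pow hr.le] at h5
    have h7 : ENNReal.ofReal ‖a ^ n‖ = (‖a ^ n‖₊ : ENNReal) := ofReal_norm (a ^ n)
    rw [← h7] at h5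
    exact (ENNReal.ofReal_le_ofReal_iff (by positivity)).1 h5
  let C : ℝ := 1 + ∑ n ∈ Finset.range (N + 1), ‖a ^ n‖ / r ^ n
  have hC0 : ∀ n, 0 ≤ ‖a ^ n‖ / r ^ n := fun n => by positivity
  have hC1 : 1 ≤ C := by
    have : 0 ≤ ∑ n ∈ Finset.range (N + 1), ‖a ^ n‖ / r ^ n := Finset.sum_nonneg fun n _ => hC0 n
    simp only [C]
    linarith
  refine ⟨C, by linarith, fun n => ?_⟩
  have hrn : 0 < r ^ n := pow_pos hr n
  rcases lt_or_ge n (N + 1) with hn | hn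
  · have h8 : ‖a ^ n‖ / r ^ n ≤ C := by
      have := Finset.single_le_sum (fun m _ => hC0 m) (Finset.mem_range.2 hn)
      simp only [C]
      linarith
    rwa [div_le_iff₀ hrn] at h8
  · refine (h3 n hn).trans ?_
    nlinarith

variable {X : Type*} [NormedAddCommGroup X] [NormedSpace ℂ X]

/-- An invariant finite dimensional subspace on which all eigenvalues have modulus at least one. -/
structure Good (M : X →L[ℂ] X) (E : Submodule ℂ X) : Prop where
  fin : FiniteDimensional ℂ E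
  inv : ∀ x ∈ E, M x ∈ E
  eig : ∀ x ∈ E, ∀ c : ℂ, x ≠ 0 → M x = c • x → 1 ≤ ‖c‖

theorem Good.closed {M : X →L[ℂ] X} {E : Submodule ℂ X} (h : Good M E) : IsClosed (E : Set X) := by
  have := h.fin
  exact Submodule.closed_of_finiteDimensional E

theorem Good.sup {M : X →L[ℂ] X} {E : Submodule ℂ X} (h : Good M E) {x : X} {c : ℂ} (hx : x ∉ E)
    (hc : 1 ≤ ‖c‖) (hxc : M x - c • x ∈ E) : Good M (E ⊔ Submodule.span ℂ {x}) := by
  have hf := h.fin
  refine ⟨inferInstance, ?_, ?_⟩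
  · intro z hz
    obtain ⟨e, he, w, hw, rfl⟩ := Submodule.mem_sup.1 hz
    obtain ⟨a, rfl⟩ := Submodule.mem_span_singleton.1 hw
    have h1 : M (e + a • x) = (M e + a • (M x - c • x)) + (a * c) • x := by
      rw [map_add, map_smul, smul_sub, smul_smul]
      abel
    rw [h1]
    refine Submodule.add_mem _ (Submodule.mem_sup_left ?_) (Submodule.mem_sup_right ?_)
    · exact E.add_mem (h.inv e he) (E.smul_mem _ hxc)
    · exact Submodule.smul_mem _ _ (Submodule.mem_span_singleton_self x)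
  · intro z hz μ hz0 hμ
    obtain ⟨e, he, w, hw, rfl⟩ := Submodule.mem_sup.1 hz
    obtain ⟨a, rfl⟩ := Submodule.mem_span_singleton.1 hw
    by_cases ha : a = 0
    · subst ha
      rw [zero_smul, add_zero] at hμ hz0
      exact h.eig e he μ hz0 hμ
    · have h1 : (a * (μ - c)) • x = (M e - μ • e) + a • (M x - c • x) := by
        rw [map_add, map_smul, smul_add, smul_smul] at hμ
        have h2 : M e + a • M x - μ • e - (μ * a) • x = 0 := by
          rw [hμ]; abel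
        rw [smul_sub, smul_smul, mul_sub, sub_smul, mul_comm a μ]
        have h3 : (μ * a) • x = M e + a • M x - μ • e := by
          rw [eq_comm, ← sub_eq_zero, ← h2]
        rw [h3]
        abel
      have h4 : (a * (μ - c)) • x ∈ E := by
        rw [h1]
        exact E.add_mem (E.sub_mem (h.inv e he) (E.smul_mem _ he)) (E.smul_mem _ hxc)
      by_cases hμc : μ - c = 0
      · rw [sub_eq_zero.1 hμc]; exact hc
      · exact absurd ((Submodule.smul_mem_iff E (mul_ne_zero ha hμc)).1 h4) hx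

/-- A vector of norm one at distance at least `1 / 2`. -/
theorem Good.vec {M : X →L[ℂ] X} {E : Submodule ℂ X} (h : Good M E) {x : X} {c : ℂ} (hx : x ∉ E)
    (hxc : M x - c • x ∈ E) : ∃ y : X, ‖y‖ = 1 ∧ (∀ f ∈ E, 1 / 2 ≤ ‖y - f‖) ∧ M y - c • y ∈ E ∧
      y ∈ E ⊔ Submodule.span ℂ {x} := by
  have hne : (E : Set X).Nonempty := ⟨0, E.zero_mem⟩
  have hd : 0 < infDist x (E : Set X) := (h.closed.notMem_iff_infDist_pos hne).1 hx
  obtain ⟨e, he, hde⟩ := (infDist_lt_iff hne (x := x) (r := 2 * infDist x (E : Set X))).1 (by linarith)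
  rw [dist_eq_norm] at hde
  have hpos : 0 < ‖x - e‖ := by
    rw [norm_pos_iff, sub_ne_zero]
    rintro rfl
    exact hx he
  have hn0 : (‖x - e‖ : ℂ) ≠ 0 := by exact_mod_cast hpos.ne'
  refine ⟨((‖x - e‖ : ℂ)⁻¹) • (x - e), ?_, ?_, ?_, ?_⟩
  · rw [norm_smul, norm_inv, Complex.norm_real, norm_norm, inv_mul_cancel₀ hpos.ne']
  · intro f hf
    have h1 : ((‖x - e‖ : ℂ)⁻¹) • (x - e) - f
        = ((‖x - e‖ : ℂ)⁻¹) • (x - (e + (‖x - e‖ : ℂ) • f)) := by
      rw [smul_sub, smul_sub, smul_add, smul_smul, inv_mul_cancel₀ hn0, one_smul]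
      abel
    rw [h1, norm_smul, norm_inv, Complex.norm_real, norm_norm]
    have h2 : infDist x (E : Set X) ≤ ‖x - (e + (‖x - e‖ : ℂ) • f)‖ := by
      have := infDist_le_dist_of_mem (x := x) (s := (E : Set X))
        (E.add_mem he (E.smul_mem (‖x - e‖ : ℂ) hf))
      rwa [dist_eq_norm] at this
    rw [inv_mul_eq_div, le_div_iff₀ hpos]
    linarith
  · have h1 : M (((‖x - e‖ : ℂ)⁻¹) • (x - e)) - c • (((‖x - e‖ : ℂ)⁻¹) • (x - e))
        = ((‖x - e‖ : ℂ)⁻¹) • ((M x - c • x) - (M e - c • e)) := by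
      rw [map_smul, map_sub, smul_comm c, ← smul_sub, smul_sub c]
      congr 1
      abel
    rw [h1]
    exact E.smul_mem _ (E.sub_mem hxc (E.sub_mem (h.inv e he) (E.smul_mem _ he)))
  · refine Submodule.smul_mem _ _ (Submodule.sub_mem _ ?_ ?_)
    · exact Submodule.mem_sup_right (Submodule.mem_span_singleton_self x)
    · exact Submodule.mem_sup_left he

/-- There is a maximal good subspace. -/
theorem exists_max {M : X →L[ℂ] X} (hM : IsCompactOperator M) {v : X} (hMv : M v = v) :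
    ∃ E : Submodule ℂ X, Good M E ∧ v ∈ E ∧
      ∀ x, x ∉ E → ∀ c : ℂ, 1 ≤ ‖c‖ → M x - c • x ∉ E := by
  by_contra hcon
  have hstep : ∀ E : {E : Submodule ℂ X // Good M E ∧ v ∈ E}, ∃ (x : X) (c : ℂ), x ∉ E.1 ∧
      1 ≤ ‖c‖ ∧ M x - c • x ∈ E.1 := by
    intro E
    by_contra h
    refine hcon ⟨E.1, E.2.1, E.2.2, fun x hx c hc hm => h ⟨x, c, hx, hc, hm⟩⟩
  choose x c hx hc hxc using hstep
  have hv' : ∀ E : {E : Submodule ℂ X // Good M E ∧ v ∈ E}, ∃ y : X, ‖y‖ = 1 ∧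
      (∀ f ∈ E.1, 1 / 2 ≤ ‖y - f‖) ∧ M y - c E • y ∈ E.1 ∧ y ∈ E.1 ⊔ Submodule.span ℂ {x E} :=
    fun E => E.2.1.vec (hx E) (hxc E)
  choose y hy1 hy2 hy3 hy4 using hv'
  let nxt : {E : Submodule ℂ X // Good M E ∧ v ∈ E} → {E : Submodule ℂ X // Good M E ∧ v ∈ E} :=
    fun E => ⟨E.1 ⊔ Submodule.span ℂ {x E}, E.2.1.sup (hx E) (hc E) (hxc E),
      Submodule.mem_sup_left E.2.2⟩
  have hE0 : Good M (Submodule.span ℂ {v}) := by
    refine ⟨inferInstance, ?_, ?_⟩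
    · intro z hz
      obtain ⟨a, rfl⟩ := Submodule.mem_span_singleton.1 hz
      rw [map_smul, hMv]
      exact hz
    · intro z hz μ hz0 hμ
      obtain ⟨a, rfl⟩ := Submodule.mem_span_singleton.1 hz
      rw [map_smul, hMv] at hμ
      have h1 : (1 - μ) • (a • v) = 0 := by
        rw [sub_smul, one_smul, ← hμ, sub_self]
      rcases smul_eq_zero.1 h1 with h | h
      · rw [← sub_eq_zero.1 h, norm_one]
      · exact absurd h hz0
  let Es : ℕ → {E : Submodule ℂ X // Good M E ∧ v ∈ E} :=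
    fun n => nxt^[n] ⟨Submodule.span ℂ {v}, hE0, Submodule.mem_span_singleton_self v⟩
  have hsucc : ∀ n, (Es (n + 1)).1 = (Es n).1 ⊔ Submodule.span ℂ {x (Es n)} := by
    intro n
    simp only [Es, Function.iterate_succ_apply']
    rfl
  have hmono : Monotone fun n => (Es n).1 := by
    refine monotone_nat_of_le_succ fun n => ?_
    rw [hsucc]
    exact le_sup_left
  have hsep : ∀ m n, m < n → 1 / 2 ≤ ‖M (y (Es n)) - M (y (Es m))‖ := by
    intro m n hmn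
    have h1 : M (y (Es m)) ∈ (Es n).1 := by
      have h2 : y (Es m) ∈ (Es (m + 1)).1 := by
        rw [hsucc]; exact hy4 _
      exact (Es n).2.1.inv _ (hmono (Nat.succ_le_of_lt hmn) h2)
    have hcn : c (Es n) ≠ 0 := by
      intro h
      have := hc (Es n)
      rw [h, norm_zero] at this
      linarith
    have h3 : M (y (Es n)) - M (y (Es m)) = c (Es n) • (y (Es n)
        - (c (Es n))⁻¹ • (M (y (Es m)) - (M (y (Es n)) - c (Es n) • y (Es n)))) := by
      rw [smul_sub, smul_smul, mul_inv_cancel₀ hcn, one_smul]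
      abel
    rw [h3, norm_smul]
    have h4 := hy2 (Es n) ((c (Es n))⁻¹ • (M (y (Es m)) - (M (y (Es n)) - c (Es n) • y (Es n))))
      ((Es n).1.smul_mem _ ((Es n).1.sub_mem h1 (hy3 _)))
    have h5 := hc (Es n)
    nlinarith [norm_nonneg (y (Es n)
        - (c (Es n))⁻¹ • (M (y (Es m)) - (M (y (Es n)) - c (Es n) • y (Es n))))]
  have hcomp := hM.isCompact_closure_image_closedBall 1
  have hmem : ∀ n, M (y (Es n)) ∈ closure (M '' closedBall 0 1) := by
    intro n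
    refine subset_closure ⟨y (Es n), ?_, rfl⟩
    rw [mem_closedBall, dist_zero_right, hy1]
  obtain ⟨a, _, φ, hφ, hlim⟩ := hcomp.tendsto_subseq hmem
  have hcau := hlim.cauchySeq
  obtain ⟨N, hN⟩ := Metric.cauchySeq_iff.1 hcau (1 / 2) (by norm_num)
  have h1 := hN (N + 1) (by omega) N le_rfl
  rw [dist_eq_norm] at h1
  have h2 := hsep (φ N) (φ (N + 1)) (hφ (Nat.lt_succ_self N))
  simp only [Function.comp] at h1
  linarith

/-- The data of the Riesz decomposition: `P` is a projection of finite rank commuting with `M`,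
`J` is the inverse of `M` on the range of `P`, and `M` is smaller on the kernel of `P`. -/
structure Dec (M P J : X →L[ℂ] X) (A ρ₁ ρ₂ : ℝ) : Prop where
  ρ₂pos : 0 < ρ₂
  lt : ρ₂ < ρ₁
  Apos : 0 < A
  PP : P * P = P
  P0 : P ≠ 0
  PM : P * M = M * P
  MJ : M * J = P
  JM : J * M = P
  JP : J * P = J
  PJ : P * J = J
  fin : FiniteDimensional ℂ (LinearMap.range (P : X →ₗ[ℂ] X))
  bJ : ∀ n : ℕ, ‖J ^ (n + 1)‖ ≤ A * (ρ₁⁻¹) ^ (n + 1)
  bM : ∀ n : ℕ, ‖M ^ (n + 1) * (1 - P)‖ ≤ A * ρ₂ ^ (n + 1)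

/-- **Riesz decomposition.** -/
theorem exists_dec [CompleteSpace X] {M : X →L[ℂ] X} (hM : IsCompactOperator M) {v : X}
    (hv : v ≠ 0) (hMv : M v = v) : ∃ (P J : X →L[ℂ] X) (A ρ₁ ρ₂ : ℝ), Dec M P J A ρ₁ ρ₂ := by
  obtain ⟨E, hE, hvE, hmax⟩ := exists_max hM hMv
  have hfin := hE.fin
  have hXn : Nontrivial X := ⟨⟨v, 0, hv⟩⟩
  have hEn : Nontrivial E := ⟨⟨⟨v, hvE⟩, 0, fun h => hv (congrArg Subtype.val h)⟩⟩
  obtain ⟨f, hf⟩ := Submodule.ClosedComplemented.of_finiteDimensional (𝕜 := ℂ) E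
  let ι : E →L[ℂ] X := E.subtypeL
  let π : X →L[ℂ] X := ι ∘L f
  have hπE : ∀ x, π x ∈ E := fun x => (f x).2
  have hπ : ∀ x ∈ E, π x = x := by
    intro x hx
    have := hf ⟨x, hx⟩
    show ((f x : E) : X) = x
    have h2 : f x = ⟨x, hx⟩ := this
    rw [h2]
  have hππ : π * π = π := ContinuousLinearMap.ext fun x => hπ _ (hπE x)
  -- the part of `M` off `E`
  let N : X →L[ℂ] X := (1 - π) * M
  have hNc : IsCompactOperator N := by
    have h0 := hM.clm_comp (1 - π)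
    have h1 : (⇑N : X → X) = ⇑(1 - π) ∘ ⇑M := rfl
    rw [h1]
    exact h0
  have hNeig : ∀ c ∈ spectrum ℂ N, ‖c‖ < 1 := by
    intro c hc
    by_contra hc1
    push Not at hc1
    have hc0 : c ≠ 0 := by
      rintro rfl
      rw [norm_zero] at hc1
      linarith
    have h1 := (hNc.hasEigenvalue_iff_mem_spectrum hc0).2 hc
    obtain ⟨x, hx⟩ := h1.exists_hasEigenvector
    have hx0 : x ≠ 0 := hx.2
    have hx1 : N x = c • x := hx.apply_eq_smul
    have hπx : π x = 0 := by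
      have h2 : π (N x) = 0 := by
        show π (M x - π (M x)) = 0
        rw [map_sub, hπ _ (hπE _), sub_self]
      rw [hx1, map_smul] at h2
      exact (smul_eq_zero.1 h2).resolve_left hc0
    have hxE : x ∉ E := by
      intro hxE
      rw [hπ x hxE] at hπx
      exact hx0 hπx
    refine hmax x hxE c hc1 ?_
    have h3 : M x - c • x = π (M x) := by
      rw [← hx1]
      show M x - (M x - π (M x)) = _
      abel
    rw [h3]
    exact hπE _
  obtain ⟨ρ₂, hρ₂, hρ₂1, hNρ⟩ : ∃ ρ₂ : ℝ, 0 < ρ₂ ∧ ρ₂ < 1 ∧ ∀ c ∈ spectrum ℂ N, ‖c‖ < ρ₂ := by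
    have hcs : IsCompact (spectrum ℂ N) := spectrum.isCompact N
    obtain ⟨k, hk, hkm⟩ := hcs.exists_isMaxOn (spectrum.nonempty N) continuous_norm.continuousOn
    have hk1 := hNeig k hk
    refine ⟨(‖k‖ + 1) / 2, by positivity, by linarith, fun c hc => ?_⟩
    have : ‖c‖ ≤ ‖k‖ := hkm hc
    linarith
  obtain ⟨CN, hCN, hN⟩ := pow_bound N hρ₂ hNρ
  -- the part of `M` on `E`
  let G : E →L[ℂ] E := f ∘L M ∘L ι
  have hG : ∀ e : E, ((G e : E) : X) = M e := fun e => hπ _ (hE.inv _ e.2)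
  have hGinj : Function.Injective G := by
    rw [injective_iff_map_eq_zero]
    intro e he
    by_contra h0
    have h1 : M (e : X) = (0 : ℂ) • (e : X) := by
      rw [← hG, he, zero_smul]
      rfl
    have h2 := hE.eig e e.2 0 (fun h => h0 (Subtype.ext h)) h1
    rw [norm_zero] at h2
    linarith
  let Ge : E ≃ₗ[ℂ] E := LinearEquiv.ofInjectiveEndo (G : E →ₗ[ℂ] E) hGinj
  let Gc : E ≃L[ℂ] E := Ge.toContinuousLinearEquiv
  let H : E →L[ℂ] E := (Gc.symm : E →L[ℂ] E)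
  have hGH : ∀ e, G (H e) = e := fun e => Gc.apply_symm_apply e
  have hHG : ∀ e, H (G e) = e := fun e => Gc.symm_apply_apply e
  have hHc : IsCompactOperator H := by
    have : ProperSpace E := FiniteDimensional.proper ℂ E
    exact isCompactOperator_of_locallyCompactSpace_dom H
  have hHs : ∀ c ∈ spectrum ℂ H, ‖c‖ ≤ 1 := by
    intro c hc
    by_cases hc0 : c = 0
    · rw [hc0, norm_zero]; exact zero_le_one
    have h1 := (hHc.hasEigenvalue_iff_mem_spectrum hc0).2 hc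
    obtain ⟨x, hx⟩ := h1.exists_hasEigenvector
    have hx0 : x ≠ 0 := hx.2
    have hx1 : H x = c • x := hx.apply_eq_smul
    have h2 : G x = c⁻¹ • x := by
      have h3 : G (H x) = x := hGH x
      rw [hx1, map_smul] at h3
      rw [← h3, smul_smul, inv_mul_cancel₀ hc0, one_smul, h3]
    have h4 := hE.eig x x.2 c⁻¹ (fun h => hx0 (Subtype.ext h)) (by
      rw [← hG, h2]; rfl)
    rw [norm_inv] at h4
    have h5 : 0 < ‖c‖ := norm_pos_iff.2 hc0
    exact (one_le_inv₀ h5).1 h4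
  let ρ₁ : ℝ := (ρ₂ + 1) / 2
  have hρ₁ : 0 < ρ₁ := by simp only [ρ₁]; positivity
  have hρ₁1 : ρ₁ < 1 := by simp only [ρ₁]; linarith
  have hρ₂₁ : ρ₂ < ρ₁ := by simp only [ρ₁]; linarith
  obtain ⟨CH, hCH, hH⟩ := pow_bound H (inv_pos.2 hρ₁) (fun c hc =>
    lt_of_le_of_lt (hHs c hc) ((one_lt_inv₀ hρ₁).2 hρ₁1))
  -- the operator `J₀`
  let J₀ : X →L[ℂ] X := ι ∘L H ∘L f
  have hfι : ∀ e : E, f (ι e) = e := hf
  have hJpow : ∀ n : ℕ, J₀ ^ (n + 1) = ι ∘L (H ^ (n + 1)) ∘L f := by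
    intro n
    induction n with
    | zero => rw [zero_add, pow_one, pow_one]
    | succ n ih =>
      rw [pow_succ', ih]
      ext x
      show ((H (f (ι ((H ^ (n + 1)) (f x)))) : E) : X) = (((H ^ (n + 1 + 1)) (f x) : E) : X)
      rw [hfι, pow_succ' H (n + 1)]
      rfl
  obtain ⟨B, hB0, hJb⟩ : ∃ B : ℝ, 0 < B ∧ ∀ n : ℕ, ‖J₀ ^ (n + 1)‖ ≤ B * (ρ₁⁻¹) ^ (n + 1) := by
    refine ⟨(‖ι‖ + 1) * CH * (‖f‖ + 1), by positivity, fun n => ?_⟩
    rw [hJpow]
    refine (ContinuousLinearMap.opNorm_comp_le _ _).trans ?_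
    have h1 : ‖(H ^ (n + 1)) ∘L f‖ ≤ (CH * (ρ₁⁻¹) ^ (n + 1)) * ‖f‖ :=
      (ContinuousLinearMap.opNorm_comp_le _ _).trans
        (mul_le_mul_of_nonneg_right (hH (n + 1)) (norm_nonneg _))
    have h2 : 0 ≤ CH * (ρ₁⁻¹) ^ (n + 1) := by positivity
    have h3 : (CH * (ρ₁⁻¹) ^ (n + 1)) * ‖f‖ ≤ (CH * (ρ₁⁻¹) ^ (n + 1)) * (‖f‖ + 1) :=
      mul_le_mul_of_nonneg_left (le_add_of_nonneg_right zero_le_one) h2
    have h4 : 0 ≤ (CH * (ρ₁⁻¹) ^ (n + 1)) * (‖f‖ + 1) := by positivity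
    have h5 : ‖ι‖ * ‖(H ^ (n + 1)) ∘L f‖ ≤ ‖ι‖ * ((CH * (ρ₁⁻¹) ^ (n + 1)) * (‖f‖ + 1)) :=
      mul_le_mul_of_nonneg_left (h1.trans h3) (norm_nonneg ι)
    have h6 : ‖ι‖ * ((CH * (ρ₁⁻¹) ^ (n + 1)) * (‖f‖ + 1)) ≤
        (‖ι‖ + 1) * ((CH * (ρ₁⁻¹) ^ (n + 1)) * (‖f‖ + 1)) :=
      mul_le_mul_of_nonneg_right (le_add_of_nonneg_right zero_le_one) h4
    refine (h5.trans h6).trans (le_of_eq ?_)
    ring
  have hπJ : π * J₀ = J₀ := ContinuousLinearMap.ext fun x => hπ _ (H (f x)).2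
  have hMJ₀ : M * J₀ = π := by
    ext x
    show M ((H (f x) : E) : X) = ((f x : E) : X)
    rw [← hG, hGH]
  have hJMe : ∀ x ∈ E, J₀ (M x) = x := by
    intro x hx
    show ((H (f (M x)) : E) : X) = x
    have h1 : f (M x) = G ⟨x, hx⟩ := rfl
    rw [h1, hHG]
  have hJMπ : J₀ * M * π = π := ContinuousLinearMap.ext fun x => hJMe _ (hπE x)
  have hMpowE : ∀ n : ℕ, ∀ x ∈ E, (M ^ n) x ∈ E := by
    intro n
    induction n with
    | zero => intro x hx; exact hx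
    | succ n ih =>
      intro x hx
      rw [pow_succ]
      exact ih _ (hE.inv x hx)
  have hπM : ∀ n : ℕ, (1 - π) * M ^ n * π = 0 := by
    intro n
    ext x
    show (M ^ n) (π x) - π ((M ^ n) (π x)) = 0
    rw [hπ _ (hMpowE n _ (hπE x)), sub_self]
  have hNpow : ∀ n : ℕ, N ^ (n + 1) = (1 - π) * M ^ (n + 1) := by
    intro n
    induction n with
    | zero => rw [zero_add, pow_one, pow_one]
    | succ n ih =>
      rw [pow_succ, ih]
      have h1 := hπM (n + 1)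
      calc (1 - π) * M ^ (n + 1) * ((1 - π) * M)
          = (1 - π) * (M ^ (n + 1) * M) - ((1 - π) * M ^ (n + 1) * π) * M := by noncomm_ring
        _ = (1 - π) * M ^ (n + 1 + 1) := by rw [h1, zero_mul, sub_zero, ← pow_succ]
  -- the limit
  let Pn : ℕ → X →L[ℂ] X := fun n => J₀ ^ (n + 1) * M ^ (n + 1)
  have hdiff : ∀ n, Pn (n + 1) - Pn n = J₀ ^ (n + 1) * (J₀ * M - 1) * N ^ (n + 1) := by
    intro n
    rw [hNpow]
    have h1 : (J₀ * M - 1) * π = 0 := by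
      rw [sub_mul, hJMπ, one_mul, sub_self]
    calc Pn (n + 1) - Pn n = J₀ ^ (n + 1) * (J₀ * M - 1) * M ^ (n + 1) := by
          simp only [Pn]
          rw [pow_succ J₀ (n + 1), pow_succ' M (n + 1)]
          noncomm_ring
      _ = J₀ ^ (n + 1) * (J₀ * M - 1) * ((1 - π) * M ^ (n + 1))
          + J₀ ^ (n + 1) * ((J₀ * M - 1) * π) * M ^ (n + 1) := by noncomm_ring
      _ = J₀ ^ (n + 1) * (J₀ * M - 1) * ((1 - π) * M ^ (n + 1)) := by
          rw [h1, mul_zero, zero_mul, add_zero]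
  have hgeo : ∀ n, dist (Pn n) (Pn (n + 1)) ≤
      (B * ‖J₀ * M - 1‖ * CN * (ρ₁⁻¹ * ρ₂)) * (ρ₁⁻¹ * ρ₂) ^ n := by
    intro n
    rw [dist_comm, dist_eq_norm, hdiff]
    calc ‖J₀ ^ (n + 1) * (J₀ * M - 1) * N ^ (n + 1)‖
        ≤ ‖J₀ ^ (n + 1)‖ * ‖J₀ * M - 1‖ * ‖N ^ (n + 1)‖ :=
          (norm_mul_le _ _).trans (mul_le_mul_of_nonneg_right (norm_mul_le _ _) (norm_nonneg _))
      _ ≤ (B * (ρ₁⁻¹) ^ (n + 1)) * ‖J₀ * M - 1‖ * (CN * ρ₂ ^ (n + 1)) := by
          refine mul_le_mul (mul_le_mul_of_nonneg_right (hJb n) (norm_nonneg _)) (hN _)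
            (norm_nonneg _) (by positivity)
      _ = (B * ‖J₀ * M - 1‖ * CN * (ρ₁⁻¹ * ρ₂)) * (ρ₁⁻¹ * ρ₂) ^ n := by
          rw [mul_pow, pow_succ, pow_succ]; ring
  have hq : ρ₁⁻¹ * ρ₂ < 1 := by
    rw [inv_mul_eq_div, div_lt_one hρ₁]; exact hρ₂₁
  obtain ⟨P, hP⟩ := cauchySeq_tendsto_of_complete (cauchySeq_of_le_geometric _ _ hq hgeo)
  have hJpe : ∀ n : ℕ, ∀ x ∈ E, (J₀ ^ n) ((M ^ n) x) = x := by
    intro n
    induction n with
    | zero => intro x _; rfl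
    | succ n ih =>
      intro x hx
      rw [pow_succ J₀, pow_succ' M]
      show (J₀ ^ n) (J₀ (M ((M ^ n) x))) = x
      rw [hJMe _ (hMpowE n x hx), ih x hx]
  have hPπ : P * π = π := by
    refine tendsto_nhds_unique (hP.mul_const π) ?_
    refine tendsto_const_nhds.congr fun n => ?_
    ext x
    exact (hJpe (n + 1) _ (hπE x)).symm
  have hπP : π * P = P := by
    refine tendsto_nhds_unique (hP.const_mul π) ?_
    refine hP.congr fun n => ?_
    simp only [Pn]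
    rw [pow_succ' J₀, ← mul_assoc, ← mul_assoc, hπJ]
  have hPP : P * P = P := by
    calc P * P = P * (π * P) := by rw [hπP]
      _ = P := by rw [← mul_assoc, hPπ, hπP]
  have hPM : P * M = M * P := by
    refine tendsto_nhds_unique (hP.mul_const M) ?_
    have h1 : Tendsto (fun n => M * Pn (n + 1)) atTop (𝓝 (M * P)) :=
      (hP.comp (tendsto_add_atTop_nat 1)).const_mul M
    refine h1.congr fun n => ?_
    simp only [Pn]
    rw [pow_succ' J₀ (n + 1), pow_succ M (n + 1)]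
    calc M * (J₀ * J₀ ^ (n + 1) * (M ^ (n + 1) * M))
        = (M * J₀) * J₀ ^ (n + 1) * M ^ (n + 1) * M := by noncomm_ring
      _ = (π * J₀ ^ (n + 1)) * M ^ (n + 1) * M := by rw [hMJ₀]
      _ = J₀ ^ (n + 1) * M ^ (n + 1) * M := by rw [pow_succ' J₀, ← mul_assoc π, hπJ]
  have hPJ₀ : P * J₀ = J₀ := by
    calc P * J₀ = P * (π * J₀) := by rw [hπJ]
      _ = J₀ := by rw [← mul_assoc, hPπ, hπJ]
  have hPe : ∀ x ∈ E, P x = x := by
    intro x hx
    have : (P * π) x = π x := by rw [hPπ]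
    have h2 : P (π x) = π x := this
    rwa [hπ x hx] at h2
  let J : X →L[ℂ] X := J₀ * P
  have hMJ : M * J = P := by
    simp only [J]
    rw [← mul_assoc, hMJ₀, hπP]
  have hJM : J * M = P := by
    simp only [J]
    calc J₀ * P * M = J₀ * M * P := by rw [mul_assoc, hPM, mul_assoc]
      _ = J₀ * M * (π * P) := by rw [hπP]
      _ = (J₀ * M * π) * P := by noncomm_ring
      _ = P := by rw [hJMπ, hπP]
  have hJP : J * P = J := by
    simp only [J]
    rw [mul_assoc, hPP]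
  have hPJ : P * J = J := by
    simp only [J]
    rw [← mul_assoc, hPJ₀]
  have hJn : ∀ n : ℕ, J ^ (n + 1) = J₀ ^ (n + 1) * P := by
    intro n
    induction n with
    | zero => rw [zero_add, pow_one, pow_one]
    | succ n ih =>
      rw [pow_succ', ih, pow_succ' J₀ (n + 1)]
      simp only [J]
      calc J₀ * P * (J₀ ^ (n + 1) * P) = J₀ * (P * J₀ ^ (n + 1)) * P := by noncomm_ring
        _ = J₀ * J₀ ^ (n + 1) * P := by rw [pow_succ' J₀ n, ← mul_assoc P, hPJ₀]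
  have hQπ : (1 - P) * π = 0 := by rw [sub_mul, one_mul, hPπ, sub_self]
  have hMQ : ∀ n : ℕ, M ^ (n + 1) * (1 - P) = (1 - P) * N ^ (n + 1) := by
    intro n
    have hcm : Commute M P := hPM.symm
    have h1 : M ^ (n + 1) * P = P * M ^ (n + 1) := (hcm.pow_left (n + 1)).eq
    rw [hNpow]
    calc M ^ (n + 1) * (1 - P) = (1 - P) * M ^ (n + 1) := by
          rw [mul_sub, mul_one, h1, sub_mul, one_mul]
      _ = (1 - P) * ((1 - π) * M ^ (n + 1)) + ((1 - P) * π) * M ^ (n + 1) := by noncomm_ring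
      _ = (1 - P) * ((1 - π) * M ^ (n + 1)) := by rw [hQπ, zero_mul, add_zero]
  refine ⟨P, J, B * (‖P‖ + 1) + (‖1 - P‖ + 1) * CN, ρ₁, ρ₂, ⟨hρ₂, hρ₂₁, by positivity, hPP, ?_, hPM,
    hMJ, hJM, hJP, hPJ, ?_, ?_, ?_⟩⟩
  · intro h0
    have := hPe v hvE
    rw [h0] at this
    exact hv this.symm
  · have h1 : LinearMap.range (P : X →ₗ[ℂ] X) ≤ E := by
      rintro _ ⟨x, rfl⟩
      have h2 : (π * P) x = P x := by rw [hπP]
      show P x ∈ E
      rw [← h2]
      exact hπE _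
    exact Submodule.finiteDimensional_of_le h1
  · intro n
    rw [hJn]
    have h0 : 0 ≤ (ρ₁⁻¹) ^ (n + 1) := by positivity
    calc ‖J₀ ^ (n + 1) * P‖ ≤ ‖J₀ ^ (n + 1)‖ * ‖P‖ := norm_mul_le _ _
      _ ≤ (B * (ρ₁⁻¹) ^ (n + 1)) * ‖P‖ := mul_le_mul_of_nonneg_right (hJb n) (norm_nonneg _)
      _ = (B * ‖P‖) * (ρ₁⁻¹) ^ (n + 1) := by ring
      _ ≤ (B * (‖P‖ + 1) + (‖1 - P‖ + 1) * CN) * (ρ₁⁻¹) ^ (n + 1) := by
          refine mul_le_mul_of_nonneg_right ?_ h0
          have h1 : 0 ≤ (‖1 - P‖ + 1) * CN := by positivity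
          nlinarith [norm_nonneg P]
  · intro n
    rw [hMQ]
    have h0 : 0 ≤ ρ₂ ^ (n + 1) := by positivity
    calc ‖(1 - P) * N ^ (n + 1)‖ ≤ ‖1 - P‖ * ‖N ^ (n + 1)‖ := norm_mul_le _ _
      _ ≤ ‖1 - P‖ * (CN * ρ₂ ^ (n + 1)) := mul_le_mul_of_nonneg_left (hN _) (norm_nonneg _)
      _ = (‖1 - P‖ * CN) * ρ₂ ^ (n + 1) := by ring
      _ ≤ (B * (‖P‖ + 1) + (‖1 - P‖ + 1) * CN) * ρ₂ ^ (n + 1) := by
          refine mul_le_mul_of_nonneg_right ?_ h0
          have h1 : 0 ≤ B * (‖P‖ + 1) := by positivity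
          nlinarith [norm_nonneg (1 - P)]

end Pool.Agent.J6H99.CS
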