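import Mathlib
import Pool.Agent.J6H99.CS.Lom
import Pool.Agent.J6H99.CS.Riesz

/-!
Intertwining relations for the powers of a compact operator and its Riesz decomposition.
-/

set_option autoImplicit false

open Filter Topology Metric Set

namespace Pool.Agent.J6H99.CS

variable {X : Type*} [NormedAddCommGroup X] [NormedSpace ℂ X]

/-! ### Operators commuting with a transitive algebra -/

theorem Trans.ker {A : Subalgebra ℂ (X →L[ℂ] X)} (hA : Trans A) {C : X →L[ℂ] X}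
    (hC : ∀ S ∈ A, S * C = C * S) (h0 : C ≠ 0) : ∀ x, C x = 0 → x = 0 := by
  have h1 := hA (LinearMap.ker (C : X →ₗ[ℂ] X)) C.isClosed_ker (by
    intro S hS x hx
    have hx' : C x = 0 := hx
    have h2 : (C * S) x = (S * C) x := by rw [hC S hS]
    have h3 : C (S x) = S (C x) := h2
    show C (S x) = 0
    rw [h3, hx', map_zero])
  rcases h1 with h | h
  · intro x hx
    have : x ∈ LinearMap.ker (C : X →ₗ[ℂ] X) := hx
    rw [h] at this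
    exact (Submodule.mem_bot ℂ).1 this
  · exfalso
    apply h0
    ext x
    have : x ∈ LinearMap.ker (C : X →ₗ[ℂ] X) := h ▸ Submodule.mem_top
    exact this

theorem Trans.range {A : Subalgebra ℂ (X →L[ℂ] X)} (hA : Trans A) {C : X →L[ℂ] X}
    (hC : ∀ S ∈ A, S * C = C * S) (h0 : C ≠ 0) :
    (LinearMap.range (C : X →ₗ[ℂ] X)).topologicalClosure = ⊤ := by
  have h1 := hA (LinearMap.range (C : X →ₗ[ℂ] X)).topologicalClosure
    (Submodule.isClosed_topologicalClosure _) (by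
    intro S hS x hx
    have hx' : x ∈ closure ((LinearMap.range (C : X →ₗ[ℂ] X) : Submodule ℂ X) : Set X) := hx
    exact map_mem_closure S.continuous hx'
      (t := ((LinearMap.range (C : X →ₗ[ℂ] X) : Submodule ℂ X) : Set X)) (by
        rintro _ ⟨z, rfl⟩
        refine ⟨S z, ?_⟩
        have h2 : (S * C) z = (C * S) z := by rw [hC S hS]
        exact h2.symm))
  rcases h1 with h | h
  · exfalso
    apply h0
    ext x
    have h2 : C x ∈ (LinearMap.range (C : X →ₗ[ℂ] X)).topologicalClosure :=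
      Submodule.le_topologicalClosure _ ⟨x, rfl⟩
    rw [h] at h2
    exact (Submodule.mem_bot ℂ).1 h2
  · exact h

theorem comm_sub_smul {A : Subalgebra ℂ (X →L[ℂ] X)} {C : X →L[ℂ] X}
    (hC : ∀ S ∈ A, S * C = C * S) (c : ℂ) :
    ∀ S ∈ A, S * (C - c • (1 : X →L[ℂ] X)) = (C - c • (1 : X →L[ℂ] X)) * S := by
  intro S hS
  rw [mul_sub, sub_mul, hC S hS, mul_smul_comm, mul_one, smul_mul_assoc, one_mul]

theorem Trans.scalar_of_eig {A : Subalgebra ℂ (X →L[ℂ] X)} (hA : Trans A) {C : X →L[ℂ] X}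
    (hC : ∀ S ∈ A, S * C = C * S) {c : ℂ} {v : X} (hv : v ≠ 0) (h : C v = c • v) :
    C = c • (1 : X →L[ℂ] X) := by
  by_contra hne
  refine hv (hA.ker (comm_sub_smul hC c) (sub_ne_zero.2 hne) v ?_)
  show C v - c • v = 0
  rw [h, sub_self]

theorem Trans.scalar_of_range {A : Subalgebra ℂ (X →L[ℂ] X)} (hA : Trans A) {C : X →L[ℂ] X}
    (hC : ∀ S ∈ A, S * C = C * S) {c : ℂ} {W : Submodule ℂ X} (hW : IsClosed (W : Set X))
    (hW1 : W ≠ ⊤) (h : ∀ x, C x - c • x ∈ W) : C = c • (1 : X →L[ℂ] X) := by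
  by_contra hne
  have h1 := hA.range (comm_sub_smul hC c) (sub_ne_zero.2 hne)
  apply hW1
  rw [eq_top_iff, ← h1]
  refine Submodule.topologicalClosure_minimal _ ?_ hW
  rintro _ ⟨x, rfl⟩
  exact h x

/-! ### One-sided inverses on the range of a finite rank projection -/

theorem exists_right {P D : X →L[ℂ] X}
    (hfin : FiniteDimensional ℂ (LinearMap.range (P : X →ₗ[ℂ] X)))
    (hD : (LinearMap.range (D : X →ₗ[ℂ] X)).topologicalClosure = ⊤) :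
    ∃ R : X →L[ℂ] X, P * D * R = P := by
  let E := LinearMap.range (P : X →ₗ[ℂ] X)
  let f : X →ₗ[ℂ] E := (P : X →ₗ[ℂ] X).rangeRestrict
  let g : X →ₗ[ℂ] E := f ∘ₗ (D : X →ₗ[ℂ] X)
  have hg : Function.Surjective g := by
    let W : Submodule ℂ X := (LinearMap.range g).map E.subtype
    have hWf : FiniteDimensional ℂ W := by
      have : FiniteDimensional ℂ (LinearMap.range g) := inferInstance
      infer_instance
    have hWc : IsClosed (W : Set X) := Submodule.closed_of_finiteDimensional W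
    have hall : ∀ x, P x ∈ W := by
      intro x
      let V : Submodule ℂ X := W.comap (P : X →ₗ[ℂ] X)
      have hVc : IsClosed (V : Set X) := hWc.preimage P.continuous
      have hV : LinearMap.range (D : X →ₗ[ℂ] X) ≤ V := by
        rintro _ ⟨z, rfl⟩
        exact ⟨g z, ⟨z, rfl⟩, rfl⟩
      have h2 := Submodule.topologicalClosure_minimal _ hV hVc
      rw [hD] at h2
      exact h2 Submodule.mem_top
    rintro ⟨_, x, rfl⟩
    obtain ⟨e, ⟨z, hz⟩, he⟩ := hall x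
    refine ⟨z, ?_⟩
    rw [hz]
    exact Subtype.ext he
  obtain ⟨r, hr⟩ := g.exists_rightInverse_of_surjective (LinearMap.range_eq_top.2 hg)
  let rc : E →L[ℂ] X := LinearMap.toContinuousLinearMap r
  let fc : X →L[ℂ] E := P.codRestrict E (fun x => ⟨x, rfl⟩)
  refine ⟨rc ∘L fc, ?_⟩
  ext x
  have h1 : g (r (fc x)) = fc x := by
    have := LinearMap.congr_fun hr (fc x)
    exact this
  exact congrArg Subtype.val h1

theorem exists_left {P D : X →L[ℂ] X} (hPP : P * P = P)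
    (hfin : FiniteDimensional ℂ (LinearMap.range (P : X →ₗ[ℂ] X)))
    (hD : ∀ x, D x = 0 → x = 0) : ∃ R : X →L[ℂ] X, R * D * P = P := by
  let E := LinearMap.range (P : X →ₗ[ℂ] X)
  let g : E →ₗ[ℂ] X := (D : X →ₗ[ℂ] X) ∘ₗ E.subtype
  have hg : Function.Injective g := by
    rw [injective_iff_map_eq_zero]
    intro e he
    exact Subtype.ext (hD _ he)
  let F := LinearMap.range g
  have hF : FiniteDimensional ℂ F := inferInstance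
  obtain ⟨q, hq⟩ := Submodule.ClosedComplemented.of_finiteDimensional (𝕜 := ℂ) F
  let e : E ≃ₗ[ℂ] F := LinearEquiv.ofInjective g hg
  let r : F →L[ℂ] E := LinearMap.toContinuousLinearMap (e.symm : F →ₗ[ℂ] E)
  refine ⟨E.subtypeL ∘L r ∘L q, ?_⟩
  ext x
  have h1 : q (D (P x)) = e ⟨P x, ⟨x, rfl⟩⟩ := by
    have h2 := hq (e ⟨P x, ⟨x, rfl⟩⟩)
    exact h2
  show ((e.symm (q (D (P x))) : E) : X) = P x
  rw [h1, e.symm_apply_apply]

/-! ### The engines -/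

variable {M P J : X →L[ℂ] X} {A ρ₁ ρ₂ : ℝ}

theorem Dec.ρ₁pos (d : Dec M P J A ρ₁ ρ₂) : 0 < ρ₁ := d.ρ₂pos.trans d.lt

theorem Dec.MP (d : Dec M P J A ρ₁ ρ₂) (n : ℕ) : M ^ n * P = P * M ^ n :=
  ((show Commute M P from d.PM.symm).pow_left n).eq

theorem Dec.MQ (d : Dec M P J A ρ₁ ρ₂) (n : ℕ) : M ^ n * (1 - P) = (1 - P) * M ^ n := by
  rw [mul_sub, sub_mul, mul_one, one_mul, d.MP]

theorem Dec.MJn (d : Dec M P J A ρ₁ ρ₂) (n : ℕ) : M ^ (n + 1) * J ^ (n + 1) = P := by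
  induction n with
  | zero => rw [zero_add, pow_one, pow_one, d.MJ]
  | succ n ih =>
    rw [pow_succ M (n + 1), pow_succ' J (n + 1)]
    calc M ^ (n + 1) * M * (J * J ^ (n + 1)) = M ^ (n + 1) * (M * J) * J ^ (n + 1) := by noncomm_ring
      _ = P * (M ^ (n + 1) * J ^ (n + 1)) := by rw [d.MJ, d.MP, mul_assoc]
      _ = P := by rw [ih, d.PP]

theorem Dec.JMn (d : Dec M P J A ρ₁ ρ₂) (n : ℕ) : J ^ (n + 1) * M ^ (n + 1) = P := by
  induction n with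
  | zero => rw [zero_add, pow_one, pow_one, d.JM]
  | succ n ih =>
    rw [pow_succ J (n + 1), pow_succ' M (n + 1)]
    calc J ^ (n + 1) * J * (M * M ^ (n + 1)) = J ^ (n + 1) * (J * M) * M ^ (n + 1) := by noncomm_ring
      _ = J ^ (n + 1) * (M ^ (n + 1) * P) := by rw [d.JM, d.MP, mul_assoc]
      _ = P := by rw [← mul_assoc, ih, d.PP]

theorem Dec.PJn (d : Dec M P J A ρ₁ ρ₂) (n : ℕ) : P * J ^ (n + 1) = J ^ (n + 1) := by
  rw [pow_succ', ← mul_assoc, d.PJ]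

/-- The growth comparison used in all engines. -/
theorem zero_of_growth {ρ₁ ρ₂ : ℝ} (h2 : 0 < ρ₂) (h12 : ρ₂ < ρ₁) {x B C : ℝ} (hx : 0 ≤ x)
    (hB : 0 ≤ B) (hC : 0 ≤ C) {c : ℕ → ℝ} {φ : ℕ → ℕ} (hφ : Tendsto φ atTop atTop)
    (hc : ∀ η : ℝ, 1 < η → ∃ᶠ i in atTop, c i ≤ η ^ (φ i))
    (h : ∀ᶠ i in atTop, x ≤ (ρ₁⁻¹) ^ (φ i) * ρ₂ ^ (φ i) * (B * c i + C)) : x = 0 := by
  have h1 : 0 < ρ₁ := h2.trans h12
  set η : ℝ := (ρ₁ + ρ₂) / (2 * ρ₂) with hη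
  have hη1 : 1 < η := by
    rw [hη, lt_div_iff₀ (by positivity)]
    linarith
  set q : ℝ := ρ₁⁻¹ * ρ₂ * η with hq
  have hq0 : 0 ≤ q := by positivity
  have hq1 : q < 1 := by
    have : q = ρ₁⁻¹ * ((ρ₁ + ρ₂) / 2) := by
      rw [hq, hη]
      field_simp
    rw [this, inv_mul_eq_div, div_lt_one h1]
    linarith
  have h3 : Tendsto (fun i => q ^ (φ i) * (B + C)) atTop (𝓝 (0 * (B + C))) :=
    ((tendsto_pow_atTop_nhds_zero_of_lt_one hq0 hq1).comp hφ).mul_const _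
  rw [zero_mul] at h3
  have h4 : ∃ᶠ i in atTop, x ≤ q ^ (φ i) * (B + C) := by
    refine ((hc η hη1).and_eventually h).mono fun i hi => ?_
    obtain ⟨hi1, hi2⟩ := hi
    refine hi2.trans ?_
    have h5 : (1 : ℝ) ≤ η ^ (φ i) := one_le_pow₀ hη1.le
    have h6 : B * c i + C ≤ η ^ (φ i) * (B + C) := by nlinarith
    have h7 : 0 ≤ (ρ₁⁻¹) ^ (φ i) * ρ₂ ^ (φ i) := by positivity
    calc (ρ₁⁻¹) ^ (φ i) * ρ₂ ^ (φ i) * (B * c i + C)
        ≤ (ρ₁⁻¹) ^ (φ i) * ρ₂ ^ (φ i) * (η ^ (φ i) * (B + C)) := mul_le_mul_of_nonneg_left h6 h7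
      _ = q ^ (φ i) * (B + C) := by rw [hq, mul_pow, mul_pow]; ring
  have h8 : x ≤ 0 := by
    by_contra hcon
    push Not at hcon
    have h9 := h3.eventually_lt_const hcon
    obtain ⟨i, hi1, hi2⟩ := (h4.and_eventually h9).exists
    linarith
  exact le_antisymm h8 hx

/-- First engine, left. -/
theorem Dec.left (d : Dec M P J A ρ₁ ρ₂) {C₀ D : X →L[ℂ] X} {C Dn : ℕ → X →L[ℂ] X} {φ : ℕ → ℕ}
    (hφ : Tendsto φ atTop atTop)
    (hrel : ∀ i, C₀ * M ^ (φ i) * Dn i = M ^ (φ i) * C i)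
    (hD : (LinearMap.range (D : X →ₗ[ℂ] X)).topologicalClosure = ⊤)
    (hlim : Tendsto Dn atTop (𝓝 D)) {c : ℕ → ℝ} {b : ℝ} (hb : 0 ≤ b)
    (hMC : ∀ i, ‖M * C i‖ ≤ b * c i)
    (hc : ∀ η : ℝ, 1 < η → ∃ᶠ i in atTop, c i ≤ η ^ (φ i)) :
    (1 - P) * C₀ * P = 0 := by
  obtain ⟨R, hR⟩ := exists_right d.fin hD
  have hA := d.Apos
  have hρ := d.ρ₁pos
  have hρ₂ := d.ρ₂pos
  have hsm : ∀ᶠ i in atTop, ‖D - Dn i‖ * ‖R‖ ≤ 1 / 2 ∧ ‖Dn i‖ ≤ ‖D‖ + 1 ∧ 2 ≤ φ i := by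
    have h1 : Tendsto (fun i => ‖D - Dn i‖ * ‖R‖) atTop (𝓝 (‖D - D‖ * ‖R‖)) :=
      (tendsto_const_nhds.sub hlim).norm.mul_const _
    rw [sub_self, norm_zero, zero_mul] at h1
    have h2 : Tendsto (fun i => ‖Dn i‖) atTop (𝓝 ‖D‖) := hlim.norm
    filter_upwards [h1.eventually_lt_const (show (0 : ℝ) < 1 / 2 by norm_num),
      h2.eventually_lt_const (show ‖D‖ < ‖D‖ + 1 by linarith), hφ.eventually_ge_atTop 2]
      with i hi1 hi2 hi3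
    exact ⟨hi1.le, hi2.le, hi3⟩
  have key : ‖(1 - P) * C₀ * P‖ = 0 := by
    refine zero_of_growth d.ρ₂pos d.lt (norm_nonneg _)
      (B := 2 * ‖R‖ * A * (A * ρ₂⁻¹ * b)) (C := 2 * ‖R‖ * A * (‖(1 - P) * C₀‖ * A * (‖D‖ + 1)))
      (by positivity) (by positivity) hφ hc ?_
    filter_upwards [hsm] with i hi
    obtain ⟨hi1, hi2, hi3⟩ := hi
    obtain ⟨m, hm⟩ : ∃ m, φ i = m + 1 := ⟨φ i - 1, by omega⟩
    obtain ⟨m', hm'⟩ : ∃ m', m = m' + 1 := ⟨m - 1, by omega⟩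
    set n := φ i with hn
    set Q : X →L[ℂ] X := (1 - P) * C₀ * M ^ n * P with hQ
    have hQP : Q * P = Q := by rw [hQ, mul_assoc, d.PP]
    have hQR : Q = Q * Dn i * R + Q * (D - Dn i) * R := by
      have h1 : Q = Q * D * R := by
        calc Q = Q * P := hQP.symm
          _ = Q * (P * D * R) := by rw [hR]
          _ = (Q * P) * D * R := by noncomm_ring
          _ = Q * D * R := by rw [hQP]
      calc Q = Q * D * R := h1
        _ = _ := by noncomm_ring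
    have hQD : Q * Dn i = M ^ n * (1 - P) * C i - (1 - P) * C₀ * (M ^ n * (1 - P)) * Dn i := by
      have h1 : (1 - P) * (C₀ * M ^ n * Dn i) = (1 - P) * (M ^ n * C i) := by rw [hrel]
      calc Q * Dn i = (1 - P) * (C₀ * M ^ n * Dn i) - (1 - P) * C₀ * (M ^ n * (1 - P)) * Dn i := by
            rw [hQ]; noncomm_ring
        _ = _ := by rw [h1, d.MQ, mul_assoc (1 - P) (M ^ n) (C i)]
    have hbM : ‖M ^ n * (1 - P)‖ ≤ A * ρ₂ ^ n := by rw [hm]; exact d.bM m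
    have hbJ : ‖J ^ n‖ ≤ A * (ρ₁⁻¹) ^ n := by rw [hm]; exact d.bJ m
    have hbM' : ‖M ^ m * (1 - P)‖ ≤ A * ρ₂ ^ m := by rw [hm']; exact d.bM m'
    have hρn : ρ₂ ^ m = ρ₂ ^ n * ρ₂⁻¹ := by
      rw [hm, pow_succ, mul_assoc, mul_inv_cancel₀ hρ₂.ne', mul_one]
    have h1 : ‖Q * Dn i‖ ≤ ρ₂ ^ n * (A * ρ₂⁻¹ * (b * c i) + ‖(1 - P) * C₀‖ * A * (‖D‖ + 1)) := by
      rw [hQD]
      refine (norm_sub_le _ _).trans ?_
      have h2 : ‖M ^ n * (1 - P) * C i‖ ≤ A * (ρ₂ ^ n * ρ₂⁻¹) * (b * c i) := by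
        have h0 : M ^ n * (1 - P) * C i = M ^ m * (1 - P) * (M * C i) := by
          rw [hm, d.MQ, d.MQ, pow_succ]
          noncomm_ring
        rw [h0, ← hρn]
        refine (norm_mul_le _ _).trans (mul_le_mul hbM' (hMC i) (norm_nonneg _) ?_)
        exact (norm_nonneg _).trans hbM'
      have h3 : ‖(1 - P) * C₀ * (M ^ n * (1 - P)) * Dn i‖ ≤
          ‖(1 - P) * C₀‖ * (A * ρ₂ ^ n) * (‖D‖ + 1) := by
        refine (norm_mul_le _ _).trans (mul_le_mul ((norm_mul_le _ _).trans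
          (mul_le_mul_of_nonneg_left hbM (norm_nonneg _))) hi2 (norm_nonneg _) (by positivity))
      nlinarith
    have h2 : ‖Q‖ ≤ 2 * ‖R‖ * ‖Q * Dn i‖ := by
      have h3 : ‖Q‖ ≤ ‖Q * Dn i‖ * ‖R‖ + ‖Q‖ * (‖D - Dn i‖ * ‖R‖) := by
        have h4 := norm_add_le (Q * Dn i * R) (Q * (D - Dn i) * R)
        rw [← hQR] at h4
        have h5 : ‖Q * Dn i * R‖ ≤ ‖Q * Dn i‖ * ‖R‖ := norm_mul_le _ _
        have h6 : ‖Q * (D - Dn i) * R‖ ≤ ‖Q‖ * ‖D - Dn i‖ * ‖R‖ :=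
          (norm_mul_le _ _).trans (mul_le_mul_of_nonneg_right (norm_mul_le _ _) (norm_nonneg _))
        nlinarith
      have h7 : ‖Q‖ * (‖D - Dn i‖ * ‖R‖) ≤ ‖Q‖ * (1 / 2) :=
        mul_le_mul_of_nonneg_left hi1 (norm_nonneg _)
      nlinarith
    have h3 : (1 - P) * C₀ * P = Q * J ^ n := by
      rw [hQ, hm]
      calc (1 - P) * C₀ * P = (1 - P) * C₀ * (M ^ (m + 1) * J ^ (m + 1)) := by rw [d.MJn]
        _ = (1 - P) * C₀ * (M ^ (m + 1) * (P * J ^ (m + 1))) := by rw [d.PJn]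
        _ = _ := by noncomm_ring
    rw [h3]
    calc ‖Q * J ^ n‖ ≤ ‖Q‖ * ‖J ^ n‖ := norm_mul_le _ _
      _ ≤ (2 * ‖R‖ * (ρ₂ ^ n * (A * ρ₂⁻¹ * (b * c i) + ‖(1 - P) * C₀‖ * A * (‖D‖ + 1))))
            * (A * (ρ₁⁻¹) ^ n) := by
          have h6 := h2.trans (mul_le_mul_of_nonneg_left h1 (by positivity : 0 ≤ 2 * ‖R‖))
          exact mul_le_mul h6 hbJ (norm_nonneg _) ((norm_nonneg _).trans h6)
      _ = _ := by ring
  exact norm_eq_zero.1 key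

/-- First engine, right. -/
theorem Dec.right (d : Dec M P J A ρ₁ ρ₂) {C₀ D : X →L[ℂ] X} {C Dn : ℕ → X →L[ℂ] X} {φ : ℕ → ℕ}
    (hφ : Tendsto φ atTop atTop)
    (hrel : ∀ i, Dn i * M ^ (φ i) * C₀ = C i * M ^ (φ i))
    (hD : ∀ x, D x = 0 → x = 0)
    (hlim : Tendsto Dn atTop (𝓝 D)) {c : ℕ → ℝ} {b : ℝ} (hb : 0 ≤ b)
    (hMC : ∀ i, ‖C i * M‖ ≤ b * c i)
    (hc : ∀ η : ℝ, 1 < η → ∃ᶠ i in atTop, c i ≤ η ^ (φ i)) :
    P * C₀ * (1 - P) = 0 := by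
  obtain ⟨R, hR⟩ := exists_left d.PP d.fin hD
  have hA := d.Apos
  have hρ := d.ρ₁pos
  have hρ₂ := d.ρ₂pos
  have hsm : ∀ᶠ i in atTop, ‖R‖ * ‖D - Dn i‖ ≤ 1 / 2 ∧ ‖Dn i‖ ≤ ‖D‖ + 1 ∧ 2 ≤ φ i := by
    have h1 : Tendsto (fun i => ‖R‖ * ‖D - Dn i‖) atTop (𝓝 (‖R‖ * ‖D - D‖)) :=
      (tendsto_const_nhds.sub hlim).norm.const_mul _
    rw [sub_self, norm_zero, mul_zero] at h1
    have h2 : Tendsto (fun i => ‖Dn i‖) atTop (𝓝 ‖D‖) := hlim.norm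
    filter_upwards [h1.eventually_lt_const (show (0 : ℝ) < 1 / 2 by norm_num),
      h2.eventually_lt_const (show ‖D‖ < ‖D‖ + 1 by linarith), hφ.eventually_ge_atTop 2]
      with i hi1 hi2 hi3
    exact ⟨hi1.le, hi2.le, hi3⟩
  have key : ‖P * C₀ * (1 - P)‖ = 0 := by
    refine zero_of_growth d.ρ₂pos d.lt (norm_nonneg _)
      (B := 2 * ‖R‖ * A * (A * ρ₂⁻¹ * b)) (C := 2 * ‖R‖ * A * ((‖D‖ + 1) * A * ‖C₀ * (1 - P)‖))
      (by positivity) (by positivity) hφ hc ?_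
    filter_upwards [hsm] with i hi
    obtain ⟨hi1, hi2, hi3⟩ := hi
    obtain ⟨m, hm⟩ : ∃ m, φ i = m + 1 := ⟨φ i - 1, by omega⟩
    obtain ⟨m', hm'⟩ : ∃ m', m = m' + 1 := ⟨m - 1, by omega⟩
    set n := φ i with hn
    set Q : X →L[ℂ] X := P * M ^ n * C₀ * (1 - P) with hQ
    have hQP : P * Q = Q := by
      calc P * Q = (P * P) * M ^ n * C₀ * (1 - P) := by rw [hQ]; noncomm_ring
        _ = Q := by rw [d.PP]
    have hQR : Q = R * (Dn i * Q) + R * (D - Dn i) * Q := by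
      have h1 : Q = R * D * Q := by
        calc Q = P * Q := hQP.symm
          _ = (R * D * P) * Q := by rw [hR]
          _ = R * D * (P * Q) := by noncomm_ring
          _ = R * D * Q := by rw [hQP]
      calc Q = R * D * Q := h1
        _ = _ := by noncomm_ring
    have hQD : Dn i * Q = C i * (M ^ n * (1 - P)) - Dn i * (M ^ n * (1 - P)) * (C₀ * (1 - P)) := by
      have h1 : (Dn i * M ^ n * C₀) * (1 - P) = (C i * M ^ n) * (1 - P) := by rw [hrel]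
      have h2 : P * M ^ n = M ^ n - M ^ n * (1 - P) := by
        rw [← d.MP]; noncomm_ring
      calc Dn i * Q = Dn i * (P * M ^ n) * C₀ * (1 - P) := by rw [hQ]; noncomm_ring
        _ = (Dn i * M ^ n * C₀) * (1 - P) - Dn i * (M ^ n * (1 - P)) * (C₀ * (1 - P)) := by
            rw [h2]; noncomm_ring
        _ = _ := by rw [h1, mul_assoc (C i)]
    have hbM : ‖M ^ n * (1 - P)‖ ≤ A * ρ₂ ^ n := by rw [hm]; exact d.bM m
    have hbJ : ‖J ^ n‖ ≤ A * (ρ₁⁻¹) ^ n := by rw [hm]; exact d.bJ m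
    have hbM' : ‖M ^ m * (1 - P)‖ ≤ A * ρ₂ ^ m := by rw [hm']; exact d.bM m'
    have hρn : ρ₂ ^ m = ρ₂ ^ n * ρ₂⁻¹ := by
      rw [hm, pow_succ, mul_assoc, mul_inv_cancel₀ hρ₂.ne', mul_one]
    have h1 : ‖Dn i * Q‖ ≤ ρ₂ ^ n * (A * ρ₂⁻¹ * (b * c i) + (‖D‖ + 1) * A * ‖C₀ * (1 - P)‖) := by
      rw [hQD]
      refine (norm_sub_le _ _).trans ?_
      have h2 : ‖C i * (M ^ n * (1 - P))‖ ≤ (b * c i) * (A * (ρ₂ ^ n * ρ₂⁻¹)) := by
        have h0 : C i * (M ^ n * (1 - P)) = (C i * M) * (M ^ m * (1 - P)) := by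
          rw [hm, pow_succ']
          noncomm_ring
        rw [h0, ← hρn]
        refine (norm_mul_le _ _).trans (mul_le_mul (hMC i) hbM' (norm_nonneg _) ?_)
        exact (norm_nonneg _).trans (hMC i)
      have h3 : ‖Dn i * (M ^ n * (1 - P)) * (C₀ * (1 - P))‖ ≤
          (‖D‖ + 1) * (A * ρ₂ ^ n) * ‖C₀ * (1 - P)‖ := by
        refine (norm_mul_le _ _).trans (mul_le_mul_of_nonneg_right ((norm_mul_le _ _).trans
          (mul_le_mul hi2 hbM (norm_nonneg _) (by positivity))) (norm_nonneg _))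
      nlinarith
    have h2 : ‖Q‖ ≤ 2 * ‖R‖ * ‖Dn i * Q‖ := by
      have h3 : ‖Q‖ ≤ ‖R‖ * ‖Dn i * Q‖ + (‖R‖ * ‖D - Dn i‖) * ‖Q‖ := by
        have h4 := norm_add_le (R * (Dn i * Q)) (R * (D - Dn i) * Q)
        rw [← hQR] at h4
        have h5 : ‖R * (Dn i * Q)‖ ≤ ‖R‖ * ‖Dn i * Q‖ := norm_mul_le _ _
        have h6 : ‖R * (D - Dn i) * Q‖ ≤ ‖R‖ * ‖D - Dn i‖ * ‖Q‖ :=
          (norm_mul_le _ _).trans (mul_le_mul_of_nonneg_right (norm_mul_le _ _) (norm_nonneg _))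
        nlinarith
      have h7 : (‖R‖ * ‖D - Dn i‖) * ‖Q‖ ≤ (1 / 2) * ‖Q‖ :=
        mul_le_mul_of_nonneg_right hi1 (norm_nonneg _)
      nlinarith
    have h3 : P * C₀ * (1 - P) = J ^ n * Q := by
      rw [hQ, hm]
      calc P * C₀ * (1 - P) = (P * P) * C₀ * (1 - P) := by rw [d.PP]
        _ = (J ^ (m + 1) * M ^ (m + 1)) * P * C₀ * (1 - P) := by rw [d.JMn]
        _ = J ^ (m + 1) * (M ^ (m + 1) * P) * C₀ * (1 - P) := by noncomm_ring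
        _ = J ^ (m + 1) * (P * M ^ (m + 1)) * C₀ * (1 - P) := by rw [d.MP]
        _ = _ := by noncomm_ring
    rw [h3]
    calc ‖J ^ n * Q‖ ≤ ‖J ^ n‖ * ‖Q‖ := norm_mul_le _ _
      _ ≤ (A * (ρ₁⁻¹) ^ n) * (2 * ‖R‖ * (ρ₂ ^ n *
            (A * ρ₂⁻¹ * (b * c i) + (‖D‖ + 1) * A * ‖C₀ * (1 - P)‖))) := by
          refine mul_le_mul hbJ (h2.trans (mul_le_mul_of_nonneg_left h1 (by positivity)))
            (norm_nonneg _) (by positivity)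
      _ = _ := by ring
  exact norm_eq_zero.1 key

/-- Comparison of the norms of `M ^ n` and `M ^ n * P`. -/
theorem Dec.norm_le (d : Dec M P J A ρ₁ ρ₂) : ∃ B : ℝ, 0 < B ∧ ∀ n : ℕ, 1 ≤ n →
    ‖M ^ n‖ ≤ B * ‖M ^ n * P‖ ∧ 0 < ‖M ^ n * P‖ := by
  have hA := d.Apos
  have hρ := d.ρ₁pos
  have hρ₂ := d.ρ₂pos
  have hP : 0 < ‖P‖ := norm_pos_iff.2 d.P0
  refine ⟨1 + A * A / ‖P‖, by positivity, fun n hn => ?_⟩
  obtain ⟨m, rfl⟩ := Nat.exists_eq_add_of_le' hn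
  have h1 : ρ₁ ^ (m + 1) * ‖P‖ ≤ A * ‖M ^ (m + 1) * P‖ := by
    have h2 : P = J ^ (m + 1) * (M ^ (m + 1) * P) := by
      rw [← mul_assoc, d.JMn, d.PP]
    have h3 : ‖P‖ ≤ (A * (ρ₁⁻¹) ^ (m + 1)) * ‖M ^ (m + 1) * P‖ := by
      calc ‖P‖ = ‖J ^ (m + 1) * (M ^ (m + 1) * P)‖ := by rw [← h2]
        _ ≤ ‖J ^ (m + 1)‖ * ‖M ^ (m + 1) * P‖ := norm_mul_le _ _
        _ ≤ _ := mul_le_mul_of_nonneg_right (d.bJ m) (norm_nonneg _)
    have h4 : ρ₁ ^ (m + 1) * (ρ₁⁻¹) ^ (m + 1) = 1 := by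
      rw [← mul_pow, mul_inv_cancel₀ hρ.ne', one_pow]
    calc ρ₁ ^ (m + 1) * ‖P‖ ≤ ρ₁ ^ (m + 1) * ((A * (ρ₁⁻¹) ^ (m + 1)) * ‖M ^ (m + 1) * P‖) :=
          mul_le_mul_of_nonneg_left h3 (by positivity)
      _ = (ρ₁ ^ (m + 1) * (ρ₁⁻¹) ^ (m + 1)) * (A * ‖M ^ (m + 1) * P‖) := by ring
      _ = _ := by rw [h4, one_mul]
  have h5 : 0 < ‖M ^ (m + 1) * P‖ := by
    have : 0 < ρ₁ ^ (m + 1) * ‖P‖ := by positivity
    have h6 : 0 < A * ‖M ^ (m + 1) * P‖ := this.trans_le h1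
    exact pos_of_mul_pos_right h6 hA.le
  refine ⟨?_, h5⟩
  have h6 : M ^ (m + 1) = M ^ (m + 1) * P + M ^ (m + 1) * (1 - P) := by noncomm_ring
  have h7 : ‖M ^ (m + 1)‖ ≤ ‖M ^ (m + 1) * P‖ + ‖M ^ (m + 1) * (1 - P)‖ := by
    calc ‖M ^ (m + 1)‖ = ‖M ^ (m + 1) * P + M ^ (m + 1) * (1 - P)‖ := by rw [← h6]
      _ ≤ _ := norm_add_le _ _
  have h8 : ρ₂ ^ (m + 1) ≤ ρ₁ ^ (m + 1) := pow_le_pow_left₀ hρ₂.le d.lt.le _
  have h9 : A * ρ₂ ^ (m + 1) ≤ A * A / ‖P‖ * ‖M ^ (m + 1) * P‖ := by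
    rw [div_mul_eq_mul_div, le_div_iff₀ hP]
    have : A * ρ₂ ^ (m + 1) * ‖P‖ ≤ A * (ρ₁ ^ (m + 1) * ‖P‖) := by
      rw [mul_assoc]
      exact mul_le_mul_of_nonneg_left (mul_le_mul_of_nonneg_right h8 hP.le) hA.le
    nlinarith
  have h10 := d.bM m
  nlinarith

/-- Second engine, left. -/
theorem Dec.left' (d : Dec M P J A ρ₁ ρ₂) {C₀ D : X →L[ℂ] X} {C Dn : ℕ → X →L[ℂ] X} {φ : ℕ → ℕ}
    (hφ : Tendsto φ atTop atTop)
    (hrel : ∀ i, C₀ * M ^ (φ i) * C i = M ^ (φ i) * Dn i)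
    (hD : (LinearMap.range (D : X →ₗ[ℂ] X)).topologicalClosure = ⊤)
    (hlim : Tendsto Dn atTop (𝓝 D)) (hC : Tendsto C atTop (𝓝 0)) : False := by
  obtain ⟨R, hR⟩ := exists_right d.fin hD
  obtain ⟨B, hB, hBn⟩ := d.norm_le
  have h1 : Tendsto (fun i => ‖D - Dn i‖ * ‖R‖) atTop (𝓝 (‖D - D‖ * ‖R‖)) :=
    (tendsto_const_nhds.sub hlim).norm.mul_const _
  rw [sub_self, norm_zero, zero_mul] at h1
  have h2 : Tendsto (fun i => 2 * ‖R‖ * ‖P * C₀‖ * B * ‖C i‖) atTop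
      (𝓝 (2 * ‖R‖ * ‖P * C₀‖ * B * ‖(0 : X →L[ℂ] X)‖)) := hC.norm.const_mul _
  rw [norm_zero, mul_zero] at h2
  obtain ⟨i, hi1, hi2, hi3⟩ := ((h1.eventually_lt_const (show (0 : ℝ) < 1 / 2 by norm_num)).and
    ((h2.eventually_lt_const (show (0 : ℝ) < 1 by norm_num)).and
      (hφ.eventually_ge_atTop 1))).exists
  set n := φ i with hn
  obtain ⟨hb1, hb2⟩ := hBn n hi3
  set Q : X →L[ℂ] X := M ^ n * P with hQ
  have hQP : Q * P = Q := by rw [hQ, mul_assoc, d.PP]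
  have hQR : Q = Q * Dn i * R + Q * (D - Dn i) * R := by
    have h1 : Q = Q * D * R := by
      calc Q = Q * P := hQP.symm
        _ = Q * (P * D * R) := by rw [hR]
        _ = (Q * P) * D * R := by noncomm_ring
        _ = Q * D * R := by rw [hQP]
    calc Q = Q * D * R := h1
      _ = _ := by noncomm_ring
  have hQD : Q * Dn i = P * C₀ * M ^ n * C i := by
    calc Q * Dn i = P * (M ^ n * Dn i) := by rw [hQ, d.MP]; noncomm_ring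
      _ = P * (C₀ * M ^ n * C i) := by rw [hrel]
      _ = _ := by noncomm_ring
  have h3 : ‖Q * Dn i‖ ≤ ‖P * C₀‖ * (B * ‖Q‖) * ‖C i‖ := by
    rw [hQD]
    refine (norm_mul_le _ _).trans (mul_le_mul_of_nonneg_right ((norm_mul_le _ _).trans
      (mul_le_mul_of_nonneg_left hb1 (norm_nonneg _))) (norm_nonneg _))
  have h4 : ‖Q‖ ≤ ‖Q * Dn i‖ * ‖R‖ + ‖Q‖ * (‖D - Dn i‖ * ‖R‖) := by
    have h4 := norm_add_le (Q * Dn i * R) (Q * (D - Dn i) * R)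
    rw [← hQR] at h4
    have h5 : ‖Q * Dn i * R‖ ≤ ‖Q * Dn i‖ * ‖R‖ := norm_mul_le _ _
    have h6 : ‖Q * (D - Dn i) * R‖ ≤ ‖Q‖ * ‖D - Dn i‖ * ‖R‖ :=
      (norm_mul_le _ _).trans (mul_le_mul_of_nonneg_right (norm_mul_le _ _) (norm_nonneg _))
    nlinarith
  have h5 : ‖Q‖ * (‖D - Dn i‖ * ‖R‖) ≤ ‖Q‖ * (1 / 2) :=
    mul_le_mul_of_nonneg_left hi1.le (norm_nonneg _)
  have h6 : ‖Q‖ ≤ 2 * (‖Q * Dn i‖ * ‖R‖) := by nlinarith
  have h7 : 2 * (‖Q * Dn i‖ * ‖R‖) ≤ 2 * ((‖P * C₀‖ * (B * ‖Q‖) * ‖C i‖) * ‖R‖) := by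
    have := mul_le_mul_of_nonneg_right h3 (norm_nonneg R)
    linarith
  have h8 : 2 * ((‖P * C₀‖ * (B * ‖Q‖) * ‖C i‖) * ‖R‖) =
      (2 * ‖R‖ * ‖P * C₀‖ * B * ‖C i‖) * ‖Q‖ := by ring
  have h9 : (2 * ‖R‖ * ‖P * C₀‖ * B * ‖C i‖) * ‖Q‖ < 1 * ‖Q‖ := mul_lt_mul_of_pos_right hi2 hb2
  linarith

/-- Second engine, right. -/
theorem Dec.right' (d : Dec M P J A ρ₁ ρ₂) {C₀ D : X →L[ℂ] X} {C Dn : ℕ → X →L[ℂ] X} {φ : ℕ → ℕ}
    (hφ : Tendsto φ atTop atTop)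
    (hrel : ∀ i, C i * M ^ (φ i) * C₀ = Dn i * M ^ (φ i))
    (hD : ∀ x, D x = 0 → x = 0)
    (hlim : Tendsto Dn atTop (𝓝 D)) (hC : Tendsto C atTop (𝓝 0)) : False := by
  obtain ⟨R, hR⟩ := exists_left d.PP d.fin hD
  obtain ⟨B, hB, hBn⟩ := d.norm_le
  have h1 : Tendsto (fun i => ‖R‖ * ‖D - Dn i‖) atTop (𝓝 (‖R‖ * ‖D - D‖)) :=
    (tendsto_const_nhds.sub hlim).norm.const_mul _
  rw [sub_self, norm_zero, mul_zero] at h1
  have h2 : Tendsto (fun i => 2 * ‖R‖ * ‖C₀ * P‖ * B * ‖C i‖) atTop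
      (𝓝 (2 * ‖R‖ * ‖C₀ * P‖ * B * ‖(0 : X →L[ℂ] X)‖)) := hC.norm.const_mul _
  rw [norm_zero, mul_zero] at h2
  obtain ⟨i, hi1, hi2, hi3⟩ := ((h1.eventually_lt_const (show (0 : ℝ) < 1 / 2 by norm_num)).and
    ((h2.eventually_lt_const (show (0 : ℝ) < 1 by norm_num)).and
      (hφ.eventually_ge_atTop 1))).exists
  set n := φ i with hn
  obtain ⟨hb1, hb2⟩ := hBn n hi3
  set Q : X →L[ℂ] X := M ^ n * P with hQ
  have hQP : P * Q = Q := by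
    rw [hQ, d.MP, ← mul_assoc, d.PP]
  have hQR : Q = R * (Dn i * Q) + R * (D - Dn i) * Q := by
    have h1 : Q = R * D * Q := by
      calc Q = P * Q := hQP.symm
        _ = (R * D * P) * Q := by rw [hR]
        _ = R * D * (P * Q) := by noncomm_ring
        _ = R * D * Q := by rw [hQP]
    calc Q = R * D * Q := h1
      _ = _ := by noncomm_ring
  have hQD : Dn i * Q = C i * M ^ n * (C₀ * P) := by
    calc Dn i * Q = (Dn i * M ^ n) * P := by rw [hQ]; noncomm_ring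
      _ = (C i * M ^ n * C₀) * P := by rw [hrel]
      _ = _ := by noncomm_ring
  have h3 : ‖Dn i * Q‖ ≤ ‖C i‖ * (B * ‖Q‖) * ‖C₀ * P‖ := by
    rw [hQD]
    refine (norm_mul_le _ _).trans (mul_le_mul_of_nonneg_right ((norm_mul_le _ _).trans
      (mul_le_mul_of_nonneg_left hb1 (norm_nonneg _))) (norm_nonneg _))
  have h4 : ‖Q‖ ≤ ‖R‖ * ‖Dn i * Q‖ + (‖R‖ * ‖D - Dn i‖) * ‖Q‖ := by
    have h4 := norm_add_le (R * (Dn i * Q)) (R * (D - Dn i) * Q)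
    rw [← hQR] at h4
    have h5 : ‖R * (Dn i * Q)‖ ≤ ‖R‖ * ‖Dn i * Q‖ := norm_mul_le _ _
    have h6 : ‖R * (D - Dn i) * Q‖ ≤ ‖R‖ * ‖D - Dn i‖ * ‖Q‖ :=
      (norm_mul_le _ _).trans (mul_le_mul_of_nonneg_right (norm_mul_le _ _) (norm_nonneg _))
    nlinarith
  have h5 : (‖R‖ * ‖D - Dn i‖) * ‖Q‖ ≤ (1 / 2) * ‖Q‖ :=
    mul_le_mul_of_nonneg_right hi1.le (norm_nonneg _)
  have h6 : ‖Q‖ ≤ 2 * (‖R‖ * ‖Dn i * Q‖) := by nlinarith
  have h7 : 2 * (‖R‖ * ‖Dn i * Q‖) ≤ 2 * (‖R‖ * (‖C i‖ * (B * ‖Q‖) * ‖C₀ * P‖)) := by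
    have := mul_le_mul_of_nonneg_left h3 (norm_nonneg R)
    linarith
  have h8 : 2 * (‖R‖ * (‖C i‖ * (B * ‖Q‖) * ‖C₀ * P‖)) =
      (2 * ‖R‖ * ‖C₀ * P‖ * B * ‖C i‖) * ‖Q‖ := by ring
  have h9 : (2 * ‖R‖ * ‖C₀ * P‖ * B * ‖C i‖) * ‖Q‖ < 1 * ‖Q‖ := mul_lt_mul_of_pos_right hi2 hb2
  linarith

end Pool.Agent.J6H99.CS
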