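import Mathlib
import Pool.Agent.J6H99.CS.Eng

/-!
The general theorem on orbits of a compact operator in a commutant.
-/

set_option autoImplicit false

open Filter Topology Metric Set

namespace Pool.Agent.J6H99.CS

variable {X : Type*} [NormedAddCommGroup X] [NormedSpace ℂ X]

theorem Trans.scalar_left {A : Subalgebra ℂ (X →L[ℂ] X)} (hA : Trans A) {C P : X →L[ℂ] X}
    (hC : ∀ S ∈ A, S * C = C * S) (hP0 : P ≠ 0)
    (hfin : FiniteDimensional ℂ (LinearMap.range (P : X →ₗ[ℂ] X)))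
    (h : (1 - P) * C * P = 0) : ∃ c : ℂ, C = c • (1 : X →L[ℂ] X) := by
  let E := LinearMap.range (P : X →ₗ[ℂ] X)
  have hE : Nontrivial E := by
    obtain ⟨x, hx⟩ : ∃ x, P x ≠ 0 := by
      by_contra hcon
      push Not at hcon
      exact hP0 (ContinuousLinearMap.ext hcon)
    exact ⟨⟨⟨P x, ⟨x, rfl⟩⟩, 0, fun h => hx (congrArg Subtype.val h)⟩⟩
  have hinv : ∀ x ∈ E, (C : X →ₗ[ℂ] X) x ∈ E := by
    rintro _ ⟨x, rfl⟩
    refine ⟨C (P x), ?_⟩
    have h1 : ((1 - P) * C * P) x = 0 := by rw [h]; rfl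
    have h2 : C (P x) - P (C (P x)) = 0 := h1
    show P (C (P x)) = C (P x)
    exact (sub_eq_zero.1 h2).symm
  let g : E →ₗ[ℂ] E := (C : X →ₗ[ℂ] X).restrict hinv
  obtain ⟨c, hc⟩ := Module.End.exists_eigenvalue g
  obtain ⟨v, hv⟩ := hc.exists_hasEigenvector
  refine ⟨c, hA.scalar_of_eig hC (v := (v : X)) (fun h0 => hv.2 (Subtype.ext h0)) ?_⟩
  have h1 : g v = c • v := hv.apply_eq_smul
  exact congrArg Subtype.val h1

theorem Trans.scalar_right {A : Subalgebra ℂ (X →L[ℂ] X)} (hA : Trans A) {C P : X →L[ℂ] X}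
    (hC : ∀ S ∈ A, S * C = C * S) (hP0 : P ≠ 0)
    (hfin : FiniteDimensional ℂ (LinearMap.range (P : X →ₗ[ℂ] X)))
    (h : P * C * (1 - P) = 0) : ∃ c : ℂ, C = c • (1 : X →L[ℂ] X) := by
  let E := LinearMap.range (P : X →ₗ[ℂ] X)
  have hE : Nontrivial E := by
    obtain ⟨x, hx⟩ : ∃ x, P x ≠ 0 := by
      by_contra hcon
      push Not at hcon
      exact hP0 (ContinuousLinearMap.ext hcon)
    exact ⟨⟨⟨P x, ⟨x, rfl⟩⟩, 0, fun h => hx (congrArg Subtype.val h)⟩⟩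
  have hPC : ∀ x, P (C x) = P (C (P x)) := by
    intro x
    have h1 : (P * C * (1 - P)) x = 0 := by rw [h]; rfl
    have h2 : P (C (x - P x)) = 0 := h1
    rw [map_sub, map_sub] at h2
    exact sub_eq_zero.1 h2
  let g : E →ₗ[ℂ] E := (P : X →ₗ[ℂ] X).rangeRestrict ∘ₗ (C : X →ₗ[ℂ] X) ∘ₗ E.subtype
  obtain ⟨c, hc⟩ := Module.End.exists_eigenvalue g
  have hns : ¬ Function.Surjective (g - algebraMap ℂ (Module.End ℂ E) c) := by
    intro hs
    have hi := (LinearMap.injective_iff_surjective (f := g - algebraMap ℂ (Module.End ℂ E) c)).2 hs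
    obtain ⟨v, hv⟩ := hc.exists_hasEigenvector
    refine hv.2 (hi ?_)
    have h1 : g v = c • v := hv.apply_eq_smul
    rw [map_zero, LinearMap.sub_apply, h1, Module.algebraMap_end_apply, sub_self]
  let W : Submodule ℂ X := (LinearMap.range (g - algebraMap ℂ (Module.End ℂ E) c)).map E.subtype
  have hWf : FiniteDimensional ℂ W := inferInstance
  have hWc : IsClosed (W : Set X) := Submodule.closed_of_finiteDimensional W
  let V : Submodule ℂ X := W.comap (P : X →ₗ[ℂ] X)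
  have hVc : IsClosed (V : Set X) := hWc.preimage P.continuous
  have hV1 : V ≠ ⊤ := by
    intro htop
    apply hns
    rintro ⟨_, x, rfl⟩
    have hx : x ∈ V := htop ▸ Submodule.mem_top
    obtain ⟨e, ⟨z, hz⟩, he⟩ := hx
    refine ⟨z, ?_⟩
    rw [hz]
    exact Subtype.ext he
  refine ⟨c, hA.scalar_of_range hC hVc hV1 fun x => ?_⟩
  have hPx : P x ∈ E := ⟨x, rfl⟩
  refine ⟨(g - algebraMap ℂ (Module.End ℂ E) c) ⟨P x, hPx⟩, ⟨⟨P x, hPx⟩, rfl⟩, ?_⟩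
  rw [LinearMap.sub_apply, Module.algebraMap_end_apply]
  show P (C (P x)) - c • P x = P (C x - c • x)
  rw [map_sub, map_smul, hPC x]

/-- The set `𝒮` of operators has a closed invariant subspace other than `0` and the whole space. -/
def HasInv (𝒮 : Set (X →L[ℂ] X)) : Prop :=
  ∃ V : Submodule ℂ X, IsClosed (V : Set X) ∧ V ≠ ⊥ ∧ V ≠ ⊤ ∧ ∀ S ∈ 𝒮, ∀ x ∈ V, S x ∈ V

theorem trans_adjoin {𝒮 : Set (X →L[ℂ] X)} (h : ¬ HasInv 𝒮) : Trans (Algebra.adjoin ℂ 𝒮) := by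
  intro V hV hinv
  by_contra hcon
  push Not at hcon
  exact h ⟨V, hV, hcon.1, hcon.2, fun S hS => hinv S (Algebra.subset_adjoin hS)⟩

theorem comm_adjoin {𝒮 : Set (X →L[ℂ] X)} {C : X →L[ℂ] X} (h : ∀ S ∈ 𝒮, S * C = C * S) :
    ∀ S ∈ Algebra.adjoin ℂ 𝒮, S * C = C * S := by
  intro S hS
  have hle : Algebra.adjoin ℂ 𝒮 ≤ Subalgebra.centralizer ℂ {C} := by
    refine Algebra.adjoin_le fun T hT => ?_
    rw [SetLike.mem_coe, Subalgebra.mem_centralizer_iff]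
    rintro _ rfl
    exact (h T hT).symm
  have h1 := hle hS
  rw [Subalgebra.mem_centralizer_iff] at h1
  exact (h1 C rfl).symm

/-- The terms `F i` grow at most subexponentially (in `φ i`), along a subsequence. -/
def Slow (F : ℕ → X →L[ℂ] X) (φ : ℕ → ℕ) : Prop :=
  ∀ η : ℝ, 1 < η → ∃ᶠ i in atTop, ‖F i‖ ≤ η ^ (φ i)

theorem slow_of_tendsto {F : ℕ → X →L[ℂ] X} {F' : X →L[ℂ] X} {φ : ℕ → ℕ}
    (hφ : Tendsto φ atTop atTop) (h : Tendsto F atTop (𝓝 F')) : Slow F φ := by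
  intro η hη
  refine Eventually.frequently ?_
  have h2 : ∀ᶠ i in atTop, ‖F i‖ ≤ ‖F'‖ + 1 :=
    (h.norm.eventually_lt_const (show ‖F'‖ < ‖F'‖ + 1 by linarith)).mono fun i hi => hi.le
  have h3 : ∀ᶠ i in atTop, ‖F'‖ + 1 ≤ η ^ (φ i) :=
    ((tendsto_pow_atTop_atTop_of_one_lt hη).comp hφ).eventually_ge_atTop _
  filter_upwards [h2, h3] with i h4 h5
  exact h4.trans h5

theorem limit_comm {A : Subalgebra ℂ (X →L[ℂ] X)} {F : ℕ → X →L[ℂ] X} {F' : X →L[ℂ] X} {φ : ℕ → ℕ}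
    {s : ℕ → ℂ} (hF : ∀ n, ∀ S ∈ A, S * F n = F n * S)
    (hF' : Tendsto (fun i => s i • F (φ i)) atTop (𝓝 F')) : ∀ S ∈ A, S * F' = F' * S := by
  intro S hS
  refine tendsto_nhds_unique (hF'.const_mul S) ?_
  refine (hF'.mul_const S).congr fun i => ?_
  rw [mul_smul_comm, smul_mul_assoc, hF _ S hS]

theorem exists_M [CompleteSpace X] {A : Subalgebra ℂ (X →L[ℂ] X)} (hA : Trans A) {K : X →L[ℂ] X}
    (hK : IsCompactOperator K) (hK0 : K ≠ 0) :
    ∃ S ∈ A, ∃ (P J : X →L[ℂ] X) (a ρ₁ ρ₂ : ℝ), Dec (S * K) P J a ρ₁ ρ₂ := by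
  obtain ⟨S, hS, v, hv, hSv⟩ := lomonosov hA hK hK0
  have hMc : IsCompactOperator (S * K) := by
    have h0 := hK.clm_comp S
    have h1 : (⇑(S * K) : X → X) = ⇑S ∘ ⇑K := rfl
    rw [h1]
    exact h0
  obtain ⟨P, J, a, ρ₁, ρ₂, d⟩ := exists_dec hMc hv hSv
  exact ⟨S, hS, P, J, a, ρ₁, ρ₂, d⟩

/-- **The general theorem, first side.** -/
theorem general_right [CompleteSpace X] {𝒮 : Set (X →L[ℂ] X)} {K : X →L[ℂ] X}
    (hK : IsCompactOperator K) (hK0 : K ≠ 0) {C D E : ℕ → X →L[ℂ] X}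
    (hC : ∀ n, ∀ S ∈ 𝒮, S * C n = C n * S) (hD : ∀ n, ∀ S ∈ 𝒮, S * D n = D n * S)
    (hE : ∀ n, ∀ S ∈ 𝒮, S * E n = E n * S) (hD0 : D 0 = 1)
    (hC0 : ∀ c : ℂ, C 0 ≠ c • (1 : X →L[ℂ] X))
    (hr : ∀ n, E n * K * C n = C (n + 1) * K ∧ E n * K * D n = D (n + 1) * K)
    {φ : ℕ → ℕ} (hφ : Tendsto φ atTop atTop) (s : ℕ → ℂ) {D' C' : X →L[ℂ] X}
    (hlim : Tendsto (fun i => s i • D (φ i)) atTop (𝓝 D'))
    (hgr : (D' ≠ 0 ∧ Slow (fun i => s i • (C (φ i) * K)) φ) ∨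
      (C' ≠ 0 ∧ Tendsto (fun i => s i • C (φ i)) atTop (𝓝 C'))) :
    HasInv 𝒮 := by
  by_contra hno
  have hA := trans_adjoin hno
  set 𝒜 := Algebra.adjoin ℂ 𝒮 with h𝒜
  have hC' : ∀ n, ∀ S ∈ 𝒜, S * C n = C n * S := fun n => comm_adjoin (hC n)
  have hD' : ∀ n, ∀ S ∈ 𝒜, S * D n = D n * S := fun n => comm_adjoin (hD n)
  have hE' : ∀ n, ∀ S ∈ 𝒜, S * E n = E n * S := fun n => comm_adjoin (hE n)
  obtain ⟨S, hS, P, J, A, ρ₁, ρ₂, d⟩ := exists_M hA hK hK0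
  set M : X →L[ℂ] X := S * K with hM
  have hstep : ∀ n, E n * M * C n = C (n + 1) * M ∧ E n * M * D n = D (n + 1) * M := by
    intro n
    constructor
    · calc E n * M * C n = (E n * S) * K * C n := by rw [hM]; noncomm_ring
        _ = S * (E n * K * C n) := by rw [← hE' n S hS]; noncomm_ring
        _ = (S * C (n + 1)) * K := by rw [(hr n).1]; noncomm_ring
        _ = C (n + 1) * M := by rw [hC' _ S hS, hM]; noncomm_ring
    · calc E n * M * D n = (E n * S) * K * D n := by rw [hM]; noncomm_ring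
        _ = S * (E n * K * D n) := by rw [← hE' n S hS]; noncomm_ring
        _ = (S * D (n + 1)) * K := by rw [(hr n).2]; noncomm_ring
        _ = D (n + 1) * M := by rw [hD' _ S hS, hM]; noncomm_ring
  have hpow : ∀ n, D n * M ^ n * C 0 = C n * M ^ n := by
    intro n
    induction n with
    | zero => rw [pow_zero, hD0, one_mul, one_mul, mul_one]
    | succ n ih =>
      rw [pow_succ']
      calc D (n + 1) * (M * M ^ n) * C 0 = (D (n + 1) * M) * M ^ n * C 0 := by noncomm_ring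
        _ = E n * M * (D n * M ^ n * C 0) := by rw [← (hstep n).2]; noncomm_ring
        _ = (E n * M * C n) * M ^ n := by rw [ih]; noncomm_ring
        _ = C (n + 1) * (M * M ^ n) := by rw [(hstep n).1]; noncomm_ring
  have hrel' : ∀ i, (s i • D (φ i)) * M ^ (φ i) * C 0 = (s i • C (φ i)) * M ^ (φ i) := by
    intro i
    rw [smul_mul_assoc, smul_mul_assoc, hpow, smul_mul_assoc]
  have hfin : D' ≠ 0 → Slow (fun i => s i • (C (φ i) * K)) φ → False := by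
    intro hD1 hc
    have hDD := limit_comm hD' hlim
    have hMC : ∀ i, ‖(s i • C (φ i)) * M‖ ≤ ‖S‖ * ‖s i • (C (φ i) * K)‖ := by
      intro i
      have h1 : (s i • C (φ i)) * M = S * (s i • (C (φ i) * K)) := by
        rw [hM, smul_mul_assoc, ← mul_assoc, ← hC' _ S hS, mul_smul_comm, mul_assoc]
      rw [h1]
      exact norm_mul_le _ _
    have h0 := d.right hφ hrel' (hA.ker hDD hD1) hlim (norm_nonneg S) hMC hc
    obtain ⟨c, hc⟩ := hA.scalar_right (hC' 0) d.P0 d.fin h0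
    exact hC0 c hc
  rcases hgr with ⟨hD1, hc⟩ | ⟨hC1, hlimC⟩
  · exact hfin hD1 hc
  · by_cases hD1 : D' = 0
    · subst hD1
      exact d.right' hφ hrel' (hA.ker (limit_comm hC' hlimC) hC1) hlimC hlim
    · refine hfin hD1 (slow_of_tendsto hφ (F' := C' * K) ?_)
      refine (hlimC.mul_const K).congr fun i => ?_
      rw [smul_mul_assoc]

/-- **The general theorem, second side.** -/
theorem general_left [CompleteSpace X] {𝒮 : Set (X →L[ℂ] X)} {K : X →L[ℂ] X}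
    (hK : IsCompactOperator K) (hK0 : K ≠ 0) {C D E : ℕ → X →L[ℂ] X}
    (hC : ∀ n, ∀ S ∈ 𝒮, S * C n = C n * S) (hD : ∀ n, ∀ S ∈ 𝒮, S * D n = D n * S)
    (hD0 : D 0 = 1)
    (hC0 : ∀ c : ℂ, C 0 ≠ c • (1 : X →L[ℂ] X))
    (hr : ∀ n, C n * K * E n = K * C (n + 1) ∧ D n * K * E n = K * D (n + 1))
    {φ : ℕ → ℕ} (hφ : Tendsto φ atTop atTop) (s : ℕ → ℂ) {D' C' : X →L[ℂ] X}
    (hlim : Tendsto (fun i => s i • D (φ i)) atTop (𝓝 D'))
    (hgr : (D' ≠ 0 ∧ Slow (fun i => s i • (K * C (φ i))) φ) ∨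
      (C' ≠ 0 ∧ Tendsto (fun i => s i • C (φ i)) atTop (𝓝 C'))) :
    HasInv 𝒮 := by
  by_contra hno
  have hA := trans_adjoin hno
  set 𝒜 := Algebra.adjoin ℂ 𝒮 with h𝒜
  have hC' : ∀ n, ∀ S ∈ 𝒜, S * C n = C n * S := fun n => comm_adjoin (hC n)
  have hD' : ∀ n, ∀ S ∈ 𝒜, S * D n = D n * S := fun n => comm_adjoin (hD n)
  obtain ⟨S, hS, P, J, A, ρ₁, ρ₂, d⟩ := exists_M hA hK hK0
  set M : X →L[ℂ] X := S * K with hM
  have hstep : ∀ n, C n * M * E n = M * C (n + 1) ∧ D n * M * E n = M * D (n + 1) := by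
    intro n
    constructor
    · calc C n * M * E n = (C n * S) * K * E n := by rw [hM]; noncomm_ring
        _ = S * (C n * K * E n) := by rw [← hC' n S hS]; noncomm_ring
        _ = M * C (n + 1) := by rw [(hr n).1, hM]; noncomm_ring
    · calc D n * M * E n = (D n * S) * K * E n := by rw [hM]; noncomm_ring
        _ = S * (D n * K * E n) := by rw [← hD' n S hS]; noncomm_ring
        _ = M * D (n + 1) := by rw [(hr n).2, hM]; noncomm_ring
  have hpow : ∀ n, C 0 * M ^ n * D n = M ^ n * C n := by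
    intro n
    induction n with
    | zero => rw [pow_zero, hD0, one_mul, mul_one, mul_one]
    | succ n ih =>
      rw [pow_succ]
      calc C 0 * (M ^ n * M) * D (n + 1) = C 0 * M ^ n * (M * D (n + 1)) := by noncomm_ring
        _ = (C 0 * M ^ n * D n) * M * E n := by rw [← (hstep n).2]; noncomm_ring
        _ = M ^ n * (C n * M * E n) := by rw [ih]; noncomm_ring
        _ = M ^ n * M * C (n + 1) := by rw [(hstep n).1]; noncomm_ring
  have hrel' : ∀ i, C 0 * M ^ (φ i) * (s i • D (φ i)) = M ^ (φ i) * (s i • C (φ i)) := by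
    intro i
    rw [mul_smul_comm, hpow, mul_smul_comm]
  have hfin : D' ≠ 0 → Slow (fun i => s i • (K * C (φ i))) φ → False := by
    intro hD1 hc
    have hDD := limit_comm hD' hlim
    have hMC : ∀ i, ‖M * (s i • C (φ i))‖ ≤ ‖S‖ * ‖s i • (K * C (φ i))‖ := by
      intro i
      have h1 : M * (s i • C (φ i)) = S * (s i • (K * C (φ i))) := by
        rw [hM, mul_smul_comm, mul_smul_comm, mul_assoc]
      rw [h1]
      exact norm_mul_le _ _
    have h0 := d.left hφ hrel' (hA.range hDD hD1) hlim (norm_nonneg S) hMC hc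
    obtain ⟨c, hc⟩ := hA.scalar_left (hC' 0) d.P0 d.fin h0
    exact hC0 c hc
  rcases hgr with ⟨hD1, hc⟩ | ⟨hC1, hlimC⟩
  · exact hfin hD1 hc
  · by_cases hD1 : D' = 0
    · subst hD1
      exact d.left' hφ hrel' (hA.range (limit_comm hC' hlimC) hC1) hlimC hlim
    · refine hfin hD1 (slow_of_tendsto hφ (F' := K * C') ?_)
      refine (hlimC.const_mul K).congr fun i => ?_
      rw [mul_smul_comm]

/-- **Orbits.** -/
theorem orbit [CompleteSpace X] {𝒮 : Set (X →L[ℂ] X)} {K : X →L[ℂ] X}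
    (hK : IsCompactOperator K) (hK0 : K ≠ 0) {C : ℕ → X →L[ℂ] X}
    (hC : ∀ n, ∀ S ∈ 𝒮, S * C n = C n * S)
    (hC0 : ∀ c : ℂ, C 0 ≠ c • (1 : X →L[ℂ] X))
    (h : ((∀ n, K * C n = C (n + 1) * K) ∧ Slow (fun n => C n * K) id) ∨
      ((∀ n, C n * K = K * C (n + 1)) ∧ Slow (fun n => K * C n) id)) : HasInv 𝒮 := by
  by_cases hX : (1 : X →L[ℂ] X) = 0
  · exfalso
    refine hC0 0 ?_
    rw [zero_smul, ← mul_one (C 0), hX, mul_zero]
  rcases h with ⟨h, hs⟩ | ⟨h, hs⟩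
  · refine general_right hK hK0 (C := C) (D := fun _ => 1) (E := fun _ => 1) hC
      (fun _ S _ => by rw [mul_one, one_mul]) (fun _ S _ => by rw [mul_one, one_mul]) rfl hC0
      (fun n => ⟨by rw [one_mul, h n], by rw [one_mul, mul_one]⟩) (φ := id) tendsto_id
      (fun _ => 1) (D' := 1) (C' := 0) ?_ (Or.inl ⟨hX, ?_⟩)
    · simp only [one_smul]
      exact tendsto_const_nhds
    · simpa only [one_smul, id] using hs
  · refine general_left hK hK0 (C := C) (D := fun _ => 1) (E := fun _ => 1) hC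
      (fun _ S _ => by rw [mul_one, one_mul]) rfl hC0
      (fun n => ⟨by rw [mul_one, h n], by rw [one_mul, mul_one]⟩) (φ := id) tendsto_id
      (fun _ => 1) (D' := 1) (C' := 0) ?_ (Or.inl ⟨hX, ?_⟩)
    · simp only [one_smul]
      exact tendsto_const_nhds
    · simpa only [one_smul, id] using hs

/-- Normalised pairs in a finite dimensional space have nonzero limit points. -/
theorem pair_subseq {W : Type*} [NormedAddCommGroup W] [NormedSpace ℂ W] (V : Submodule ℂ W)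
    [FiniteDimensional ℂ V] (a b : ℕ → W) (ha : ∀ n, a n ∈ V) (hb : ∀ n, b n ∈ V)
    (h0 : ∀ n, a n ≠ 0) : ∃ (φ : ℕ → ℕ) (s : ℕ → ℂ) (A B : W), StrictMono φ ∧
      Tendsto (fun i => s i • a (φ i)) atTop (𝓝 A) ∧
      Tendsto (fun i => s i • b (φ i)) atTop (𝓝 B) ∧ ¬ (A = 0 ∧ B = 0) := by
  let p : ℕ → V × V := fun n => (⟨a n, ha n⟩, ⟨b n, hb n⟩)
  have hp : ∀ n, 0 < ‖p n‖ := by
    intro n
    rw [norm_pos_iff]
    intro h1
    exact h0 n (congrArg Subtype.val (congrArg Prod.fst h1))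
  have : ProperSpace (V × V) := FiniteDimensional.proper ℂ (V × V)
  let u : ℕ → V × V := fun n => ((‖p n‖⁻¹ : ℝ) : ℂ) • p n
  have hu : ∀ n, u n ∈ sphere (0 : V × V) 1 := by
    intro n
    rw [mem_sphere, dist_zero_right]
    simp only [u]
    rw [norm_smul, Complex.norm_real, norm_inv, norm_norm, inv_mul_cancel₀ (hp n).ne']
  obtain ⟨q, hq, φ, hφ, hlim⟩ := (isCompact_sphere (0 : V × V) 1).tendsto_subseq hu
  refine ⟨φ, fun i => ((‖p (φ i)‖⁻¹ : ℝ) : ℂ), q.1, q.2, hφ, ?_, ?_, ?_⟩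
  · exact (continuous_subtype_val.comp continuous_fst).continuousAt.tendsto.comp hlim
  · exact (continuous_subtype_val.comp continuous_snd).continuousAt.tendsto.comp hlim
  · rintro ⟨h1, h2⟩
    have hq0 : q = 0 := Prod.ext (Subtype.ext h1) (Subtype.ext h2)
    rw [hq0, mem_sphere, dist_self] at hq
    exact zero_ne_one hq

/-- **Finite dimensional spaces of operators, one side.** -/
theorem finite_left [CompleteSpace X] {𝒮 : Set (X →L[ℂ] X)} {K : X →L[ℂ] X}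
    (hK : IsCompactOperator K) (hK0 : K ≠ 0) (V : Submodule ℂ (X →L[ℂ] X))
    (hVf : FiniteDimensional ℂ V) (h1 : (1 : X →L[ℂ] X) ∈ V)
    (hV : ∀ A ∈ V, ∀ S ∈ 𝒮, S * A = A * S) {C₀ : X →L[ℂ] X} (hC₀ : C₀ ∈ V)
    (hC₀' : ∀ c : ℂ, C₀ ≠ c • (1 : X →L[ℂ] X)) (f : V →ₗ[ℂ] V) (hf : f ≠ 0)
    (hrel : ∀ A : V, K * (f A : X →L[ℂ] X) = A * K * (f ⟨1, h1⟩ : X →L[ℂ] X)) : HasInv 𝒮 := by
  by_contra hno
  have hA := trans_adjoin hno
  have hVc : ∀ A ∈ V, ∀ S ∈ Algebra.adjoin ℂ 𝒮, S * A = A * S := fun A hA' => comm_adjoin (hV A hA')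
  have hKr : ∀ A ∈ V, A ≠ 0 → K * A ≠ 0 := by
    intro A hA' hA0 h0
    apply hK0
    have hr := hA.range (hVc A hA') hA0
    have hle : (LinearMap.range (A : X →ₗ[ℂ] X)).topologicalClosure ≤
        LinearMap.ker (K : X →ₗ[ℂ] X) := by
      refine Submodule.topologicalClosure_minimal _ ?_ K.isClosed_ker
      rintro _ ⟨x, rfl⟩
      have h2 : (K * A) x = 0 := by rw [h0]; rfl
      exact h2
    rw [hr] at hle
    ext x
    exact hle (Submodule.mem_top : x ∈ ⊤)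
  have hAl : ∀ A ∈ V, A ≠ 0 → ∀ B : X →L[ℂ] X, A * B = 0 → B = 0 := by
    intro A hA' hA0 B hB
    ext x
    refine hA.ker (hVc A hA') hA0 (B x) ?_
    have h2 : (A * B) x = 0 := by rw [hB]; rfl
    exact h2
  have hf1 : f ⟨1, h1⟩ ≠ 0 := by
    intro h0
    apply hf
    ext A
    by_contra hne
    have h2 := hrel A
    rw [h0] at h2
    refine hKr (f A) (f A).2 (fun h3 => hne ?_) ?_
    · rw [h3]; rfl
    · rw [h2]; simp
  have hfn : ∀ n : ℕ, (f ^ n) ⟨1, h1⟩ ≠ 0 := by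
    intro n
    induction n with
    | zero =>
      intro h0
      have h2 : (1 : X →L[ℂ] X) = 0 := congrArg Subtype.val h0
      apply hC₀' 0
      rw [zero_smul, ← mul_one C₀, h2, mul_zero]
    | succ n ih =>
      intro h0
      rw [pow_succ'] at h0
      have h2 := hrel ((f ^ n) ⟨1, h1⟩)
      have h3 : f ((f ^ n) ⟨1, h1⟩) = 0 := h0
      rw [h3] at h2
      have h4 : (((f ^ n) ⟨1, h1⟩ : V) : X →L[ℂ] X) * (K * (f ⟨1, h1⟩ : X →L[ℂ] X)) = 0 := by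
        rw [← mul_assoc, ← h2]; simp
      refine hKr _ (f ⟨1, h1⟩).2 (fun h5 => hf1 (Subtype.ext h5)) (hAl _ ((f ^ n) ⟨1, h1⟩).2 ?_ _ h4)
      exact fun h5 => ih (Subtype.ext h5)
  obtain ⟨φ, s, D', C', hφ, hlD, hlC, hne⟩ := pair_subseq V
    (fun n => (((f ^ n) ⟨1, h1⟩ : V) : X →L[ℂ] X)) (fun n => (((f ^ n) ⟨C₀, hC₀⟩ : V) : X →L[ℂ] X))
    (fun n => ((f ^ n) ⟨1, h1⟩).2) (fun n => ((f ^ n) ⟨C₀, hC₀⟩).2)
    (fun n h0 => hfn n (Subtype.ext h0))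
  apply hno
  refine general_left hK hK0 (C := fun n => (((f ^ n) ⟨C₀, hC₀⟩ : V) : X →L[ℂ] X))
    (D := fun n => (((f ^ n) ⟨1, h1⟩ : V) : X →L[ℂ] X))
    (E := fun _ => (f ⟨1, h1⟩ : X →L[ℂ] X)) (fun n S hS => hV _ ((f ^ n) ⟨C₀, hC₀⟩).2 S hS)
    (fun n S hS => hV _ ((f ^ n) ⟨1, h1⟩).2 S hS) rfl hC₀' (fun n => ⟨?_, ?_⟩) (φ := φ)
    hφ.tendsto_atTop s (D' := D') (C' := C') hlD ?_
  · rw [← hrel ((f ^ n) ⟨C₀, hC₀⟩), pow_succ' f n]
    rfl
  · rw [← hrel ((f ^ n) ⟨1, h1⟩), pow_succ' f n]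
    rfl
  · by_cases hq1 : D' = 0
    · exact Or.inr ⟨fun hq2 => hne ⟨hq1, hq2⟩, hlC⟩
    · refine Or.inl ⟨hq1, slow_of_tendsto hφ.tendsto_atTop (F' := K * C') ?_⟩
      refine (hlC.const_mul K).congr fun i => ?_
      rw [mul_smul_comm]

/-- **Finite dimensional spaces of operators, the other side.** -/
theorem finite_right [CompleteSpace X] {𝒮 : Set (X →L[ℂ] X)} {K : X →L[ℂ] X}
    (hK : IsCompactOperator K) (hK0 : K ≠ 0) (V : Submodule ℂ (X →L[ℂ] X))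
    (hVf : FiniteDimensional ℂ V) (h1 : (1 : X →L[ℂ] X) ∈ V)
    (hV : ∀ A ∈ V, ∀ S ∈ 𝒮, S * A = A * S) {C₀ : X →L[ℂ] X} (hC₀ : C₀ ∈ V)
    (hC₀' : ∀ c : ℂ, C₀ ≠ c • (1 : X →L[ℂ] X)) (f : V →ₗ[ℂ] V) (hf : f ≠ 0)
    (hrel : ∀ A : V, (f A : X →L[ℂ] X) * K = (f ⟨1, h1⟩ : X →L[ℂ] X) * K * A) : HasInv 𝒮 := by
  by_contra hno
  have hA := trans_adjoin hno
  have hVc : ∀ A ∈ V, ∀ S ∈ Algebra.adjoin ℂ 𝒮, S * A = A * S := fun A hA' => comm_adjoin (hV A hA')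
  have hAl : ∀ A ∈ V, A ≠ 0 → ∀ B : X →L[ℂ] X, A * B = 0 → B = 0 := by
    intro A hA' hA0 B hB
    ext x
    refine hA.ker (hVc A hA') hA0 (B x) ?_
    have h2 : (A * B) x = 0 := by rw [hB]; rfl
    exact h2
  have hAr : ∀ A ∈ V, A ≠ 0 → ∀ B : X →L[ℂ] X, B * A = 0 → B = 0 := by
    intro A hA' hA0 B h0
    have hr := hA.range (hVc A hA') hA0
    have hle : (LinearMap.range (A : X →ₗ[ℂ] X)).topologicalClosure ≤
        LinearMap.ker (B : X →ₗ[ℂ] X) := by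
      refine Submodule.topologicalClosure_minimal _ ?_ B.isClosed_ker
      rintro _ ⟨x, rfl⟩
      have h2 : (B * A) x = 0 := by rw [h0]; rfl
      exact h2
    rw [hr] at hle
    ext x
    exact hle (Submodule.mem_top : x ∈ ⊤)
  have hf1 : f ⟨1, h1⟩ ≠ 0 := by
    intro h0
    apply hf
    ext A
    by_contra hne
    have h2 := hrel A
    rw [h0] at h2
    apply hK0
    refine hAl (f A) (f A).2 (fun h3 => hne ?_) K ?_
    · rw [h3]; rfl
    · rw [h2]; simp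
  have hfn : ∀ n : ℕ, (f ^ n) ⟨1, h1⟩ ≠ 0 := by
    intro n
    induction n with
    | zero =>
      intro h0
      have h2 : (1 : X →L[ℂ] X) = 0 := congrArg Subtype.val h0
      apply hC₀' 0
      rw [zero_smul, ← mul_one C₀, h2, mul_zero]
    | succ n ih =>
      intro h0
      rw [pow_succ'] at h0
      have h2 := hrel ((f ^ n) ⟨1, h1⟩)
      have h3 : f ((f ^ n) ⟨1, h1⟩) = 0 := h0
      rw [h3] at h2
      have h4 : ((f ⟨1, h1⟩ : V) : X →L[ℂ] X) * K * (((f ^ n) ⟨1, h1⟩ : V) : X →L[ℂ] X) = 0 := by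
        rw [← h2]; simp
      apply hK0
      refine hAl _ (f ⟨1, h1⟩).2 (fun h5 => hf1 (Subtype.ext h5)) _
        (hAr _ ((f ^ n) ⟨1, h1⟩).2 ?_ _ h4)
      exact fun h5 => ih (Subtype.ext h5)
  obtain ⟨φ, s, D', C', hφ, hlD, hlC, hne⟩ := pair_subseq V
    (fun n => (((f ^ n) ⟨1, h1⟩ : V) : X →L[ℂ] X)) (fun n => (((f ^ n) ⟨C₀, hC₀⟩ : V) : X →L[ℂ] X))
    (fun n => ((f ^ n) ⟨1, h1⟩).2) (fun n => ((f ^ n) ⟨C₀, hC₀⟩).2)
    (fun n h0 => hfn n (Subtype.ext h0))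
  apply hno
  refine general_right hK hK0 (C := fun n => (((f ^ n) ⟨C₀, hC₀⟩ : V) : X →L[ℂ] X))
    (D := fun n => (((f ^ n) ⟨1, h1⟩ : V) : X →L[ℂ] X))
    (E := fun _ => (f ⟨1, h1⟩ : X →L[ℂ] X)) (fun n S hS => hV _ ((f ^ n) ⟨C₀, hC₀⟩).2 S hS)
    (fun n S hS => hV _ ((f ^ n) ⟨1, h1⟩).2 S hS) (fun n S hS => hV _ (f ⟨1, h1⟩).2 S hS) rfl hC₀'
    (fun n => ⟨?_, ?_⟩) (φ := φ)
    hφ.tendsto_atTop s (D' := D') (C' := C') hlD ?_
  · rw [← hrel ((f ^ n) ⟨C₀, hC₀⟩), pow_succ' f n]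
    rfl
  · rw [← hrel ((f ^ n) ⟨1, h1⟩), pow_succ' f n]
    rfl
  · by_cases hq1 : D' = 0
    · exact Or.inr ⟨fun hq2 => hne ⟨hq1, hq2⟩, hlC⟩
    · refine Or.inl ⟨hq1, slow_of_tendsto hφ.tendsto_atTop (F' := C' * K) ?_⟩
      refine (hlC.mul_const K).congr fun i => ?_
      rw [smul_mul_assoc]

/-- **Bilinear relations.** -/
theorem moebius [CompleteSpace X] {𝒮 : Set (X →L[ℂ] X)} {K T : X →L[ℂ] X}
    (hK : IsCompactOperator K) (hK0 : K ≠ 0) (hT : ∀ S ∈ 𝒮, S * T = T * S)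
    (hT0 : ∀ c : ℂ, T ≠ c • (1 : X →L[ℂ] X)) {a b c d : ℂ}
    (h0 : ¬ (a = 0 ∧ b = 0 ∧ c = 0 ∧ d = 0))
    (hrel : a • (T * K) + b • (K * T) + c • (T * K * T) + d • K = 0) : HasInv 𝒮 := by
  have hone : (1 : X →L[ℂ] X) ≠ 0 := by
    intro h
    refine hT0 0 ?_
    rw [zero_smul, ← mul_one T, h, mul_zero]
  have hli : LinearIndependent ℂ ![(1 : X →L[ℂ] X), T] := by
    rw [LinearIndependent.pair_iff]
    intro s t hst
    by_cases ht : t = 0
    · subst ht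
      rw [zero_smul, add_zero] at hst
      exact ⟨(smul_eq_zero.1 hst).resolve_right hone, rfl⟩
    · exfalso
      refine hT0 (-(t⁻¹ * s)) ?_
      have h1 : T = t⁻¹ • (t • T) := by rw [smul_smul, inv_mul_cancel₀ ht, one_smul]
      have h2 : t • T = -(s • (1 : X →L[ℂ] X)) := by
        rw [eq_neg_iff_add_eq_zero, add_comm]; exact hst
      rw [h1, h2, smul_neg, smul_smul, neg_smul]
  let V : Submodule ℂ (X →L[ℂ] X) := Submodule.span ℂ (Set.range ![(1 : X →L[ℂ] X), T])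
  have h1V : (1 : X →L[ℂ] X) ∈ V := Submodule.subset_span ⟨0, rfl⟩
  have hTV : T ∈ V := Submodule.subset_span ⟨1, rfl⟩
  let B : Module.Basis (Fin 2) ℂ V := Module.Basis.span hli
  have hB0 : B 0 = ⟨1, h1V⟩ := Module.Basis.span_apply hli 0
  have hB1 : B 1 = ⟨T, hTV⟩ := Module.Basis.span_apply hli 1
  let w : Fin 2 → V := ![a • ⟨1, h1V⟩ + c • ⟨T, hTV⟩, -(d • ⟨1, h1V⟩ + b • ⟨T, hTV⟩)]
  let f : V →ₗ[ℂ] V := B.constr ℂ w
  have hf0 : f ⟨1, h1V⟩ = a • ⟨1, h1V⟩ + c • ⟨T, hTV⟩ := by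
    rw [← hB0, B.constr_basis]
    simp [w, hB0]
  have hf1 : f ⟨T, hTV⟩ = -(d • ⟨1, h1V⟩ + b • ⟨T, hTV⟩) := by
    rw [← hB1, B.constr_basis]
    simp [w, hB1]
  have hVc : ∀ A ∈ V, ∀ S ∈ 𝒮, S * A = A * S := by
    intro A hA S hS
    refine Submodule.span_induction (p := fun A _ => S * A = A * S) ?_ ?_ ?_ ?_ hA
    · rintro _ ⟨i, rfl⟩
      fin_cases i
      · simp
      · simpa using hT S hS
    · simp
    · intro x y _ _ hx hy
      rw [mul_add, add_mul, hx, hy]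
    · intro r x _ hx
      rw [mul_smul_comm, smul_mul_assoc, hx]
  refine finite_left hK hK0 V (FiniteDimensional.span_of_finite ℂ (Set.finite_range _)) h1V hVc hTV hT0
    f ?_ ?_
  · intro hf
    apply h0
    have e0 : a • (1 : X →L[ℂ] X) + c • T = 0 := by
      have h2 : f ⟨1, h1V⟩ = 0 := by rw [hf]; rfl
      rw [hf0] at h2
      exact congrArg Subtype.val h2
    have e1 : d • (1 : X →L[ℂ] X) + b • T = 0 := by
      have h2 : f ⟨T, hTV⟩ = 0 := by rw [hf]; rfl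
      rw [hf1, neg_eq_zero] at h2
      exact congrArg Subtype.val h2
    rw [LinearIndependent.pair_iff] at hli
    obtain ⟨h3, h4⟩ := hli _ _ e0
    obtain ⟨h5, h6⟩ := hli _ _ e1
    exact ⟨h3, h6, h4, h5⟩
  · intro A
    let g₁ : V →ₗ[ℂ] (X →L[ℂ] X) := (LinearMap.mulLeft ℂ K) ∘ₗ V.subtype ∘ₗ f
    let g₂ : V →ₗ[ℂ] (X →L[ℂ] X) :=
      (LinearMap.mulRight ℂ (K * (f ⟨1, h1V⟩ : X →L[ℂ] X))) ∘ₗ V.subtype
    have hg : g₁ = g₂ := by
      refine B.ext fun i => ?_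
      fin_cases i
      · show K * (f (B 0) : X →L[ℂ] X) = ((B 0 : V) : X →L[ℂ] X) * (K * (f ⟨1, h1V⟩ : X →L[ℂ] X))
        rw [hB0, one_mul]
      · show K * (f (B 1) : X →L[ℂ] X) = ((B 1 : V) : X →L[ℂ] X) * (K * (f ⟨1, h1V⟩ : X →L[ℂ] X))
        rw [hB1, hf1, hf0]
        show K * (-(d • (1 : X →L[ℂ] X) + b • T)) = T * (K * (a • (1 : X →L[ℂ] X) + c • T))
        rw [← sub_eq_zero]
        have h2 : K * (-(d • (1 : X →L[ℂ] X) + b • T)) - T * (K * (a • (1 : X →L[ℂ] X) + c • T))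
            = -(a • (T * K) + b • (K * T) + c • (T * K * T) + d • K) := by
          simp only [mul_neg, mul_add, mul_smul_comm, mul_one, mul_assoc]
          abel
        rw [h2, hrel, neg_zero]
    have h2 := LinearMap.congr_fun hg A
    have h3 : K * (f A : X →L[ℂ] X) = (A : X →L[ℂ] X) * (K * (f ⟨1, h1V⟩ : X →L[ℂ] X)) := h2
    rw [h3, mul_assoc]

end Pool.Agent.J6H99.CS
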