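import Mathlib
import Pool.Agent.J6H99.CS.Main

/-!
Sliding a compact operator to zero along a sequence in the commutant.
-/

set_option autoImplicit false

open Filter Topology Metric Set

namespace Pool.Agent.J6H99.CS

variable {X : Type*} [NormedAddCommGroup X] [NormedSpace ℂ X]

/-- If `A n * K = Kn n * A n` with `Kn → 0` then there is an invariant subspace. -/
theorem slide_left [CompleteSpace X] {𝒮 : Set (X →L[ℂ] X)} {K : X →L[ℂ] X}
    (hK : IsCompactOperator K) (hK0 : K ≠ 0) {A Kn : ℕ → X →L[ℂ] X}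
    (hA : ∀ n, ∀ S ∈ 𝒮, S * A n = A n * S) (hA0 : ∀ n, A n ≠ 0)
    (hrel : ∀ n, A n * K = Kn n * A n) (hlim : Tendsto Kn atTop (𝓝 0)) : HasInv 𝒮 := by
  by_contra hno
  have hT := trans_adjoin hno
  obtain ⟨S, hS, P, J, a, ρ₁, ρ₂, d⟩ := exists_M hT hK hK0
  have hA' : ∀ n, ∀ S ∈ Algebra.adjoin ℂ 𝒮, S * A n = A n * S := fun n => comm_adjoin (hA n)
  have h1 : ∀ n, A n * P = (S * Kn n) * (A n * P) * J := by
    intro n
    calc A n * P = A n * (S * K * J) := by rw [d.MJ]
      _ = (A n * S) * K * J := by noncomm_ring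
      _ = S * (A n * K) * J := by rw [← hA' n S hS]; noncomm_ring
      _ = (S * Kn n) * A n * J := by rw [hrel]; noncomm_ring
      _ = (S * Kn n) * (A n * P) * J := by
        rw [mul_assoc _ (A n * P) J, mul_assoc (A n) P J, d.PJ]; noncomm_ring
  have h2 : Tendsto (fun n => ‖S * Kn n‖ * ‖J‖) atTop (𝓝 0) := by
    have h3 := ((hlim.const_mul S).norm).mul_const ‖J‖
    simpa using h3
  obtain ⟨n, hn⟩ := (h2.eventually_lt_const one_pos).exists
  have h3 : ‖A n * P‖ ≤ ‖S * Kn n‖ * ‖A n * P‖ * ‖J‖ := by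
    conv_lhs => rw [h1 n]
    exact (norm_mul_le _ _).trans (mul_le_mul_of_nonneg_right (norm_mul_le _ _) (norm_nonneg _))
  have h4 : A n * P = 0 := by
    by_contra hne
    have := norm_pos_iff.2 hne
    nlinarith
  apply d.P0
  ext x
  refine hT.ker (hA' n) (hA0 n) (P x) ?_
  have : (A n * P) x = 0 := by rw [h4]; rfl
  exact this

/-- If `K * A n = A n * Kn n` with `Kn → 0` then there is an invariant subspace. -/
theorem slide_right [CompleteSpace X] {𝒮 : Set (X →L[ℂ] X)} {K : X →L[ℂ] X}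
    (hK : IsCompactOperator K) (hK0 : K ≠ 0) {A Kn : ℕ → X →L[ℂ] X}
    (hA : ∀ n, ∀ S ∈ 𝒮, S * A n = A n * S) (hA0 : ∀ n, A n ≠ 0)
    (hrel : ∀ n, K * A n = A n * Kn n) (hlim : Tendsto Kn atTop (𝓝 0)) : HasInv 𝒮 := by
  by_contra hno
  have hT := trans_adjoin hno
  obtain ⟨S, hS, P, J, a, ρ₁, ρ₂, d⟩ := exists_M hT hK hK0
  have hA' : ∀ n, ∀ S ∈ Algebra.adjoin ℂ 𝒮, S * A n = A n * S := fun n => comm_adjoin (hA n)
  have h1 : ∀ n, P * A n = J * (P * A n) * (S * Kn n) := by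
    intro n
    calc P * A n = J * (S * K) * A n := by rw [d.JM]
      _ = J * S * (K * A n) := by noncomm_ring
      _ = J * (S * A n) * Kn n := by rw [hrel]; noncomm_ring
      _ = J * A n * (S * Kn n) := by rw [hA' n S hS]; noncomm_ring
      _ = J * (P * A n) * (S * Kn n) := by rw [← mul_assoc J P, d.JP]
  have h2 : Tendsto (fun n => ‖J‖ * ‖S * Kn n‖) atTop (𝓝 0) := by
    have h3 := ((hlim.const_mul S).norm).const_mul ‖J‖
    simpa using h3
  obtain ⟨n, hn⟩ := (h2.eventually_lt_const one_pos).exists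
  have h3 : ‖P * A n‖ ≤ ‖J‖ * ‖P * A n‖ * ‖S * Kn n‖ := by
    conv_lhs => rw [h1 n]
    exact (norm_mul_le _ _).trans (mul_le_mul_of_nonneg_right (norm_mul_le _ _) (norm_nonneg _))
  have h4 : P * A n = 0 := by
    by_contra hne
    have := norm_pos_iff.2 hne
    nlinarith
  apply d.P0
  have hr := hT.range (hA' n) (hA0 n)
  have hle : (LinearMap.range (A n : X →ₗ[ℂ] X)).topologicalClosure ≤
      LinearMap.ker (P : X →ₗ[ℂ] X) := by
    refine Submodule.topologicalClosure_minimal _ ?_ P.isClosed_ker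
    rintro _ ⟨x, rfl⟩
    have h5 : (P * A n) x = 0 := by rw [h4]; rfl
    exact h5
  rw [hr] at hle
  ext x
  exact hle (Submodule.mem_top : x ∈ ⊤)

end Pool.Agent.J6H99.CS
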