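import Mathlib
import Pool.Agent.J6H99.CS.Slide
import Pool.Agent.J6H99.CS.Alg
import Pool.Agent.J6H99.CS.Dbl

/-!
Analytic relations between the left and the right multiplication by an operator.
-/

set_option autoImplicit false

open Filter Topology Metric Set WeakDual

namespace Pool.Agent.J6H99.CS

variable {X : Type*} [NormedAddCommGroup X] [NormedSpace ℂ X]

/-- The space of compact operators. -/
def Cpt (X : Type*) [NormedAddCommGroup X] [NormedSpace ℂ X] : Type _ :=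
  ↥(compactOperator (RingHom.id ℂ) X X : Submodule ℂ (X →L[ℂ] X))

noncomputable instance : NormedAddCommGroup (Cpt X) :=
  inferInstanceAs (NormedAddCommGroup ↥(compactOperator (RingHom.id ℂ) X X : Submodule ℂ (X →L[ℂ] X)))

noncomputable instance : NormedSpace ℂ (Cpt X) :=
  inferInstanceAs (NormedSpace ℂ ↥(compactOperator (RingHom.id ℂ) X X : Submodule ℂ (X →L[ℂ] X)))

/-- The operator. -/
def Cpt.val (k : Cpt X) : X →L[ℂ] X := Subtype.val k

/-- A compact operator as an element of `Cpt X`. -/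
def Cpt.mk (K : X →L[ℂ] X) (hK : IsCompactOperator K) : Cpt X := ⟨K, hK⟩

theorem Cpt.compact (k : Cpt X) : IsCompactOperator k.val := Subtype.property k

@[ext] theorem Cpt.ext' {k k' : Cpt X} (h : k.val = k'.val) : k = k' := Subtype.ext h

@[simp] theorem Cpt.val_mk (K : X →L[ℂ] X) (hK : IsCompactOperator K) : (Cpt.mk K hK).val = K := rfl
@[simp] theorem Cpt.val_zero : (0 : Cpt X).val = 0 := rfl
@[simp] theorem Cpt.val_add (k k' : Cpt X) : (k + k').val = k.val + k'.val := rfl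
@[simp] theorem Cpt.val_sub (k k' : Cpt X) : (k - k').val = k.val - k'.val := rfl
@[simp] theorem Cpt.val_smul (c : ℂ) (k : Cpt X) : (c • k).val = c • k.val := rfl
theorem Cpt.norm_val (k : Cpt X) : ‖k.val‖ = ‖k‖ := rfl

/-- The inclusion as a continuous linear map. -/
noncomputable def Cpt.valL (X : Type*) [NormedAddCommGroup X] [NormedSpace ℂ X] :
    Cpt X →L[ℂ] (X →L[ℂ] X) :=
  LinearMap.mkContinuous
    { toFun := fun k => k.val
      map_add' := fun _ _ => rfl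
      map_smul' := fun _ _ => rfl } 1 fun k => by rw [one_mul]; exact le_rfl

@[simp] theorem Cpt.valL_apply (k : Cpt X) : Cpt.valL X k = k.val := rfl

theorem Cpt.complete [CompleteSpace X] : CompleteSpace (Cpt X) := by
  have h : IsClosed ((compactOperator (RingHom.id ℂ) X X : Submodule ℂ (X →L[ℂ] X)) :
      Set (X →L[ℂ] X)) := by
    have h1 := Submodule.isClosed_topologicalClosure
      (compactOperator (RingHom.id ℂ) X X : Submodule ℂ (X →L[ℂ] X))
    rwa [compactOperator_topologicalClosure] at h1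
  exact h.completeSpace_coe

/-- Left multiplication on compact operators. -/
noncomputable def lmul (A : X →L[ℂ] X) : Cpt X →L[ℂ] Cpt X :=
  LinearMap.mkContinuous
    { toFun := fun k => Cpt.mk (A * k.val) (k.compact.clm_comp A)
      map_add' := fun k k' => Cpt.ext' (mul_add A k.val k'.val)
      map_smul' := fun c k => Cpt.ext' (mul_smul_comm c A k.val) } ‖A‖
    fun k => norm_mul_le A k.val

/-- Right multiplication on compact operators. -/
noncomputable def rmul (A : X →L[ℂ] X) : Cpt X →L[ℂ] Cpt X :=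
  LinearMap.mkContinuous
    { toFun := fun k => Cpt.mk (k.val * A) (k.compact.comp_clm A)
      map_add' := fun k k' => Cpt.ext' (add_mul k.val k'.val A)
      map_smul' := fun c k => Cpt.ext' (smul_mul_assoc c k.val A) } ‖A‖
    fun k => (norm_mul_le k.val A).trans (le_of_eq (mul_comm _ _))

@[simp] theorem lmul_val (A : X →L[ℂ] X) (k : Cpt X) : (lmul A k).val = A * k.val := rfl

@[simp] theorem rmul_val (A : X →L[ℂ] X) (k : Cpt X) : (rmul A k).val = k.val * A := rfl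

theorem lmul_norm (A : X →L[ℂ] X) : ‖lmul A‖ ≤ ‖A‖ := LinearMap.mkContinuous_norm_le _ (norm_nonneg _) _

theorem rmul_norm (A : X →L[ℂ] X) : ‖rmul A‖ ≤ ‖A‖ := LinearMap.mkContinuous_norm_le _ (norm_nonneg _) _

theorem lmul_mul (A B : X →L[ℂ] X) : lmul (A * B) = lmul A * lmul B :=
  ContinuousLinearMap.ext fun k => Cpt.ext' (mul_assoc A B k.val)

theorem rmul_mul (A B : X →L[ℂ] X) : rmul (A * B) = rmul B * rmul A :=
  ContinuousLinearMap.ext fun k => Cpt.ext' (mul_assoc k.val A B).symm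

theorem lmul_one : lmul (1 : X →L[ℂ] X) = 1 :=
  ContinuousLinearMap.ext fun k => Cpt.ext' (one_mul k.val)

theorem rmul_one : rmul (1 : X →L[ℂ] X) = 1 :=
  ContinuousLinearMap.ext fun k => Cpt.ext' (mul_one k.val)

theorem lmul_pow (A : X →L[ℂ] X) (n : ℕ) : lmul (A ^ n) = lmul A ^ n := by
  induction n with
  | zero => rw [pow_zero, pow_zero, lmul_one]
  | succ n ih => rw [pow_succ, pow_succ, lmul_mul, ih]

theorem rmul_pow (A : X →L[ℂ] X) (n : ℕ) : rmul (A ^ n) = rmul A ^ n := by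
  induction n with
  | zero => rw [pow_zero, pow_zero, rmul_one]
  | succ n ih => rw [pow_succ', pow_succ, rmul_mul, ih]

theorem lmul_rmul (A B : X →L[ℂ] X) : lmul A * rmul B = rmul B * lmul A :=
  ContinuousLinearMap.ext fun k => Cpt.ext' (mul_assoc A k.val B).symm

theorem lmul_shift (c : ℂ) (A : X →L[ℂ] X) :
    lmul (algebraMap ℂ (X →L[ℂ] X) c - A) = algebraMap ℂ (Cpt X →L[ℂ] Cpt X) c - lmul A := by
  refine ContinuousLinearMap.ext fun k => Cpt.ext' ?_
  show (algebraMap ℂ (X →L[ℂ] X) c - A) * k.val = c • k.val - A * k.val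
  rw [sub_mul, Algebra.algebraMap_eq_smul_one, smul_mul_assoc, one_mul]

theorem rmul_shift (c : ℂ) (A : X →L[ℂ] X) :
    rmul (algebraMap ℂ (X →L[ℂ] X) c - A) = algebraMap ℂ (Cpt X →L[ℂ] Cpt X) c - rmul A := by
  refine ContinuousLinearMap.ext fun k => Cpt.ext' ?_
  show k.val * (algebraMap ℂ (X →L[ℂ] X) c - A) = c • k.val - k.val * A
  rw [mul_sub, Algebra.algebraMap_eq_smul_one, mul_smul_comm, mul_one]

theorem spectrum_lmul (A : X →L[ℂ] X) : spectrum ℂ (lmul A) ⊆ spectrum ℂ A := by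
  intro c hc hu
  apply hc
  have hu' : IsUnit (algebraMap ℂ (X →L[ℂ] X) c - A) := hu
  obtain ⟨u, hu'⟩ := hu'
  show IsUnit (algebraMap ℂ (Cpt X →L[ℂ] Cpt X) c - lmul A)
  rw [← lmul_shift, ← hu']
  refine ⟨⟨lmul u, lmul ((u⁻¹ : (X →L[ℂ] X)ˣ) : X →L[ℂ] X), ?_, ?_⟩, rfl⟩
  · rw [← lmul_mul, Units.mul_inv, lmul_one]
  · rw [← lmul_mul, Units.inv_mul, lmul_one]

theorem spectrum_rmul (A : X →L[ℂ] X) : spectrum ℂ (rmul A) ⊆ spectrum ℂ A := by
  intro c hc hu
  apply hc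
  have hu' : IsUnit (algebraMap ℂ (X →L[ℂ] X) c - A) := hu
  obtain ⟨u, hu'⟩ := hu'
  show IsUnit (algebraMap ℂ (Cpt X →L[ℂ] Cpt X) c - rmul A)
  rw [← rmul_shift, ← hu']
  refine ⟨⟨rmul u, rmul ((u⁻¹ : (X →L[ℂ] X)ˣ) : X →L[ℂ] X), ?_, ?_⟩, rfl⟩
  · rw [← rmul_mul, Units.inv_mul, rmul_one]
  · rw [← rmul_mul, Units.mul_inv, rmul_one]

/-- Local solvability on the compact operators. -/
theorem local_compact [CompleteSpace X] [Nontrivial X] {K T : X →L[ℂ] X} (hK : IsCompactOperator K)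
    {c : ℕ × ℕ → ℂ} {σ ρ : ℝ} (hσ : 0 < σ) (hσρ : σ < ρ) (hT : ∀ x ∈ spectrum ℂ T, ‖x‖ < σ)
    (hc : Summable fun e : ℕ × ℕ => ‖c e‖ * ρ ^ (e.1 + e.2)) {d : ℕ}
    (hd : ∀ e : ℕ × ℕ, e.1 + e.2 < d → c e = 0)
    (hrel : ∑' e : ℕ × ℕ, c e • (T ^ e.1 * K * T ^ e.2) = 0)
    {z₀ : ℂ} (hz₀ : ‖z₀‖ = 1)
    (hχ : ∀ x ∈ spectrum ℂ T, ∀ y ∈ spectrum ℂ T, x = z₀ * y →
      ∑' e : ℕ × ℕ, c e * (z₀ ^ e.1 * y ^ (e.1 + e.2 - d)) ≠ 0) :
    ∃ κ : ℂ → Cpt X, ∀ᶠ z in 𝓝 z₀, DifferentiableAt ℂ κ z ∧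
      z • rmul T (κ z) - lmul T (κ z) = Cpt.mk (K * T ^ d) (hK.comp_clm (T ^ d)) := by
  have : CompleteSpace (Cpt X) := Cpt.complete
  obtain ⟨C, hC, hTC⟩ := pow_bound T hσ hT
  obtain ⟨𝔄, i1, i2, i3, ι, l, r, hιn, hl, hr, hιu⟩ :=
    exists_comm_alg (lmul T) (rmul T) (lmul_rmul T T)
  have hln : ∀ n, ‖l ^ n‖ ≤ C * σ ^ n := by
    intro n
    rw [← hιn, map_pow, hl, ← lmul_pow]
    exact (lmul_norm _).trans (hTC n)
  have hrn : ∀ n, ‖r ^ n‖ ≤ C * σ ^ n := by
    intro n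
    rw [← hιn, map_pow, hr, ← rmul_pow]
    exact (rmul_norm _).trans (hTC n)
  have hspec : ∀ (a : 𝔄) (χ : characterSpace ℂ 𝔄), χ a ∈ spectrum ℂ (ι a) := by
    intro a χ hu
    have h1 : χ a ∈ spectrum ℂ a := CharacterSpace.mem_spectrum_iff_exists.2 ⟨χ, rfl⟩
    apply h1
    have hu' : IsUnit (algebraMap ℂ (Cpt X →L[ℂ] Cpt X) (χ a) - ι a) := hu
    refine hιu _ ?_
    rw [map_sub, AlgHom.commutes]
    exact hu'
  obtain ⟨ψ, α, hψ⟩ := local_solution hC.le hσ hσρ hln hrn hc hd hz₀ (by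
    intro χ h1
    have h2 : χ l ∈ spectrum ℂ T := spectrum_lmul T (hl ▸ hspec l χ)
    have h3 : χ r ∈ spectrum ℂ T := spectrum_rmul T (hr ▸ hspec r χ)
    exact hχ _ h2 _ h3 h1)
  let ιL : 𝔄 →L[ℂ] (Cpt X →L[ℂ] Cpt X) :=
    LinearMap.mkContinuous ι.toLinearMap 1 fun x => by
      rw [one_mul]
      exact (hιn x).le
  have hιL : ∀ x, ιL x = ι x := fun x => rfl
  let k : Cpt X := Cpt.mk K hK
  let ev : 𝔄 →L[ℂ] Cpt X := (ContinuousLinearMap.apply ℂ (Cpt X) k).comp ιL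
  have hev : ∀ x, ev x = ι x k := fun x => rfl
  -- the relation kills `k`
  have hFk : ι (∑' e : ℕ × ℕ, c e • (l ^ e.1 * r ^ e.2)) k = 0 := by
    have hs : Summable fun e : ℕ × ℕ => c e • (l ^ e.1 * r ^ e.2) := by
      refine (hc.mul_left (C ^ 2)).of_norm_bounded fun e => ?_
      calc ‖c e • (l ^ e.1 * r ^ e.2)‖ ≤ ‖c e‖ * ((C * σ ^ e.1) * (C * σ ^ e.2)) := by
            rw [norm_smul]
            gcongr
            exact (norm_mul_le _ _).trans (mul_le_mul (hln _) (hrn _) (norm_nonneg _) (by positivity))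
        _ = C ^ 2 * (‖c e‖ * σ ^ (e.1 + e.2)) := by ring
        _ ≤ C ^ 2 * (‖c e‖ * ρ ^ (e.1 + e.2)) := by gcongr
    have h1 : HasSum (fun e : ℕ × ℕ => ev (c e • (l ^ e.1 * r ^ e.2)))
        (ev (∑' e : ℕ × ℕ, c e • (l ^ e.1 * r ^ e.2))) := hs.hasSum.mapL ev
    have h2 : HasSum (fun e : ℕ × ℕ => (ev (c e • (l ^ e.1 * r ^ e.2))).val)
        (ev (∑' e : ℕ × ℕ, c e • (l ^ e.1 * r ^ e.2))).val := h1.mapL (Cpt.valL X)
    have h3 : (fun e : ℕ × ℕ => (ev (c e • (l ^ e.1 * r ^ e.2))).val) =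
        fun e => c e • (T ^ e.1 * K * T ^ e.2) := by
      ext1 e
      rw [hev, map_smul, map_mul, map_pow, map_pow, hl, hr, ← lmul_pow, ← rmul_pow]
      show c e • (T ^ e.1 * (K * T ^ e.2)) = _
      rw [mul_assoc]
    rw [h3] at h2
    refine Cpt.ext' ?_
    rw [← hev, ← h2.tsum_eq, hrel]
    rfl
  refine ⟨fun z => ev (ψ z), ?_⟩
  filter_upwards [hψ] with z hz
  refine ⟨ev.differentiableAt.comp z hz.1, ?_⟩
  have h4 := congrArg (fun x => ι x k) hz.2
  simp only [map_mul, map_sub, map_smul, hl, hr, map_pow] at h4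
  have h5 : (ι (α z) * ι (∑' e : ℕ × ℕ, c e • (l ^ e.1 * r ^ e.2))) k = 0 := by
    show ι (α z) (ι (∑' e : ℕ × ℕ, c e • (l ^ e.1 * r ^ e.2)) k) = 0
    rw [hFk, map_zero]
  have h6 : (rmul T ^ d - ι (α z) * ι (∑' e : ℕ × ℕ, c e • (l ^ e.1 * r ^ e.2))) k =
      (rmul T ^ d) k - (ι (α z) * ι (∑' e : ℕ × ℕ, c e • (l ^ e.1 * r ^ e.2))) k := rfl
  rw [h6, h5, sub_zero, ← rmul_pow] at h4
  exact h4

/-- **Pencils.** If `z κ A - A κ = K` has analytic compact solutions near each point of the unit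
circle then there is an invariant subspace. -/
theorem pencil [CompleteSpace X] {𝒮 : Set (X →L[ℂ] X)} {K A : X →L[ℂ] X}
    (hK : IsCompactOperator K) (hK0 : K ≠ 0) (hA : ∀ S ∈ 𝒮, S * A = A * S)
    (hA0 : ∀ c : ℂ, A ≠ c • (1 : X →L[ℂ] X))
    (hloc : ∀ z₀ : ℂ, ‖z₀‖ = 1 → ∃ κ : ℂ → Cpt X, ∀ᶠ z in 𝓝 z₀, DifferentiableAt ℂ κ z ∧
      z • rmul A (κ z) - lmul A (κ z) = Cpt.mk K hK) : HasInv 𝒮 := by
  have : CompleteSpace (Cpt X) := Cpt.complete
  obtain ⟨v, hv⟩ : ∃ x, K x ≠ 0 := by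
    by_contra hcon
    push Not at hcon
    exact hK0 (ContinuousLinearMap.ext hcon)
  have : Nontrivial X := ⟨⟨K v, 0, hv⟩⟩
  by_contra hno
  have h𝒜 := trans_adjoin hno
  have hAA := comm_adjoin hA
  have hAne : A ≠ 0 := by
    intro h
    exact hA0 0 (by rw [h, zero_smul])
  have hAker := h𝒜.ker hAA hAne
  have hAn : ∀ n : ℕ, A ^ n ≠ 0 := by
    intro n
    induction n with
    | zero =>
      rw [pow_zero]
      exact one_ne_zero
    | succ n ih =>
      intro h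
      apply ih
      ext x
      apply hAker
      have h1 : (A ^ (n + 1)) x = 0 := by rw [h]; rfl
      rw [pow_succ'] at h1
      exact h1
  have hAnc : ∀ n : ℕ, ∀ S ∈ 𝒮, S * A ^ n = A ^ n * S := fun n S hS =>
    ((show Commute S A from hA S hS).pow_right n).eq
  -- injectivity
  have hinj : ∀ (z : ℂ) (k k' : Cpt X), z • rmul A k - lmul A k = z • rmul A k' - lmul A k' → k = k' := by
    intro z k k' h
    by_contra hne
    apply hno
    refine moebius (K := (k - k').val) (k - k').compact ?_ hA hA0 (a := -1) (b := z) (c := 0)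
      (d := 0) ?_ ?_
    · intro h0
      exact hne (sub_eq_zero.1 (Cpt.ext' h0))
    · rintro ⟨h1, -⟩
      norm_num at h1
    · have h2 : z • (k.val * A) - A * k.val = z • (k'.val * A) - A * k'.val := congrArg Cpt.val h
      rw [Cpt.val_sub, zero_smul, zero_smul, add_zero, add_zero, neg_smul, one_smul, mul_sub, sub_mul,
        smul_sub]
      have h3 : z • (k.val * A) = z • (k'.val * A) - A * k'.val + A * k.val := by
        rw [← h2]; abel
      rw [h3]
      abel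
  classical
  set k₀ : Cpt X := Cpt.mk K hK with hk₀
  let κ : ℂ → Cpt X := fun z =>
    if h : ∃ k : Cpt X, z • rmul A k - lmul A k = k₀ then h.choose else 0
  let W : Set ℂ := {z | DifferentiableAt ℂ κ z ∧ z • rmul A (κ z) - lmul A (κ z) = k₀}
  have hW : sphere (0 : ℂ) 1 ⊆ interior W := by
    intro z₀ hz₀
    rw [mem_sphere_zero_iff_norm] at hz₀
    obtain ⟨κl, hκl⟩ := hloc z₀ hz₀
    have heq : ∀ᶠ z in 𝓝 z₀, κ z = κl z := by
      filter_upwards [hκl] with z hz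
      have hex : ∃ k : Cpt X, z • rmul A k - lmul A k = k₀ := ⟨κl z, hz.2⟩
      have h1 : κ z = hex.choose := dif_pos hex
      rw [h1]
      exact hinj z _ _ (hex.choose_spec.trans hz.2.symm)
    rw [mem_interior_iff_mem_nhds]
    filter_upwards [hκl, heq, heq.eventually_nhds] with z h1 h2 h3
    refine ⟨?_, ?_⟩
    · exact h1.1.congr_of_eventuallyEq h3
    · rw [h2]
      exact h1.2
  obtain ⟨δ, hδ, hδW⟩ := (isCompact_sphere (0 : ℂ) 1).exists_thickening_subset_open isOpen_interior hW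
  have hann : ∀ z : ℂ, |‖z‖ - 1| < min δ (1 / 2) →
      DifferentiableAt ℂ κ z ∧ z • rmul A (κ z) - lmul A (κ z) = k₀ := by
    intro z hz
    have hz1 : |‖z‖ - 1| < δ := hz.trans_le (min_le_left _ _)
    have hz2 : |‖z‖ - 1| < 1 / 2 := hz.trans_le (min_le_right _ _)
    have hz0 : 0 < ‖z‖ := by
      rw [abs_lt] at hz2
      linarith [hz2.1]
    have hmem : z ∈ thickening δ (sphere (0 : ℂ) 1) := by
      rw [mem_thickening_iff]
      refine ⟨(‖z‖⁻¹ : ℝ) • z, ?_, ?_⟩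
      · rw [mem_sphere_zero_iff_norm, norm_smul, norm_inv, norm_norm, inv_mul_cancel₀ hz0.ne']
      · rw [dist_eq_norm]
        have h1 : z - (‖z‖⁻¹ : ℝ) • z = (1 - ‖z‖⁻¹ : ℝ) • z := by rw [sub_smul, one_smul]
        rw [h1, norm_smul, Real.norm_eq_abs]
        have h2 : |1 - ‖z‖⁻¹| * ‖z‖ = |‖z‖ - 1| := by
          rw [← abs_of_pos hz0, ← abs_mul, abs_of_pos hz0]
          congr 1
          rw [sub_mul, one_mul, inv_mul_cancel₀ hz0.ne']
        rw [h2]
        exact hz1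
    exact (interior_subset (hδW hmem) : z ∈ W)
  obtain ⟨p, m, hp, hm, h0, hpr, hmr⟩ := laurent (lmul A) (rmul A) k₀ κ
    (lt_min hδ (by norm_num)) ((min_le_right _ _).trans_lt (by norm_num)) hann
  have hp' : Tendsto (fun n => (p n).val) atTop (𝓝 0) := by
    have := ((Cpt.valL X).continuous.tendsto (0 : Cpt X)).comp hp
    rw [map_zero] at this
    exact this
  have hm' : Tendsto (fun n => (m n).val) atTop (𝓝 0) := by
    have := ((Cpt.valL X).continuous.tendsto (0 : Cpt X)).comp hm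
    rw [map_zero] at this
    exact this
  have hpr' : ∀ n, A * (p (n + 1)).val = (p n).val * A := fun n => congrArg Cpt.val (hpr n)
  have hmr' : ∀ n, A * (m n).val = (m (n + 1)).val * A := fun n => congrArg Cpt.val (hmr n)
  have hm1 : (m 0).val * A = 0 := by
    by_contra hne
    apply hno
    refine slide_left (K := (m 0).val * A) ((m 0).compact.comp_clm A) hne (A := fun n => A ^ n)
      (Kn := fun n => (m n).val * A) hAnc hAn ?_ (by simpa using hm'.mul_const A)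
    intro n
    have h1 : ∀ n : ℕ, A ^ n * (m 0).val = (m n).val * A ^ n := by
      intro n
      induction n with
      | zero => rw [pow_zero, one_mul, mul_one]
      | succ n ih => rw [pow_succ', mul_assoc, ih, ← mul_assoc, hmr', mul_assoc]
    rw [← mul_assoc, h1, mul_assoc, mul_assoc, ← pow_succ, ← pow_succ']
  have hp1 : A * (p 0).val = 0 := by
    by_contra hne
    apply hno
    refine slide_right (K := A * (p 0).val) ((p 0).compact.clm_comp A) hne (A := fun n => A ^ n)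
      (Kn := fun n => A * (p n).val) hAnc hAn ?_ (by simpa using hp'.const_mul A)
    intro n
    have h1 : ∀ n : ℕ, (p 0).val * A ^ n = A ^ n * (p n).val := by
      intro n
      induction n with
      | zero => rw [pow_zero, one_mul, mul_one]
      | succ n ih => rw [pow_succ, ← mul_assoc, ih, mul_assoc, ← hpr', ← mul_assoc]
    rw [mul_assoc, h1, ← mul_assoc, ← mul_assoc, ← pow_succ, ← pow_succ']
  have h2 : (m 0).val * A - A * (p 0).val = K := congrArg Cpt.val h0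
  apply hK0
  rw [← h2, hm1, hp1, sub_zero]

/-- Multiplication by a nonzero operator of the commutant is injective. -/
theorem mul_ne [CompleteSpace X] {𝒮 : Set (X →L[ℂ] X)} (hno : ¬ HasInv 𝒮) {K A : X →L[ℂ] X}
    (hK0 : K ≠ 0) (hA : ∀ S ∈ 𝒮, S * A = A * S) (hA0 : A ≠ 0) : K * A ≠ 0 ∧ A * K ≠ 0 := by
  have h𝒜 := trans_adjoin hno
  constructor
  · intro h
    apply hK0
    have hr := h𝒜.range (comm_adjoin hA) hA0
    have hle : (LinearMap.range (A : X →ₗ[ℂ] X)).topologicalClosure ≤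
        LinearMap.ker (K : X →ₗ[ℂ] X) := by
      refine Submodule.topologicalClosure_minimal _ ?_ K.isClosed_ker
      rintro _ ⟨x, rfl⟩
      have h5 : (K * A) x = 0 := by rw [h]; rfl
      exact h5
    rw [hr] at hle
    ext x
    exact hle (Submodule.mem_top : x ∈ ⊤)
  · intro h
    apply hK0
    ext x
    refine h𝒜.ker (comm_adjoin hA) hA0 (K x) ?_
    have h5 : (A * K) x = 0 := by rw [h]; rfl
    exact h5

theorem pow_ne [CompleteSpace X] {𝒮 : Set (X →L[ℂ] X)} (hno : ¬ HasInv 𝒮) {A : X →L[ℂ] X}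
    (hA : ∀ S ∈ 𝒮, S * A = A * S) (hA0 : A ≠ 0) (n : ℕ) : A ^ n ≠ 0 := by
  induction n with
  | zero =>
    intro h
    apply hA0
    rw [pow_zero] at h
    rw [← mul_one A, h, mul_zero]
  | succ n ih =>
    rw [pow_succ]
    exact (mul_ne hno ih hA hA0).1

/-- **Analytic relations.** -/
theorem corr [CompleteSpace X] {𝒮 : Set (X →L[ℂ] X)} {K T : X →L[ℂ] X}
    (hK : IsCompactOperator K) (hK0 : K ≠ 0) (hT : ∀ S ∈ 𝒮, S * T = T * S)
    (hT0 : ∀ c : ℂ, T ≠ c • (1 : X →L[ℂ] X)) {c : ℕ × ℕ → ℂ} {σ ρ : ℝ} (hσ : 0 < σ) (hσρ : σ < ρ)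
    (hTσ : ∀ x ∈ spectrum ℂ T, ‖x‖ < σ)
    (hc : Summable fun e : ℕ × ℕ => ‖c e‖ * ρ ^ (e.1 + e.2)) {d : ℕ}
    (hd : ∀ e : ℕ × ℕ, e.1 + e.2 < d → c e = 0)
    (hrel : ∑' e : ℕ × ℕ, c e • (T ^ e.1 * K * T ^ e.2) = 0)
    (hχ : ∀ z : ℂ, ‖z‖ = 1 → ∀ x ∈ spectrum ℂ T, ∀ y ∈ spectrum ℂ T, x = z * y →
      ∑' e : ℕ × ℕ, c e * (z ^ e.1 * y ^ (e.1 + e.2 - d)) ≠ 0) : HasInv 𝒮 := by
  obtain ⟨v, hv⟩ : ∃ x, K x ≠ 0 := by
    by_contra hcon
    push Not at hcon
    exact hK0 (ContinuousLinearMap.ext hcon)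
  have : Nontrivial X := ⟨⟨K v, 0, hv⟩⟩
  by_contra hno
  have hTne : T ≠ 0 := by
    intro h
    exact hT0 0 (by rw [h, zero_smul])
  have hTn := pow_ne hno hT hTne d
  have hTnc : ∀ S ∈ 𝒮, S * T ^ d = T ^ d * S := fun S hS =>
    ((show Commute S T from hT S hS).pow_right d).eq
  exact hno (pencil (hK.comp_clm (T ^ d)) (mul_ne hno hK0 hTnc hTn).1 hT hT0 fun z₀ hz₀ =>
    local_compact hK hσ hσρ hTσ hc hd hrel hz₀ (hχ z₀ hz₀))

end Pool.Agent.J6H99.CS
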