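import Mathlib
import Pool.Agent.J6H99.CS.Main

/-!
Analytic functions of an operator on a disc, and compact operators which intertwine an operator with
an analytic function of it.
-/

set_option autoImplicit false

open Filter Topology Metric Set Polynomial

namespace Pool.Agent.J6H99.CS

theorem iter_eval (p : ℂ[X]) (k : ℕ) :
    iteratedDeriv k (fun z => p.eval z) = fun z => (derivative^[k] p).eval z := by
  induction k with
  | zero => rw [iteratedDeriv_zero]; rfl
  | succ k ih =>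
    rw [iteratedDeriv_succ, ih]
    funext z
    rw [Function.iterate_succ_apply', Polynomial.deriv]

theorem coeff_bound (p : ℂ[X]) {r m : ℝ} (hr : 0 < r) (h : ∀ z : ℂ, ‖z‖ = r → ‖p.eval z‖ ≤ m)
    (k : ℕ) : ‖p.coeff k‖ ≤ m / r ^ k := by
  have h1 := Complex.norm_iteratedDeriv_le_of_forall_mem_sphere_norm_le (f := fun z => p.eval z)
    (c := 0) k hr (p.differentiable.diffContOnCl) (C := m) (by
      intro z hz
      rw [mem_sphere, dist_zero_right] at hz
      exact h z hz)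
  rw [iter_eval] at h1
  have h2 : (derivative^[k] p).eval 0 = (k.factorial : ℂ) * p.coeff k := by
    rw [← coeff_zero_eq_eval_zero, coeff_iterate_derivative]
    simp [Nat.descFactorial_self]
  simp only [h2, norm_mul, Complex.norm_natCast] at h1
  have h3 : (0 : ℝ) < k.factorial := by exact_mod_cast k.factorial_pos
  rw [mul_div_assoc] at h1
  exact le_of_mul_le_mul_left h1 h3

variable {B : Type*} [NormedRing B] [NormedAlgebra ℂ B]

theorem aeval_bound {T : B} {r₀ r C : ℝ} (h0 : 0 < r₀) (h1 : r₀ < r) (hC : 0 ≤ C)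
    (hT : ∀ n, ‖T ^ n‖ ≤ C * r₀ ^ n) (p : ℂ[X]) {m : ℝ}
    (h : ∀ z : ℂ, ‖z‖ ≤ r → ‖p.eval z‖ ≤ m) :
    ‖aeval T p‖ ≤ (C * (1 - r₀ / r)⁻¹) * m := by
  have hr : 0 < r := h0.trans h1
  have hm : 0 ≤ m := (norm_nonneg _).trans (h 0 (by rw [norm_zero]; exact hr.le))
  have hq0 : 0 ≤ r₀ / r := by positivity
  have hq1 : r₀ / r < 1 := (div_lt_one hr).2 h1
  rw [aeval_eq_sum_range]
  calc ‖∑ i ∈ Finset.range (p.natDegree + 1), p.coeff i • T ^ i‖
      ≤ ∑ i ∈ Finset.range (p.natDegree + 1), (m * C) * (r₀ / r) ^ i := by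
        refine (norm_sum_le _ _).trans (Finset.sum_le_sum fun i _ => ?_)
        rw [norm_smul]
        have h2 := coeff_bound p hr (fun z hz => h z hz.le) i
        have h3 : 0 ≤ m / r ^ i := by positivity
        calc ‖p.coeff i‖ * ‖T ^ i‖ ≤ (m / r ^ i) * (C * r₀ ^ i) :=
              mul_le_mul h2 (hT i) (norm_nonneg _) h3
          _ = (m * C) * (r₀ / r) ^ i := by rw [div_pow]; ring
    _ = (m * C) * ∑ i ∈ Finset.range (p.natDegree + 1), (r₀ / r) ^ i := by rw [Finset.mul_sum]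
    _ ≤ (m * C) * (1 - r₀ / r)⁻¹ := by
        refine mul_le_mul_of_nonneg_left ?_ (by positivity)
        rw [← tsum_geometric_of_lt_one hq0 hq1]
        exact (summable_geometric_of_lt_one hq0 hq1).sum_le_tsum _ (fun i _ => by positivity)
    _ = (C * (1 - r₀ / r)⁻¹) * m := by ring

/-- `A` is the value of the function `f` at `T`: there are polynomials which are close to `f` on the
given closed disc of radius less than `R`, and whose values at `T` are close to `A`. -/
def Val (R : ℝ) (T : B) (f : ℂ → ℂ) (A : B) : Prop :=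
  ∀ r : ℝ, r < R → ∀ ε : ℝ, 0 < ε → ∃ p : ℂ[X],
    (∀ z : ℂ, ‖z‖ ≤ r → ‖p.eval z - f z‖ ≤ ε) ∧ ‖aeval T p - A‖ ≤ ε

theorem Val.bound {R : ℝ} {T : B} {f : ℂ → ℂ} {A : B} (hf : Val R T f A) {r c m : ℝ} (hr : r < R)
    (hc : 0 ≤ c) (hb : ∀ (p : ℂ[X]) (m : ℝ), (∀ z : ℂ, ‖z‖ ≤ r → ‖p.eval z‖ ≤ m) → ‖aeval T p‖ ≤ c * m)
    (h : ∀ z : ℂ, ‖z‖ ≤ r → ‖f z‖ ≤ m) : ‖A‖ ≤ c * m := by
  refine le_of_forall_pos_le_add fun ε hε => ?_
  have hδ : 0 < ε / (c + 1) := by positivity
  obtain ⟨p, hp, hpA⟩ := hf r hr (ε / (c + 1)) hδ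
  have h1 : ∀ z : ℂ, ‖z‖ ≤ r → ‖p.eval z‖ ≤ m + ε / (c + 1) := by
    intro z hz
    have h2 := norm_add_le (p.eval z - f z) (f z)
    rw [sub_add_cancel] at h2
    linarith [hp z hz, h z hz]
  have h2 := hb p _ h1
  have h3 : ‖A‖ ≤ ‖aeval T p‖ + ‖aeval T p - A‖ := by
    have := norm_sub_le (aeval T p) (aeval T p - A)
    rwa [sub_sub_cancel] at this
  have h4 : (c + 1) * (ε / (c + 1)) = ε := by
    field_simp
  nlinarith

theorem Val.bdd {R : ℝ} {T : B} {f : ℂ → ℂ} {A : B} (hf : Val R T f A) {r : ℝ} (hr : r < R) :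
    ∃ m : ℝ, 0 ≤ m ∧ ∀ z : ℂ, ‖z‖ ≤ r → ‖f z‖ ≤ m := by
  obtain ⟨p, hp, _⟩ := hf r hr 1 one_pos
  obtain ⟨m, hm⟩ := (isCompact_closedBall (0 : ℂ) r).exists_bound_of_continuousOn
    p.continuous.continuousOn
  refine ⟨|m| + 1, by positivity, fun z hz => ?_⟩
  have h1 := hm z (by rwa [mem_closedBall, dist_zero_right])
  have h2 := norm_sub_le (p.eval z) (p.eval z - f z)
  rw [sub_sub_cancel] at h2
  linarith [hp z hz, le_abs_self m]

theorem Val.add {R : ℝ} {T : B} {f g : ℂ → ℂ} {A A' : B} (hf : Val R T f A) (hg : Val R T g A') :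
    Val R T (fun z => f z + g z) (A + A') := by
  intro r hr ε hε
  obtain ⟨p, hp, hpA⟩ := hf r hr (ε / 2) (by positivity)
  obtain ⟨q, hq, hqA⟩ := hg r hr (ε / 2) (by positivity)
  refine ⟨p + q, fun z hz => ?_, ?_⟩
  · have : (p + q).eval z - (f z + g z) = (p.eval z - f z) + (q.eval z - g z) := by
      rw [eval_add]; ring
    rw [this]
    linarith [norm_add_le (p.eval z - f z) (q.eval z - g z), hp z hz, hq z hz]
  · have : aeval T (p + q) - (A + A') = (aeval T p - A) + (aeval T q - A') := by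
      rw [map_add]; abel
    rw [this]
    linarith [norm_add_le (aeval T p - A) (aeval T q - A')]

theorem Val.mul {R : ℝ} {T : B} {f g : ℂ → ℂ} {A A' : B} (hf : Val R T f A) (hg : Val R T g A') :
    Val R T (fun z => f z * g z) (A * A') := by
  intro r hr ε hε
  obtain ⟨mf, hmf0, hmf⟩ := hf.bdd hr
  obtain ⟨mg, hmg0, hmg⟩ := hg.bdd hr
  set N : ℝ := mf + mg + ‖A‖ + ‖A'‖ + 1 with hN
  have hN1 : 1 ≤ N := by
    have := norm_nonneg A
    have := norm_nonneg A'
    rw [hN]; linarith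
  have hN0 : 0 < N := by linarith
  set δ : ℝ := min 1 (ε / N) with hδ
  have hδ0 : 0 < δ := lt_min one_pos (by positivity)
  have hδ1 : δ ≤ 1 := min_le_left _ _
  have hδN : δ * N ≤ ε := by
    have := min_le_right 1 (ε / N)
    rw [← hδ, le_div_iff₀ hN0] at this
    exact this
  obtain ⟨p, hp, hpA⟩ := hf r hr δ hδ0
  obtain ⟨q, hq, hqA⟩ := hg r hr δ hδ0
  refine ⟨p * q, fun z hz => ?_, ?_⟩
  · have h1 : (p * q).eval z - f z * g z = p.eval z * (q.eval z - g z) + (p.eval z - f z) * g z := by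
      rw [eval_mul]; ring
    rw [h1]
    refine (norm_add_le _ _).trans ?_
    rw [norm_mul, norm_mul]
    have h2 : ‖p.eval z‖ ≤ mf + 1 := by
      have h2 := norm_add_le (p.eval z - f z) (f z)
      rw [sub_add_cancel] at h2
      linarith [hp z hz, hmf z hz]
    have h3 : ‖p.eval z‖ * ‖q.eval z - g z‖ ≤ (mf + 1) * δ :=
      mul_le_mul h2 (hq z hz) (norm_nonneg _) (by linarith)
    have h4 : ‖p.eval z - f z‖ * ‖g z‖ ≤ δ * mg :=
      mul_le_mul (hp z hz) (hmg z hz) (norm_nonneg _) hδ0.le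
    have h5 : 0 ≤ δ * ‖A‖ := by positivity
    have h6 : 0 ≤ δ * ‖A'‖ := by positivity
    have h7 : δ * N = (mf + 1) * δ + δ * mg + δ * ‖A‖ + δ * ‖A'‖ := by rw [hN]; ring
    linarith
  · have h1 : aeval T (p * q) - A * A' = aeval T p * (aeval T q - A') + (aeval T p - A) * A' := by
      rw [map_mul]; noncomm_ring
    rw [h1]
    refine (norm_add_le _ _).trans ?_
    have h2 : ‖aeval T p‖ ≤ ‖A‖ + 1 := by
      have h2 := norm_add_le (aeval T p - A) A
      rw [sub_add_cancel] at h2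
      linarith
    have h3 : ‖aeval T p * (aeval T q - A')‖ ≤ (‖A‖ + 1) * δ :=
      (norm_mul_le _ _).trans (mul_le_mul h2 hqA (norm_nonneg _) (by positivity))
    have h4 : ‖(aeval T p - A) * A'‖ ≤ δ * ‖A'‖ :=
      (norm_mul_le _ _).trans (mul_le_mul_of_nonneg_right hpA (norm_nonneg _))
    have h5 : 0 ≤ δ * mf := by positivity
    have h6 : 0 ≤ δ * mg := by positivity
    have h7 : δ * N = (‖A‖ + 1) * δ + δ * ‖A'‖ + δ * mf + δ * mg := by rw [hN]; ring
    linarith

theorem Val.poly {R : ℝ} {T : B} (p : ℂ[X]) : Val R T (fun z => p.eval z) (aeval T p) := by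
  intro r hr ε hε
  refine ⟨p, fun z hz => ?_, ?_⟩
  · rw [sub_self, norm_zero]; exact hε.le
  · rw [sub_self, norm_zero]; exact hε.le

theorem Val.comp_poly {R : ℝ} {T H : B} {h : ℂ → ℂ} (hh : Val R T h H) (p : ℂ[X]) :
    Val R T (fun z => p.eval (h z)) (aeval H p) := by
  induction p using Polynomial.induction_on' with
  | add p q hp hq =>
    have h1 := hp.add hq
    simp only [eval_add, map_add]
    exact h1
  | monomial n a =>
    have hpow : ∀ n : ℕ, Val R T (fun z => h z ^ n) (H ^ n) := by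
      intro n
      induction n with
      | zero =>
        have h1 := Val.poly (R := R) (T := T) (1 : ℂ[X])
        simp only [eval_one, map_one] at h1
        simpa only [pow_zero] using h1
      | succ n ih =>
        have h1 := ih.mul hh
        simpa only [pow_succ] using h1
    have h2 := (Val.poly (R := R) (T := T) (C a)).mul (hpow n)
    simp only [eval_C, aeval_C] at h2
    simp only [eval_monomial, aeval_monomial]
    exact h2

theorem Val.sub_ {R : ℝ} {T : B} {f g : ℂ → ℂ} {A A' : B} (hf : Val R T f A) (hg : Val R T g A') :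
    Val R T (fun z => f z - g z) (A - A') := by
  have h1 := (Val.poly (R := R) (T := T) (C (-1 : ℂ))).mul hg
  have h2 := hf.add h1
  have e1 : (fun z => f z + (C (-1 : ℂ)).eval z * g z) = fun z => f z - g z := by
    funext z; rw [eval_C]; ring
  have e2 : A + aeval T (C (-1 : ℂ)) * A' = A - A' := by
    rw [aeval_C, map_neg, map_one, neg_one_mul]; abel
  rw [e1, e2] at h2
  exact h2

/-- A norm bound for the polynomials in `T` by their suprema on a disc of radius less than `R`. -/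
def Bd (R : ℝ) (T : B) : Prop := ∃ r c : ℝ, r < R ∧ 0 ≤ c ∧
  ∀ (p : ℂ[X]) (m : ℝ), (∀ z : ℂ, ‖z‖ ≤ r → ‖p.eval z‖ ≤ m) → ‖aeval T p‖ ≤ c * m

theorem bd_of_spectrum [CompleteSpace B] [Nontrivial B] {R : ℝ} {T : B}
    (hR : ∀ c ∈ spectrum ℂ T, ‖c‖ < R) : Bd R T ∧ ∃ r₀ C : ℝ, 0 < r₀ ∧ r₀ < R ∧ 0 ≤ C ∧
      ∀ n, ‖T ^ n‖ ≤ C * r₀ ^ n := by
  obtain ⟨k, hk, hkm⟩ := (spectrum.isCompact T).exists_isMaxOn (spectrum.nonempty T)
    continuous_norm.continuousOn
  have hk1 := hR k hk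
  have hR0 : 0 < R := (norm_nonneg k).trans_lt hk1
  obtain ⟨r₀, h1, h2⟩ := exists_between hk1
  obtain ⟨r, h3, h4⟩ := exists_between h2
  have h0 : 0 < r₀ := (norm_nonneg k).trans_lt h1
  obtain ⟨C, hC, hCn⟩ := pow_bound T h0 (fun c hc => by
    have : ‖c‖ ≤ ‖k‖ := hkm hc
    linarith)
  have hr : 0 < r := h0.trans h3
  have hq1 : r₀ / r < 1 := (div_lt_one hr).2 h3
  refine ⟨⟨r, C * (1 - r₀ / r)⁻¹, h4, ?_, fun p m hp => aeval_bound h0 h3 hC.le hCn p hp⟩,
    r₀, C, h0, h2, hC.le, hCn⟩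
  exact mul_nonneg hC.le (inv_nonneg.2 (by linarith))

theorem Val.unique {R : ℝ} {T : B} {f : ℂ → ℂ} {A A' : B} (hB : Bd R T) (hf : Val R T f A)
    (hf' : Val R T f A') : A = A' := by
  obtain ⟨r, c, hr, hc, hb⟩ := hB
  have h1 := (hf.sub_ hf').bound hr hc hb (m := 0) (fun z _ => by rw [sub_self, norm_zero])
  rw [mul_zero] at h1
  exact sub_eq_zero.1 (norm_le_zero_iff.1 h1)

theorem Val.commute {R : ℝ} {T : B} {f : ℂ → ℂ} {A : B} (hf : Val R T f A) {S : B}
    (hS : S * T = T * S) : S * A = A * S := by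
  rw [← sub_eq_zero]
  refine norm_le_zero_iff.1 (le_of_forall_pos_le_add fun ε hε => ?_)
  have hδ : 0 < ε / (2 * ‖S‖ + 1) := by positivity
  obtain ⟨p, _, hp⟩ := hf (R - 1) (by linarith) _ hδ
  have h1 : S * aeval T p = aeval T p * S := by
    have hc : Commute S T := hS
    have hc' : Commute S (aeval T p) := by
      rw [aeval_eq_sum_range]
      refine Commute.sum_right _ _ _ fun i _ => ?_
      exact (hc.pow_right i).smul_right _
    exact hc'.eq
  have h2 : S * A - A * S = (aeval T p - A) * S - S * (aeval T p - A) := by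
    rw [sub_mul, mul_sub, h1]; abel
  rw [h2, zero_add]
  have h3 : ‖(aeval T p - A) * S - S * (aeval T p - A)‖ ≤ 2 * ‖S‖ * (ε / (2 * ‖S‖ + 1)) := by
    refine (norm_sub_le _ _).trans ?_
    have h4 : ‖(aeval T p - A) * S‖ ≤ (ε / (2 * ‖S‖ + 1)) * ‖S‖ :=
      (norm_mul_le _ _).trans (mul_le_mul_of_nonneg_right hp (norm_nonneg _))
    have h5 : ‖S * (aeval T p - A)‖ ≤ ‖S‖ * (ε / (2 * ‖S‖ + 1)) :=
      (norm_mul_le _ _).trans (mul_le_mul_of_nonneg_left hp (norm_nonneg _))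
    linarith
  have h6 : (2 * ‖S‖ + 1) * (ε / (2 * ‖S‖ + 1)) = ε := by
    field_simp
  nlinarith

/-- **Composition.** -/
theorem Val.comp_ [CompleteSpace B] {R₁ R₂ : ℝ} {T H A : B} {h f : ℂ → ℂ} (hB : Bd R₁ T)
    (hh : Val R₁ T h H) (hcont : ContinuousOn h (ball 0 R₁))
    (hmaps : ∀ z : ℂ, ‖z‖ < R₁ → ‖h z‖ < R₂) (hf : Val R₂ T f A) :
    ∃ A' : B, Val R₁ T (fun z => f (h z)) A' ∧ ∀ K : B, (K * T = H * K → K * A = A' * K) ∧
      (T * K = K * H → A * K = K * A') := by
  have hm : ∀ r : ℝ, r < R₁ → ∃ m : ℝ, m < R₂ ∧ ∀ z : ℂ, ‖z‖ ≤ r → ‖h z‖ ≤ m := by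
    intro r hr
    by_cases hr0 : r < 0
    · refine ⟨R₂ - 1, by linarith, fun z hz => ?_⟩
      exact absurd ((norm_nonneg z).trans hz) (not_le.2 hr0)
    · push Not at hr0
      obtain ⟨w, hw, hwm⟩ := (isCompact_closedBall (0 : ℂ) r).exists_isMaxOn
        ⟨0, mem_closedBall_self hr0⟩ ((hcont.mono (closedBall_subset_ball hr)).norm)
      rw [mem_closedBall, dist_zero_right] at hw
      refine ⟨‖h w‖, hmaps w (hw.trans_lt hr), fun z hz => ?_⟩
      exact hwm (show z ∈ closedBall (0 : ℂ) r by rwa [mem_closedBall, dist_zero_right])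
  have hex : ∀ j : ℕ, ∃ p : ℂ[X], (∀ z : ℂ, ‖z‖ ≤ R₂ - 1 / ((j : ℝ) + 1) →
      ‖p.eval z - f z‖ ≤ 1 / ((j : ℝ) + 1)) ∧ ‖aeval T p - A‖ ≤ 1 / ((j : ℝ) + 1) := by
    intro j
    have hj : (0 : ℝ) < 1 / ((j : ℝ) + 1) := Nat.one_div_pos_of_nat
    exact hf _ (by linarith) _ hj
  choose p hp hpA using hex
  have hlim0 : Tendsto (fun j : ℕ => 1 / ((j : ℝ) + 1)) atTop (𝓝 0) :=
    tendsto_one_div_add_atTop_nhds_zero_nat
  -- uniform approximation on the images
  have happ : ∀ r : ℝ, r < R₁ → ∀ᶠ j : ℕ in atTop, ∀ z : ℂ, ‖z‖ ≤ r →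
      ‖(p j).eval (h z) - f (h z)‖ ≤ 1 / ((j : ℝ) + 1) := by
    intro r hr
    obtain ⟨m, hm1, hm2⟩ := hm r hr
    filter_upwards [hlim0.eventually_lt_const (show (0 : ℝ) < R₂ - m by linarith)] with j hj z hz
    exact hp j (h z) ((hm2 z hz).trans (by linarith))
  obtain ⟨r, c, hr, hc, hb⟩ := hB
  have hcau : CauchySeq (fun j => aeval H (p j)) := by
    rw [Metric.cauchySeq_iff']
    intro ε hε
    have hδ : 0 < ε / (2 * (c + 1)) := by positivity
    obtain ⟨N, hN⟩ := eventually_atTop.1 ((happ r hr).and (hlim0.eventually_lt_const hδ))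
    refine ⟨N, fun n hn => ?_⟩
    rw [dist_eq_norm]
    have h1 := hh.comp_poly (p n - p N)
    rw [map_sub] at h1
    have h2 := h1.bound hr hc hb (m := ε / (c + 1)) (by
      intro z hz
      have e1 := (hN n hn).1 z hz
      have e2 := (hN N le_rfl).1 z hz
      have e3 := (hN n hn).2
      have e4 := (hN N le_rfl).2
      have e5 : (p n - p N).eval (h z) = ((p n).eval (h z) - f (h z)) - ((p N).eval (h z) - f (h z)) := by
        rw [eval_sub]; ring
      rw [e5]
      have e6 : ε / (c + 1) = ε / (2 * (c + 1)) + ε / (2 * (c + 1)) := by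
        field_simp
        norm_num
      rw [e6]
      refine (norm_sub_le _ _).trans ?_
      linarith)
    refine h2.trans_lt ?_
    rw [mul_div_assoc', div_lt_iff₀ (by positivity)]
    nlinarith
  obtain ⟨A', hA'⟩ := cauchySeq_tendsto_of_complete hcau
  have hA : Tendsto (fun j => aeval T (p j)) atTop (𝓝 A) := by
    rw [tendsto_iff_norm_sub_tendsto_zero]
    exact squeeze_zero (fun j => norm_nonneg _) hpA hlim0
  refine ⟨A', ?_, fun K => ⟨fun hK => ?_, fun hK => ?_⟩⟩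
  · intro r' hr' ε hε
    have h1 := (tendsto_iff_norm_sub_tendsto_zero.1 hA').eventually_lt_const
      (show (0 : ℝ) < ε / 2 by positivity)
    obtain ⟨j, hj1, hj2, hj3⟩ := ((happ r' hr').and ((hlim0.eventually_lt_const
      (show (0 : ℝ) < ε / 2 by positivity)).and h1)).exists
    obtain ⟨q, hq1, hq2⟩ := hh.comp_poly (p j) r' hr' (ε / 2) (by positivity)
    refine ⟨q, fun z hz => ?_, ?_⟩
    · have e1 : q.eval z - f (h z) = (q.eval z - (p j).eval (h z)) + ((p j).eval (h z) - f (h z)) := by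
        ring
      rw [e1]
      linarith [norm_add_le (q.eval z - (p j).eval (h z)) ((p j).eval (h z) - f (h z)), hq1 z hz,
        hj1 z hz]
    · have e1 : aeval T q - A' = (aeval T q - aeval H (p j)) + (aeval H (p j) - A') := by abel
      rw [e1]
      linarith [norm_add_le (aeval T q - aeval H (p j)) (aeval H (p j) - A')]
  · refine tendsto_nhds_unique (hA.const_mul K) ((hA'.mul_const K).congr fun j => ?_)
    have hpw : ∀ n : ℕ, K * T ^ n = H ^ n * K := by
      intro n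
      induction n with
      | zero => rw [pow_zero, pow_zero, mul_one, one_mul]
      | succ n ih => rw [pow_succ, ← mul_assoc, ih, mul_assoc, hK, ← mul_assoc, ← pow_succ]
    rw [aeval_eq_sum_range, aeval_eq_sum_range, Finset.sum_mul, Finset.mul_sum]
    refine Finset.sum_congr rfl fun i _ => ?_
    rw [smul_mul_assoc, mul_smul_comm, hpw]
  · refine tendsto_nhds_unique (hA.mul_const K) ((hA'.const_mul K).congr fun j => ?_)
    have hpw : ∀ n : ℕ, T ^ n * K = K * H ^ n := by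
      intro n
      induction n with
      | zero => rw [pow_zero, pow_zero, mul_one, one_mul]
      | succ n ih => rw [pow_succ', mul_assoc, ih, ← mul_assoc, hK, mul_assoc, ← pow_succ']
    rw [aeval_eq_sum_range, aeval_eq_sum_range, Finset.sum_mul, Finset.mul_sum]
    refine Finset.sum_congr rfl fun i _ => ?_
    rw [smul_mul_assoc, mul_smul_comm, hpw]

/-- Power series. -/
theorem coeff_summable {R : ℝ} {a : ℕ → ℂ} (ha : ∀ z : ℂ, ‖z‖ < R → Summable fun n => a n * z ^ n)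
    {r : ℝ} (hr0 : 0 ≤ r) (hr : r < R) : Summable fun n => ‖a n‖ * r ^ n := by
  obtain ⟨s, h1, h2⟩ := exists_between hr
  have hs : 0 < s := hr0.trans_lt h1
  have h3 := (ha (s : ℂ) (by rwa [Complex.norm_real, Real.norm_of_nonneg hs.le])).tendsto_atTop_zero
  obtain ⟨M, hM⟩ := (Metric.isBounded_range_of_tendsto _ h3).exists_norm_le
  have h4 : ∀ n, ‖a n‖ * s ^ n ≤ M := by
    intro n
    have := hM (a n * (s : ℂ) ^ n) ⟨n, rfl⟩
    rwa [norm_mul, norm_pow, Complex.norm_real, Real.norm_of_nonneg hs.le] at this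
  refine Summable.of_nonneg_of_le (fun n => by positivity) (fun n => ?_)
    ((summable_geometric_of_lt_one (show 0 ≤ r / s by positivity) ((div_lt_one hs).2 h1)).mul_left M)
  have h5 : 0 ≤ (r / s) ^ n := by positivity
  calc ‖a n‖ * r ^ n = (‖a n‖ * s ^ n) * (r / s) ^ n := by
        rw [div_pow]; field_simp
    _ ≤ M * (r / s) ^ n := mul_le_mul_of_nonneg_right (h4 n) h5

theorem val_series [CompleteSpace B] {R : ℝ} {T : B} {a : ℕ → ℂ}
    (ha : ∀ z : ℂ, ‖z‖ < R → Summable fun n => a n * z ^ n)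
    {r₀ C : ℝ} (h0 : 0 < r₀) (hr₀ : r₀ < R) (hC : 0 ≤ C) (hT : ∀ n, ‖T ^ n‖ ≤ C * r₀ ^ n) :
    Val R T (fun z => ∑' n, a n * z ^ n) (∑' n, a n • T ^ n) := by
  intro r hr ε hε
  set r' : ℝ := max r 0 with hr'
  have hr'0 : 0 ≤ r' := le_max_right _ _
  have hr'R : r' < R := max_lt hr (h0.trans hr₀)
  have hs1 := coeff_summable ha hr'0 hr'R
  have hs2 := coeff_summable ha h0.le hr₀
  have hu := tendstoUniformlyOn_tsum_nat (s := closedBall (0 : ℂ) r') hs1
    (f := fun n z => a n * z ^ n) (fun n z hz => by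
      rw [mem_closedBall, dist_zero_right] at hz
      rw [norm_mul, norm_pow]
      exact mul_le_mul_of_nonneg_left (pow_le_pow_left₀ (norm_nonneg _) hz _) (norm_nonneg _))
  have hsT : Summable fun n => a n • T ^ n := by
    refine Summable.of_norm_bounded (hs2.mul_left C) fun n => ?_
    rw [norm_smul]
    calc ‖a n‖ * ‖T ^ n‖ ≤ ‖a n‖ * (C * r₀ ^ n) := mul_le_mul_of_nonneg_left (hT n) (norm_nonneg _)
      _ = C * (‖a n‖ * r₀ ^ n) := by ring
  have hl := hsT.hasSum.tendsto_sum_nat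
  rw [Metric.tendstoUniformlyOn_iff] at hu
  obtain ⟨N, hN1, hN2⟩ := ((hu ε hε).and
    ((tendsto_iff_norm_sub_tendsto_zero.1 hl).eventually_lt_const hε)).exists
  refine ⟨∑ n ∈ Finset.range N, Polynomial.monomial n (a n), fun z hz => ?_, ?_⟩
  · have h1 := hN1 z (by
      rw [mem_closedBall, dist_zero_right]
      exact hz.trans (le_max_left _ _))
    rw [dist_comm, dist_eq_norm] at h1
    rw [eval_finset_sum]
    simp only [eval_monomial]
    exact h1.le
  · rw [map_sum]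
    simp only [aeval_monomial, ← Algebra.smul_def]
    exact hN2.le

theorem series_cont {R : ℝ} {a : ℕ → ℂ} (ha : ∀ z : ℂ, ‖z‖ < R → Summable fun n => a n * z ^ n) :
    ContinuousOn (fun z => ∑' n, a n * z ^ n) (ball (0 : ℂ) R) := by
  intro z hz
  rw [mem_ball, dist_zero_right] at hz
  obtain ⟨r, h1, h2⟩ := exists_between hz
  have hr0 : 0 ≤ r := (norm_nonneg z).trans h1.le
  have hs := coeff_summable ha hr0 h2
  have hc : ContinuousOn (fun z => ∑' n, a n * z ^ n) (closedBall (0 : ℂ) r) := by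
    refine continuousOn_tsum (fun n => by fun_prop) hs fun n z hz => ?_
    rw [mem_closedBall, dist_zero_right] at hz
    rw [norm_mul, norm_pow]
    exact mul_le_mul_of_nonneg_left (pow_le_pow_left₀ (norm_nonneg _) hz _) (norm_nonneg _)
  refine (hc.continuousAt ?_).continuousWithinAt
  exact closedBall_mem_nhds_of_mem (by rwa [mem_ball, dist_zero_right])

variable {X : Type*} [NormedAddCommGroup X] [NormedSpace ℂ X]

/-- **Analytic self-maps of a disc.** -/
theorem disc [CompleteSpace X] {𝒮 : Set (X →L[ℂ] X)} {K T : X →L[ℂ] X}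
    (hK : IsCompactOperator K) (hK0 : K ≠ 0) (hT : ∀ S ∈ 𝒮, S * T = T * S)
    (hT0 : ∀ c : ℂ, T ≠ c • (1 : X →L[ℂ] X)) {R : ℝ} (hR : ∀ c ∈ spectrum ℂ T, ‖c‖ < R)
    {a : ℕ → ℂ} (ha : ∀ z : ℂ, ‖z‖ < R → Summable fun n => a n * z ^ n)
    (haR : ∀ z : ℂ, ‖z‖ < R → ‖∑' n, a n * z ^ n‖ < R)
    (hrel : K * T = (∑' n, a n • T ^ n) * K ∨ T * K = K * (∑' n, a n • T ^ n)) : HasInv 𝒮 := by
  have hone : (1 : X →L[ℂ] X) ≠ 0 := by
    intro h
    refine hT0 0 ?_
    rw [zero_smul, ← mul_one T, h, mul_zero]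
  have hnt : Nontrivial (X →L[ℂ] X) := ⟨⟨1, 0, hone⟩⟩
  obtain ⟨hB, r₀, C, h0, hr₀, hC, hTn⟩ := bd_of_spectrum hR
  set h : ℂ → ℂ := fun z => ∑' n, a n * z ^ n with hh
  set H : X →L[ℂ] X := ∑' n, a n • T ^ n with hH
  have hval : Val R T h H := val_series ha h0 hr₀ hC hTn
  have hcont : ContinuousOn h (ball 0 R) := series_cont ha
  have hex : ∀ n : ℕ, ∃ A : X →L[ℂ] X, Val R T (h^[n]) A := by
    intro n
    induction n with
    | zero =>
      refine ⟨aeval T (Polynomial.X : ℂ[X]), ?_⟩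
      have := Val.poly (R := R) (T := T) (Polynomial.X : ℂ[X])
      simp only [eval_X] at this
      exact this
    | succ n ih =>
      obtain ⟨A, hA⟩ := ih
      obtain ⟨A', hA', _⟩ := Val.comp_ hB hval hcont haR hA
      refine ⟨A', ?_⟩
      have e : h^[n + 1] = fun z => h^[n] (h z) := by
        funext z
        rw [Function.iterate_succ_apply]
      rw [e]
      exact hA'
  choose F hF using hex
  have hF0 : F 0 = T := by
    have h1 := Val.poly (R := R) (T := T) (Polynomial.X : ℂ[X])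
    simp only [eval_X, aeval_X] at h1
    exact (hF 0).unique hB h1
  have hcomp : ∀ n, ∀ L : X →L[ℂ] X, (L * T = H * L → L * F n = F (n + 1) * L) ∧
      (T * L = L * H → F n * L = L * F (n + 1)) := by
    intro n L
    obtain ⟨A', hA', hL⟩ := Val.comp_ hB hval hcont haR (hF n)
    have e : h^[n + 1] = fun z => h^[n] (h z) := by
      funext z
      rw [Function.iterate_succ_apply]
    have h2 := hF (n + 1)
    rw [e] at h2
    have h3 := h2.unique hB hA'
    rw [h3]
    exact hL L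
  have hmap : ∀ n : ℕ, ∀ z : ℂ, ‖z‖ < R → ‖h^[n] z‖ < R := by
    intro n
    induction n with
    | zero => intro z hz; exact hz
    | succ n ih =>
      intro z hz
      rw [Function.iterate_succ_apply]
      exact ih _ (haR z hz)
  obtain ⟨c, hc0, hcF⟩ : ∃ c : ℝ, 0 ≤ c ∧ ∀ n, ‖F n‖ ≤ c := by
    obtain ⟨r, c, hr, hc, hb⟩ := hB
    refine ⟨c * R, mul_nonneg hc (h0.trans hr₀).le, fun n => ?_⟩
    exact (hF n).bound hr hc hb (fun z hz => (hmap n z (hz.trans_lt hr)).le)
  have hslow : ∀ G : ℕ → X →L[ℂ] X, (∃ c : ℝ, ∀ n, ‖G n‖ ≤ c) → Slow G id := by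
    rintro G ⟨c, hc⟩ η hη
    refine Eventually.frequently ?_
    filter_upwards [(tendsto_pow_atTop_atTop_of_one_lt hη).eventually_ge_atTop c] with n hn
    exact (hc n).trans hn
  refine orbit hK hK0 (C := F) (fun n S hS => (hF n).commute (hT S hS)) (by rw [hF0]; exact hT0) ?_
  rcases hrel with hr | hr
  · left
    refine ⟨fun n => (hcomp n K).1 hr, hslow _ ⟨c * ‖K‖, fun n => ?_⟩⟩
    exact (norm_mul_le _ _).trans (mul_le_mul_of_nonneg_right (hcF n) (norm_nonneg _))
  · right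
    refine ⟨fun n => (hcomp n K).2 hr, hslow _ ⟨‖K‖ * c, fun n => ?_⟩⟩
    exact (norm_mul_le _ _).trans (mul_le_mul_of_nonneg_left (hcF n) (norm_nonneg _))

end Pool.Agent.J6H99.CS
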