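import Mathlib
import Pool.Agent.J6H99.CS.Corr

/-!
Relations whose zero set is separated by the modulus of an analytic function.
-/

set_option autoImplicit false

open Filter Topology Metric Set WeakDual

namespace Pool.Agent.J6H99.CS

variable {X : Type*} [NormedAddCommGroup X] [NormedSpace ℂ X]

/-- Left multiplication as a continuous linear map. -/
noncomputable def lmulL (X : Type*) [NormedAddCommGroup X] [NormedSpace ℂ X] :
    (X →L[ℂ] X) →L[ℂ] (Cpt X →L[ℂ] Cpt X) :=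
  LinearMap.mkContinuous
    { toFun := fun A => lmul A
      map_add' := fun A B => ContinuousLinearMap.ext fun k => Cpt.ext' (add_mul A B k.val)
      map_smul' := fun c A => ContinuousLinearMap.ext fun k => Cpt.ext' (smul_mul_assoc c A k.val) } 1
    fun A => by rw [one_mul]; exact lmul_norm A

/-- Right multiplication as a continuous linear map. -/
noncomputable def rmulL (X : Type*) [NormedAddCommGroup X] [NormedSpace ℂ X] :
    (X →L[ℂ] X) →L[ℂ] (Cpt X →L[ℂ] Cpt X) :=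
  LinearMap.mkContinuous
    { toFun := fun A => rmul A
      map_add' := fun A B => ContinuousLinearMap.ext fun k => Cpt.ext' (mul_add k.val A B)
      map_smul' := fun c A => ContinuousLinearMap.ext fun k => Cpt.ext' (mul_smul_comm c k.val A) } 1
    fun A => by rw [one_mul]; exact rmul_norm A

theorem lmulL_apply (A : X →L[ℂ] X) : lmulL X A = lmul A := rfl
theorem rmulL_apply (A : X →L[ℂ] X) : rmulL X A = rmul A := rfl

theorem gauge [CompleteSpace X] {𝒮 : Set (X →L[ℂ] X)} {K T : X →L[ℂ] X}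
    (hK : IsCompactOperator K) (hK0 : K ≠ 0) (hT : ∀ S ∈ 𝒮, S * T = T * S)
    {c : ℕ × ℕ → ℂ} {g : ℕ → ℂ} {σ ρ : ℝ} (hσ : 0 < σ) (hσρ : σ < ρ)
    (hTσ : ∀ x ∈ spectrum ℂ T, ‖x‖ < σ)
    (hc : Summable fun e : ℕ × ℕ => ‖c e‖ * ρ ^ (e.1 + e.2))
    (hg : Summable fun n : ℕ => ‖g n‖ * ρ ^ n)
    (hrel : ∑' e : ℕ × ℕ, c e • (T ^ e.1 * K * T ^ e.2) = 0)
    (hχ : ∀ x ∈ spectrum ℂ T, ∀ y ∈ spectrum ℂ T, ∑' e : ℕ × ℕ, c e * (x ^ e.1 * y ^ e.2) = 0 →
      ‖∑' n, g n * x ^ n‖ ≠ ‖∑' n, g n * y ^ n‖) : HasInv 𝒮 := by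
  have : CompleteSpace (Cpt X) := Cpt.complete
  obtain ⟨v, hv⟩ : ∃ x, K x ≠ 0 := by
    by_contra hcon
    push Not at hcon
    exact hK0 (ContinuousLinearMap.ext hcon)
  have : Nontrivial X := ⟨⟨K v, 0, hv⟩⟩
  obtain ⟨C, hC, hTC⟩ := pow_bound T hσ hTσ
  obtain ⟨𝔄, i1, i2, i3, ι, l, r, hιn, hl, hr, hιu⟩ :=
    exists_comm_alg (lmul T) (rmul T) (lmul_rmul T T)
  have hln : ∀ n, ‖l ^ n‖ ≤ C * σ ^ n := by
    intro n
    rw [← hιn, map_pow, hl, ← lmul_pow]
    exact (lmul_norm _).trans (hTC n)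
  have hrn : ∀ n, ‖r ^ n‖ ≤ C * σ ^ n := by
    intro n
    rw [← hιn, map_pow, hr, ← rmul_pow]
    exact (rmul_norm _).trans (hTC n)
  have hspec : ∀ (a : 𝔄) (χ : characterSpace ℂ 𝔄), χ a ∈ spectrum ℂ (ι a) := by
    intro a χ hu
    have h1 : χ a ∈ spectrum ℂ a := CharacterSpace.mem_spectrum_iff_exists.2 ⟨χ, rfl⟩
    apply h1
    have hu' : IsUnit (algebraMap ℂ (Cpt X →L[ℂ] Cpt X) (χ a) - ι a) := hu
    refine hιu _ ?_
    rw [map_sub, AlgHom.commutes]
    exact hu'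
  have hρ : 0 < ρ := hσ.trans hσρ
  let ιL : 𝔄 →L[ℂ] (Cpt X →L[ℂ] Cpt X) :=
    LinearMap.mkContinuous ι.toLinearMap 1 fun x => by
      rw [one_mul]
      exact (hιn x).le
  have hιL : ∀ x, ιL x = ι x := fun x => rfl
  have hιinj : ∀ x y, ι x = ι y → x = y := by
    intro x y h
    rw [← sub_eq_zero, ← norm_eq_zero, ← hιn, map_sub, h, sub_self, norm_zero]
  let k : Cpt X := Cpt.mk K hK
  let ev : 𝔄 →L[ℂ] Cpt X := (ContinuousLinearMap.apply ℂ (Cpt X) k).comp ιL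
  have hev : ∀ x, ev x = ι x k := fun x => rfl
  -- the relation
  have hs : Summable fun e : ℕ × ℕ => c e • (l ^ e.1 * r ^ e.2) := by
    refine (hc.mul_left (C ^ 2)).of_norm_bounded fun e => ?_
    calc ‖c e • (l ^ e.1 * r ^ e.2)‖ ≤ ‖c e‖ * ((C * σ ^ e.1) * (C * σ ^ e.2)) := by
          rw [norm_smul]
          gcongr
          exact (norm_mul_le _ _).trans (mul_le_mul (hln _) (hrn _) (norm_nonneg _) (by positivity))
      _ = C ^ 2 * (‖c e‖ * σ ^ (e.1 + e.2)) := by ring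
      _ ≤ C ^ 2 * (‖c e‖ * ρ ^ (e.1 + e.2)) := by gcongr
  set F : 𝔄 := ∑' e : ℕ × ℕ, c e • (l ^ e.1 * r ^ e.2) with hF
  have hFk : ι F k = 0 := by
    have h1 : HasSum (fun e : ℕ × ℕ => ev (c e • (l ^ e.1 * r ^ e.2))) (ev F) := hs.hasSum.mapL ev
    have h2 : HasSum (fun e : ℕ × ℕ => (ev (c e • (l ^ e.1 * r ^ e.2))).val) (ev F).val :=
      h1.mapL (Cpt.valL X)
    have h3 : (fun e : ℕ × ℕ => (ev (c e • (l ^ e.1 * r ^ e.2))).val) =
        fun e => c e • (T ^ e.1 * K * T ^ e.2) := by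
      ext1 e
      rw [hev, map_smul, map_mul, map_pow, map_pow, hl, hr, ← lmul_pow, ← rmul_pow]
      show c e • (T ^ e.1 * (K * T ^ e.2)) = _
      rw [mul_assoc]
    rw [h3] at h2
    refine Cpt.ext' ?_
    rw [← hev, ← h2.tsum_eq, hrel]
    rfl
  have hFχ : ∀ χ : characterSpace ℂ 𝔄, χ F = ∑' e : ℕ × ℕ, c e * (χ l ^ e.1 * χ r ^ e.2) := by
    intro χ
    have h4 : HasSum (fun e : ℕ × ℕ => (CharacterSpace.toCLM χ) (c e • (l ^ e.1 * r ^ e.2)))
      ((CharacterSpace.toCLM χ) F) := hs.hasSum.mapL _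
    have h5 : (CharacterSpace.toCLM χ) F = χ F := rfl
    rw [← h5, ← h4.tsum_eq]
    refine tsum_congr fun e => ?_
    show χ (c e • (l ^ e.1 * r ^ e.2)) = _
    rw [map_smul, map_mul, map_pow, map_pow, smul_eq_mul]
  -- the gauge
  have hgs : ∀ w : 𝔄, (∀ n, ‖w ^ n‖ ≤ C * σ ^ n) → Summable fun n : ℕ => g n • w ^ n := by
    intro w hw
    refine (hg.mul_left C).of_norm_bounded fun n => ?_
    calc ‖g n • w ^ n‖ ≤ ‖g n‖ * (C * σ ^ n) := by
          rw [norm_smul]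
          gcongr
          exact hw n
      _ = C * (‖g n‖ * σ ^ n) := by ring
      _ ≤ C * (‖g n‖ * ρ ^ n) := by gcongr
  have hgχ : ∀ (w : 𝔄), (∀ n, ‖w ^ n‖ ≤ C * σ ^ n) → ∀ χ : characterSpace ℂ 𝔄,
      χ (∑' n : ℕ, g n • w ^ n) = ∑' n : ℕ, g n * χ w ^ n := by
    intro w hw χ
    have h4 : HasSum (fun n : ℕ => (CharacterSpace.toCLM χ) (g n • w ^ n))
      ((CharacterSpace.toCLM χ) (∑' n : ℕ, g n • w ^ n)) := (hgs w hw).hasSum.mapL _
    have h5 : (CharacterSpace.toCLM χ) (∑' n : ℕ, g n • w ^ n) = χ (∑' n : ℕ, g n • w ^ n) := rfl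
    rw [← h5, ← h4.tsum_eq]
    refine tsum_congr fun n => ?_
    show χ (g n • w ^ n) = _
    rw [map_smul, map_pow, smul_eq_mul]
  have hAs : Summable fun n : ℕ => g n • T ^ n := by
    refine (hg.mul_left C).of_norm_bounded fun n => ?_
    calc ‖g n • T ^ n‖ ≤ ‖g n‖ * (C * σ ^ n) := by
          rw [norm_smul]
          gcongr
          exact hTC n
      _ = C * (‖g n‖ * σ ^ n) := by ring
      _ ≤ C * (‖g n‖ * ρ ^ n) := by gcongr
  set A : X →L[ℂ] X := ∑' n : ℕ, g n • T ^ n with hA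
  set lA : 𝔄 := ∑' n : ℕ, g n • l ^ n with hlA
  set rA : 𝔄 := ∑' n : ℕ, g n • r ^ n with hrA
  have hιlA : ι lA = lmul A := by
    have h1 : HasSum (fun n : ℕ => ιL (g n • l ^ n)) (ιL lA) := (hgs l hln).hasSum.mapL ιL
    have h2 : HasSum (fun n : ℕ => lmulL X (g n • T ^ n)) (lmulL X A) := hAs.hasSum.mapL _
    have h3 : (fun n : ℕ => ιL (g n • l ^ n)) = fun n : ℕ => lmulL X (g n • T ^ n) := by
      ext1 n
      rw [hιL, map_smul, map_pow, hl, map_smul, lmulL_apply, lmul_pow]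
    rw [h3] at h1
    exact h1.unique h2
  have hιrA : ι rA = rmul A := by
    have h1 : HasSum (fun n : ℕ => ιL (g n • r ^ n)) (ιL rA) := (hgs r hrn).hasSum.mapL ιL
    have h2 : HasSum (fun n : ℕ => rmulL X (g n • T ^ n)) (rmulL X A) := hAs.hasSum.mapL _
    have h3 : (fun n : ℕ => ιL (g n • r ^ n)) = fun n : ℕ => rmulL X (g n • T ^ n) := by
      ext1 n
      rw [hιL, map_smul, map_pow, hr, map_smul, rmulL_apply, rmul_pow]
    rw [h3] at h1
    exact h1.unique h2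
  have hbad : ∀ χ : characterSpace ℂ 𝔄, χ F = 0 → ‖χ lA‖ ≠ ‖χ rA‖ := by
    intro χ h1
    rw [hFχ] at h1
    rw [hlA, hrA, hgχ l hln, hgχ r hrn]
    exact hχ _ (spectrum_lmul T (hl ▸ hspec l χ)) _ (spectrum_rmul T (hr ▸ hspec r χ)) h1
  -- scalar gauges do not occur
  have hA0 : ∀ c : ℂ, A ≠ c • (1 : X →L[ℂ] X) := by
    intro w hw
    have e1 : lmul A = w • (1 : Cpt X →L[ℂ] Cpt X) := by
      rw [hw, ← lmulL_apply, map_smul, lmulL_apply, lmul_one]
    have e2 : rmul A = w • (1 : Cpt X →L[ℂ] Cpt X) := by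
      rw [hw, ← rmulL_apply, map_smul, rmulL_apply, rmul_one]
    have h1 : lA = rA := hιinj _ _ (by rw [hιlA, hιrA, e1, e2])
    obtain ⟨a, b, hab⟩ := bezout F 0 fun χ h2 _ => hbad χ h2 (by rw [h1])
    apply hK0
    have h3 : ι (a * F + b * 0) k = k := by rw [hab, map_one]; rfl
    rw [mul_zero, add_zero, map_mul] at h3
    have h4 : ι a (ι F k) = k := h3
    rw [hFk, map_zero] at h4
    exact (congrArg Cpt.val h4).symm
  have hAc : ∀ S ∈ 𝒮, S * A = A * S := by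
    intro S hS
    have h1 : HasSum (fun n : ℕ => S * (g n • T ^ n)) (S * A) := hAs.hasSum.mul_left S
    have h2 : HasSum (fun n : ℕ => (g n • T ^ n) * S) (A * S) := hAs.hasSum.mul_right S
    refine h1.unique ?_
    convert h2 using 1
    ext1 n
    rw [mul_smul_comm, smul_mul_assoc, ((show Commute S T from hT S hS).pow_right n).eq]
  refine pencil hK hK0 hAc hA0 fun z₀ hz₀ => ?_
  obtain ⟨a, b, hab⟩ : ∃ a b : 𝔄, a * F + b * (z₀ • rA - lA) = 1 := by
    refine bezout _ _ fun χ h1 h2 => hbad χ h1 ?_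
    rw [map_sub, map_smul, sub_eq_zero] at h2
    rw [← h2, smul_eq_mul, norm_mul, hz₀, one_mul]
  let u : ℂ → 𝔄 := fun z => a * F + b * (z • rA - lA)
  have hu1 : u z₀ = 1 := hab
  have hud : Differentiable ℂ u := by
    show Differentiable ℂ fun z : ℂ => a * F + b * (z • rA - lA)
    fun_prop
  have hunit : ∀ᶠ z in 𝓝 z₀, IsUnit (u z) := by
    have h1 : ContinuousAt u z₀ := (hud z₀).continuousAt
    have h2 : {x : 𝔄 | IsUnit x} ∈ 𝓝 (u z₀) :=
      Units.isOpen.mem_nhds (by rw [hu1]; exact isUnit_one)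
    exact h1 h2
  refine ⟨fun z => ev (Ring.inverse (u z) * b), ?_⟩
  filter_upwards [hunit] with z hz
  constructor
  · have h1 : DifferentiableAt ℂ (fun z => Ring.inverse (u z)) z :=
      (differentiableAt_inverse hz).comp z (hud z)
    exact ev.differentiableAt.comp z (h1.mul_const b)
  · have h3 : Ring.inverse (u z) * u z = 1 := Ring.inverse_mul_cancel _ hz
    have h4 : (z • rA - lA) * (Ring.inverse (u z) * b) = 1 - Ring.inverse (u z) * a * F := by
      calc (z • rA - lA) * (Ring.inverse (u z) * b)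
          = Ring.inverse (u z) * (u z) - Ring.inverse (u z) * a * F := by simp only [u]; ring
        _ = _ := by rw [h3]
    have h5 := congrArg (fun x => ι x k) h4
    simp only [map_mul, map_sub, map_smul, map_one, hιlA, hιrA] at h5
    have h6 : (ι (Ring.inverse (u z)) * ι a * ι F) k = 0 := by
      show ι (Ring.inverse (u z)) (ι a (ι F k)) = 0
      rw [hFk, map_zero, map_zero]
    have h7 : ((1 : Cpt X →L[ℂ] Cpt X) - ι (Ring.inverse (u z)) * ι a * ι F) k =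
        k - (ι (Ring.inverse (u z)) * ι a * ι F) k := rfl
    rw [h7, h6, sub_zero] at h5
    rw [hev, map_mul]
    exact h5

end Pool.Agent.J6H99.CS
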